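import Pool.Agent.T9h3.P.Ram1
import Pool.Agent.T9h3.P.RamG2
import Pool.Agent.T9h3.P.Gvw
import Pool.Agent.T9h3.P.Gfw
import Pool.Agent.T9h3.P.Gmw
import Pool.Agent.T9h3.P.Linw
import Pool.Agent.Y223.G.AllW

/-!
# Weighted blowups at the wild primes give models, in any characteristic
-/

set_option autoImplicit false

namespace Pool.Agent.T9h3.P

open Pool.Agent.Y223.G

theorem all_LINWN : S_LINWN := by
  have hLOCJ : S_LOCJ := Pool.Agent.Y878.G.t_LOCJ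
  have hI0 : S_I0REG := Pool.Agent.Y642.G.t_I0REG hLOCJ
  have hWQR : S_WQR := Pool.Agent.Y484.G.t_WQR
  have hLRA : S_LRA := Pool.Agent.Y737.G.t_LRA hLOCJ hWQR
  have hLOWFT : S_LOWFT := Pool.Agent.Y86.G.t_LOWFT
  have hLOWREG : S_LOWREG := Pool.Agent.Y44.G.t_LOWREG hI0 hLRA hLOWFT
  have hD0 : S_D0 := Pool.Agent.Y705.G.t_D0 hI0
  have hSTEP2 : S_ASTEP2 := Pool.Agent.Y839.H.t_ASTEP2 Pool.Agent.Y232.G.t_GENS
    Pool.Agent.Y232.G.t_VAL hLOWFT hLOWREG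
  have hRES2 : S_RES2 := Pool.Agent.Y153.H.t_RES2
  have hR2M : S_R2M := Pool.Agent.Y153.H.t_R2M
  exact L.t_LINW Pool.Agent.Y949.H.t_EXT2 hRES2 Pool.Agent.Y484.H.t_ATLAS2 hSTEP2
    (Pool.Agent.Y394.H.t_DOWN hD0) all_MODEL Pool.Agent.Y246.G.t_HASM
    (t_RAMG2 t_RAM1)
    (Pool.Agent.Y769.H.t_GLW hR2M all_RWB)
    (V.t_GVW Pool.Agent.Y417.G.t_EXF hR2M all_RWB)
    (F.t_GFW hRES2 all_RWB)
    (GMW.t_GMW hRES2 all_RWB)

end Pool.Agent.T9h3.P
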