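import Pool.Agent.Y223.G.Stm12

/-!
# Quotients by groups acting on a Dedekind domain: the order of the group may be zero in the field
-/

set_option autoImplicit false

namespace Pool.Agent.T9h3.P

open IsLocalRing Pool.Agent.W418.LU2 Pool.Agent.Y223.G

/-- The base: a Dedekind domain `O`, finite over `k`, with an action of the finite group `G` with
the fixed ring `k` and finite residue fields, in the field `K` with an action of `G`, such that the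
wild inertia groups have order at most `p`. -/
structure GN (k O K G : Type) [CommRing k] [IsDomain k] [CommRing O] [IsDomain O]
    [IsDedekindDomain O] [Field K] [Group G] [Algebra k O] [Algebra O K] [Algebra k K]
    [IsScalarTower k O K] (ρ : G →* (K ≃ₐ[k] K)) (T : G →* (O ≃ₐ[k] O)) : Prop where
  fin : Module.Finite k O
  inj : Function.Injective (algebraMap O K)
  injk : Function.Injective (algebraMap k K)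
  com : ∀ g o, ρ g (algebraMap O K o) = algebraMap O K (T g o)
  fai : ∀ g, (∀ o, T g o = o) → g = 1
  fix : ∀ o, (∀ g, T g o = o) → ∃ c : k, algebraMap k O c = o
  resf : ∀ 𝔓 : Ideal O, 𝔓.IsMaximal → 𝔓 ≠ ⊥ → Finite (O ⧸ 𝔓)
  inr : ∀ 𝔓 : Ideal O, 𝔓.IsMaximal → 𝔓 ≠ ⊥ → ∃ (p : ℕ) (τ : G), p.Prime ∧ τ ^ p = 1 ∧
    ∀ g, (∀ o, T g o - o ∈ 𝔓) → (∀ o ∈ 𝔓, T g o - o ∈ 𝔓 ^ 2) → g ∈ Subgroup.zpowers τ

/-- The hypotheses on the product of the varieties with the homogeneous coordinates `z ω`, on each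
of which the group acts linearly. -/
structure GHN (k O M Y K G Ω : Type) [CommRing k] [IsDomain k] [CommRing O] [IsDomain O]
    [IsDedekindDomain O] [Field M] [Field Y] [Field K] [Group G] [Algebra k O]
    [Algebra O K] [Algebra k K] [IsScalarTower k O K] [Algebra M K] [Algebra k Y]
    (ι : Y →ₐ[k] K) (ρ : G →* (K ≃ₐ[k] K)) (T : G →* (O ≃ₐ[k] O)) (m : ℕ)
    (z : Ω → Fin (m + 1) → K) : Prop extends GN k O K G ρ T where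
  lo : ∀ o : O, ∃ x : M, algebraMap M K x = algebraMap O K o
  lf : ∀ x : M, ∃ a b : O, b ≠ 0 ∧ algebraMap M K x * algebraMap O K b = algebraMap O K a
  fixK : ∀ x, (∀ g, ρ g x = x) ↔ ∃ y, ι y = x
  z0 : ∀ ω j, z ω j ≠ 0
  lin : ∀ g ω j, ρ g (z ω j) ∈ Submodule.span O (Set.range (z ω))
  gen : IntermediateField.adjoin M {y : K | ∃ ω j, y = z ω j / z ω 0} = ⊤
  ld : ∀ (S : Finset Ω) (ω : Ω), ω ∉ S →
    (IntermediateField.adjoin M {y : K | ∃ ω' ∈ S, ∃ j, y = z ω' j / z ω' 0}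
      ).toSubalgebra.LinearDisjoint
        (IntermediateField.adjoin M {y : K | ∃ j, y = z ω j / z ω 0}).toSubalgebra
  rg : ∀ J : Ω → Fin (m + 1), IsRegularRing (Algebra.adjoin O
    {y : K | ∃ (ω : Ω) (i : Fin (m + 1)), y = z ω i / z ω (J ω)})

/-- The base: a Dedekind domain `O`, finite over `k`, with an automorphism `t` of prime order `p`
with the fixed ring `k` and finite residue fields, in the field `K` with the automorphism `τ`. -/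
structure GSetN (k O K : Type) [CommRing k] [IsDomain k] [CommRing O] [IsDomain O]
    [IsDedekindDomain O] [Field K] [Algebra k O] [Algebra O K] [Algebra k K] [IsScalarTower k O K]
    (p : ℕ) (τ : K ≃ₐ[k] K) (t : O ≃ₐ[k] O) : Prop where
  pp : p.Prime
  fin : Module.Finite k O
  inj : Function.Injective (algebraMap O K)
  injk : Function.Injective (algebraMap k K)
  ord : ∀ x, τ^[p] x = x
  com : ∀ o, τ (algebraMap O K o) = algebraMap O K (t o)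
  nt : ∃ o, t o ≠ o
  fix : ∀ o, t o = o → ∃ c : k, algebraMap k O c = o
  resf : ∀ 𝔓 : Ideal O, 𝔓.IsMaximal → 𝔓 ≠ ⊥ → Finite (O ⧸ 𝔓)

/-- The ramification at a prime. -/
def S_RAM1N : Prop := ∀ (k O K : Type) [CommRing k] [IsDomain k] [CommRing O] [IsDomain O]
  [IsDedekindDomain O] [Field K] [Algebra k O] [Algebra O K] [Algebra k K] [IsScalarTower k O K]
  (p : ℕ) (τ : K ≃ₐ[k] K) (t : O ≃ₐ[k] O), GSetN k O K p τ t → ∀ 𝔓 : Ideal O, 𝔓.IsMaximal →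
  𝔓 ≠ ⊥ → (∀ o, t o - o ∈ 𝔓) → ∃ l : ℕ, (∀ o, t o - o ∈ 𝔓 ^ (l + 1)) ∧
    (∃ π ∈ 𝔓, t π - π ∉ 𝔓 ^ (l + 2)) ∧ (p : O) ∈ 𝔓 ^ ((p - 1) * l) ∧ (l = 0 → (p : O) ∉ 𝔓)

/-- The base is covered by open subsets with wild ramification over at most one prime of `k`, where
the product of the ramified primes is principal. -/
def S_RAMG2N : Prop := ∀ (k O K G : Type) [CommRing k] [IsDomain k] [CommRing O] [IsDomain O]
  [IsDedekindDomain O] [Field K] [Group G] [Finite G] [Algebra k O] [Algebra O K] [Algebra k K]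
  [IsScalarTower k O K] (ρ : G →* (K ≃ₐ[k] K)) (T : G →* (O ≃ₐ[k] O)), GN k O K G ρ T →
  ∃ (β : Type) (_ : Finite β) (_ : Nonempty β) (o : β → k) (π : β → K), (∀ b, o b ≠ 0) ∧
    (∀ b, π b ≠ 0) ∧ Ideal.span (Set.range o) = ⊤ ∧
    (∀ b b', ∃ n : ℕ,
      algebraMap k K (o b') ^ n * (π b' / π b) ∈ OL O (K := K) (o b) ∧
      algebraMap k K (o b') ^ n * (π b / π b') ∈ OL O (K := K) (o b)) ∧
    ∀ b, ∃ (_ : IsDedekindDomain (OL O (K := K) (o b)))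
      (Tb : G →* (OL O (K := K) (o b) ≃ₐ[k] OL O (K := K) (o b))) (N : Type) (_ : Finite N)
      (𝔔 : N → Ideal (OL O (K := K) (o b))) (p l : N → ℕ) (τ : N → G)
      (π' : OL O (K := K) (o b)), (π' : K) = π b ∧
      LocE k (OL O (K := K) (o b)) K G ρ Tb 𝔔 p l τ π' ∧
      (∀ i, ∃ g, g ≠ 1 ∧ (∀ x, Tb g x - x ∈ 𝔔 i) ∧ ∀ x ∈ 𝔔 i, Tb g x - x ∈ 𝔔 i ^ 2) ∧
      ∀ b', b' ≠ b → ∀ i, algebraMap k (OL O (K := K) (o b)) (o b') ∈ 𝔔 i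

/-- Valuations. -/
def S_GVWN : Prop := ∀ (k O M Y Y₂ K K₂ G Ω : Type) [CommRing k] [IsDomain k]
  [CommRing O] [IsDomain O] [IsDedekindDomain O] [Field M] [Field Y] [Field Y₂] [Field K]
  [Field K₂] [Group G] [Finite G] [Finite Ω] [Nonempty Ω] [Algebra k O]
  [Algebra O K] [Algebra k K] [IsScalarTower k O K] [Algebra M K] [Algebra k Y] [Algebra k Y₂]
  [Algebra k K₂] (ι : Y →ₐ[k] K) (ι₂ : Y₂ →ₐ[k] K₂) (εY : LP Y →ₐ[k] Y₂) (ε : LP K →ₐ[k] K₂)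
  (ρ : G →* (K ≃ₐ[k] K)) (ρ₂ : G →* (K₂ ≃ₐ[k] K₂)), Ext2M ι ι₂ εY ε ρ ρ₂ →
  ∀ (T : G →* (O ≃ₐ[k] O)) (m : ℕ) (z : Ω → Fin (m + 1) → K), GHN k O M Y K G Ω ι ρ T m z →
  ∃ (d : ℕ) (S : Set (Ω → K)), 1 ≤ d ∧ S.Finite ∧ (∀ Φ ∈ S, FmL k O K G Ω ρ z d Φ) ∧
    ∀ V : ValuationSubring Y, (∀ c : k, algebraMap k Y c ∈ V) → ∃ Φ ∈ S,
      ∀ s : k, s ≠ 0 → (algebraMap k Y s)⁻¹ ∈ V →
        ∀ (N : Type) (𝔔 : N → Ideal (OL O (K := K) s)) (e : N → ℕ)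
          (W : N → Ω → Fin (m + 1) → ℕ) (π : K), π ≠ 0 →
        ∃ V₂ : ValuationSubring Y₂, (∀ c : k, algebraMap k Y₂ c ∈ V₂) ∧
          (∀ x : Y₂, hm 0 x ∈ res ι₂ (GRW O ε z s 𝔔 e W π d Φ) → x ∈ V₂) ∧
          ∀ x : Y, εY (hm 0 x) ∈ V₂ → x ∈ V

/-- The field of fractions of the charts, constants and units. -/
def S_GFWN : Prop := ∀ (k O M Y Y₂ K K₂ G Ω : Type) [CommRing k] [IsDomain k]
  [CommRing O] [IsDomain O] [IsDedekindDomain O] [Field M] [Field Y] [Field Y₂] [Field K]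
  [Field K₂] [Group G] [Finite G] [Finite Ω] [Nonempty Ω] [Algebra k O]
  [Algebra O K] [Algebra k K] [IsScalarTower k O K] [Algebra M K] [Algebra k Y] [Algebra k Y₂]
  [Algebra k K₂] (ι : Y →ₐ[k] K) (ι₂ : Y₂ →ₐ[k] K₂) (εY : LP Y →ₐ[k] Y₂) (ε : LP K →ₐ[k] K₂)
  (ρ : G →* (K ≃ₐ[k] K)) (ρ₂ : G →* (K₂ ≃ₐ[k] K₂)), Ext2M ι ι₂ εY ε ρ ρ₂ →
  ∀ (T : G →* (O ≃ₐ[k] O)) (m : ℕ) (z : Ω → Fin (m + 1) → K), GHN k O M Y K G Ω ι ρ T m z →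
  ∀ (s : k) (_ : IsDedekindDomain (OL O (K := K) s))
  (Tb : G →* (OL O (K := K) s ≃ₐ[k] OL O (K := K) s)) (N : Type) [Finite N]
  (𝔔 : N → Ideal (OL O (K := K) s)) (p l : N → ℕ) (τ : N → G) (π : OL O (K := K) s), s ≠ 0 →
  LocE k (OL O (K := K) s) K G ρ Tb 𝔔 p l τ π → ∀ (e : N → ℕ) (W : N → Ω → Fin (m + 1) → ℕ),
  (∀ i, 0 < e i) → ∀ (d : ℕ) (Φ : Ω → K), 1 ≤ d →
  FmL k O K G Ω ρ z d Φ → ∀ R : Subalgebra k (LP Y₂),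
  R = res ι₂ (GRW O ε z s 𝔔 e W (π : K) d Φ) →
  (∀ x : Y₂, ∃ y y' : Y₂, hm 0 y ∈ R ∧ hm 0 y' ∈ R ∧ y' ≠ 0 ∧ x = y / y') ∧
  (∃ c : k, c ≠ 0 ∧ hm 1 (algebraMap k Y₂ c) ∈ R) ∧
  (∃ c : k, c ≠ 0 ∧ hm 0 (εY (hm 1 (algebraMap k Y c))) ∈ R) ∧
  hm 0 (εY (hm (-1) 1)) ∈ R ∧
  ∃ w : Y, w ≠ 0 ∧ hm 0 (εY (hm (Nat.card G) w)) ∈ R ∧
    hm 0 (εY (hm (-(Nat.card G : ℤ)) w⁻¹)) ∈ R

/-- The generic fibre. -/
def S_GMWN : Prop := ∀ (k O M Y Y₂ K K₂ G Ω : Type) [CommRing k] [IsDomain k]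
  [CommRing O] [IsDomain O] [IsDedekindDomain O] [Field M] [Field Y] [Field Y₂] [Field K]
  [Field K₂] [Group G] [Finite G] [Fintype Ω] [Nonempty Ω] [Algebra k O]
  [Algebra O K] [Algebra k K] [IsScalarTower k O K] [Algebra M K] [Algebra k Y] [Algebra k Y₂]
  [Algebra k K₂] (ι : Y →ₐ[k] K) (ι₂ : Y₂ →ₐ[k] K₂) (εY : LP Y →ₐ[k] Y₂) (ε : LP K →ₐ[k] K₂)
  (ρ : G →* (K ≃ₐ[k] K)) (ρ₂ : G →* (K₂ ≃ₐ[k] K₂)), Ext2M ι ι₂ εY ε ρ ρ₂ →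
  ∀ (T : G →* (O ≃ₐ[k] O)) (m : ℕ) (z : Ω → Fin (m + 1) → K), GHN k O M Y K G Ω ι ρ T m z →
  ∀ (M₀ : Submodule k Y), Submodule.span M (ι '' (M₀ : Set Y)) =
    Submodule.span M (Set.range fun J : Ω → Fin (m + 1) => ∏ ω, z ω (J ω)) →
  ∀ (s : k) (N : Type) [Finite N] (𝔔 : N → Ideal (OL O (K := K) s)) (e : N → ℕ)
  (W : N → Ω → Fin (m + 1) → ℕ) (π : OL O (K := K) s), π ≠ 0 → s ≠ 0 → (∀ i, 0 < e i) →
  ∀ (d : ℕ) (Φ : Ω → K), 1 ≤ d →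
  FmL k O K G Ω ρ z d Φ → ∀ h : Y, ι h = (∏ ω, Φ ω) * algebraMap k K s →
  h ∈ sat (M₀ ^ d) ∧
  (∀ x ∈ M₀ ^ d, ∃ c : k, c ≠ 0 ∧
    hm 0 (εY (hm 0 (c • (x / h)))) ∈ res ι₂ (GRW O ε z s 𝔔 e W (π : K) d Φ)) ∧
  ∀ (f : Y) (b : ℤ), hm 0 (εY (hm b f)) ∈ res ι₂ (GRW O ε z s 𝔔 e W (π : K) d Φ) →
    ∃ N₀ : ℕ, ∀ N', N₀ ≤ N' → h ^ N' * f ∈ sat (M₀ ^ (d * N'))

/-- **Weighted blowups at the wild primes give models.** -/
def S_LINWN : Prop := ∀ (k O M Y K G Ω : Type) [CommRing k] [IsDomain k] [IsNoetherianRing k]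
  [CommRing O] [IsDomain O] [IsDedekindDomain O] [Field M] [Field Y] [Field K] [Group G]
  [Finite G] [Fintype Ω] [Nonempty Ω] [Algebra k O] [Algebra O K] [Algebra k K]
  [IsScalarTower k O K] [Algebra M K] [Algebra k Y] (ι : Y →ₐ[k] K) (ρ : G →* (K ≃ₐ[k] K))
  (T : G →* (O ≃ₐ[k] O)) (m : ℕ) (z : Ω → Fin (m + 1) → K), GHN k O M Y K G Ω ι ρ T m z →
  (∀ (Y₂ K₂ : Type) [Field Y₂] [Field K₂] [Algebra k Y₂] [Algebra k K₂] (ι₂ : Y₂ →ₐ[k] K₂)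
    (εY : LP Y →ₐ[k] Y₂) (ε : LP K →ₐ[k] K₂) (ρ₂ : G →* (K₂ ≃ₐ[k] K₂)),
    Ext2M ι ι₂ εY ε ρ ρ₂ → ∀ (s : k) (_ : IsDedekindDomain (OL O (K := K) s))
    (Tb : G →* (OL O (K := K) s ≃ₐ[k] OL O (K := K) s)) (N : Type) [Finite N]
    (𝔔 : N → Ideal (OL O (K := K) s)) (p l : N → ℕ) (τ : N → G) (π : OL O (K := K) s), s ≠ 0 →
    LocE k (OL O (K := K) s) K G ρ Tb 𝔔 p l τ π →
    (∀ i, ∃ g, g ≠ 1 ∧ (∀ x, Tb g x - x ∈ 𝔔 i) ∧ ∀ x ∈ 𝔔 i, Tb g x - x ∈ 𝔔 i ^ 2) →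
    ∃ (e : N → ℕ) (W : N → Ω → Fin (m + 1) → ℕ), (∀ i, 0 < e i) ∧ ∀ (d : ℕ) (Φ : Ω → K),
      1 ≤ d → FmL k O K G Ω ρ z d Φ → Ch (res ι₂ (GRW O ε z s 𝔔 e W (π : K) d Φ))) →
  ∀ (M₀ : Submodule k Y), M₀.FG → ∀ P : Prop,
  (P → Submodule.span M (ι '' (M₀ : Set Y)) =
    Submodule.span M (Set.range fun J : Ω → Fin (m + 1) => ∏ ω, z ω (J ω))) →
  ∃ M' : Submodule k Y, M'.FG ∧ (∃ f ∈ M', f ≠ 0) ∧
    (∀ f ∈ M', f ≠ 0 → ∀ y : Y, ∃ b ∈ Pool.Agent.H918R2.Quad.chart k M' f,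
      ∃ c ∈ Pool.Agent.H918R2.Quad.chart k M' f, c ≠ 0 ∧ y = b / c) ∧
    (∀ f ∈ M', f ≠ 0 → ∀ (q : Ideal (Pool.Agent.H918R2.Quad.chart k M' f)) [q.IsPrime],
      IsRegularLocalRing (Localization.AtPrime q)) ∧
    (P → ∃ n : ℕ, 1 ≤ n ∧ (∀ y ∈ M', y ∈ sat (M₀ ^ n)) ∧
      ∀ y : Y, y ∈ M₀ ^ n → ∃ s : k, s ≠ 0 ∧ s • y ∈ M')

end Pool.Agent.T9h3.P
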