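import Pool.Agent.R383.TM.Mod
import Pool.Agent.T9h3.P.Stm

/-!
# Weighted blowups with nondegenerate action of the wild inertia groups, in any characteristic
-/

set_option autoImplicit false
set_option linter.unusedSectionVars false

namespace Pool.Agent.T9h3.P

open Pool.Agent.Y223.G Pool.Agent.Y858.H Pool.Agent.Y987.H Pool.Agent.R383.TM
open Pool.Agent.Y38.H.Rwb (R_s R_e R_o R_m R_low R_gr R_epow R_c R_coeff R_ft)

/-- **The charts are regular outside the vertex.** -/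
theorem w_CHN (hCH : S_CHW) (hRWB : S_RWB) (hREGL : S_REGL)
    (k O M Y Y₂ K K₂ G : Type) [CommRing k] [IsDomain k] [IsNoetherianRing k]
    [CommRing O] [IsDomain O] [IsDedekindDomain O] [Field M] [Field Y] [Field Y₂] [Field K]
    [Field K₂] [Group G] [Finite G] [Algebra k O] [Algebra O K]
    [Algebra k K] [IsScalarTower k O K] [Algebra M K] [Algebra k Y] [Algebra k Y₂] [Algebra k K₂]
    (ι : Y →ₐ[k] K) (ι₂ : Y₂ →ₐ[k] K₂) (εY : LP Y →ₐ[k] Y₂) (ε : LP K →ₐ[k] K₂)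
    (ρ : G →* (K ≃ₐ[k] K)) (ρ₂ : G →* (K₂ ≃ₐ[k] K₂)) (hE : Ext2M ι ι₂ εY ε ρ ρ₂)
    (T : G →* (O ≃ₐ[k] O)) (m : ℕ) (z : Fin (m + 1) → K)
    (hH : GHN k O M Y K G Unit ι ρ T m (fun _ => z)) (e : Ideal O → ℕ)
    (W : Ideal O → Fin (m + 1) → ℕ) (hD : WD k O K G ρ T z e W)
    (s : k) (_ : IsDedekindDomain (OL O (K := K) s))
    (Tb : G →* (OL O (K := K) s ≃ₐ[k] OL O (K := K) s)) (N : Type) [Finite N]
    (𝔔 : N → Ideal (OL O (K := K) s)) (p l : N → ℕ) (τ : N → G) (π : OL O (K := K) s)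
    (hs : s ≠ 0) (hL : LocE k (OL O (K := K) s) K G ρ Tb 𝔔 p l τ π)
    (hin : ∀ i, ∃ g, g ≠ 1 ∧ (∀ x, Tb g x - x ∈ 𝔔 i) ∧ ∀ x ∈ 𝔔 i, Tb g x - x ∈ 𝔔 i ^ 2) :
    ∃ (e : N → ℕ) (W : N → Unit → Fin (m + 1) → ℕ), (∀ i, 0 < e i) ∧ ∀ (d : ℕ) (Φ : Unit → K),
      1 ≤ d → FmL k O K G Unit ρ (fun _ => z) d Φ →
      Ch (res ι₂ (GRW O ε (fun _ => z) s 𝔔 e W (π : K) d Φ)) := by
  have hsK : algebraMap k K s ≠ 0 := fun h => hs (hH.injk (by rw [h, map_zero]))
  have hOK : ∀ o : O, algebraMap O K o ∈ OL O (K := K) s := fun o => mem_OLb s o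
  have hNO : IsNoetherianRing (OL O (K := K) s) := inferInstance
  have hM : ∀ i, (ctr s (𝔔 i)).IsMaximal := fun i => ctr_maximal hH.inj (hL.mx i) (hL.ne i)
  have hTbo : ∀ (g : G) (o : O), Tb g ⟨algebraMap O K o, hOK o⟩ =
      (⟨algebraMap O K (T g o), mem_OLb s _⟩ : OL O (K := K) s) := by
    intro g o
    apply Subtype.ext
    change ((Tb g ⟨algebraMap O K o, hOK o⟩ : OL O (K := K) s) : K) = algebraMap O K (T g o)
    rw [← hH.com]
    exact (hL.com g ⟨algebraMap O K o, hOK o⟩).symm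
  have hTbs : ∀ (g : G) (o : O), Tb g ⟨algebraMap O K o, hOK o⟩ - ⟨algebraMap O K o, hOK o⟩ =
      (⟨algebraMap O K (T g o - o), mem_OLb s _⟩ : OL O (K := K) s) := by
    intro g o
    rw [hTbo]
    apply Subtype.ext
    change algebraMap O K (T g o) - algebraMap O K o = algebraMap O K (T g o - o)
    rw [map_sub]
  -- the wild inertia group
  have hWg : ∀ i g, (∀ x, Tb g x - x ∈ 𝔔 i) → (∀ x ∈ 𝔔 i, Tb g x - x ∈ 𝔔 i ^ 2) →
      Wild T g (ctr s (𝔔 i)) := by
    intro i g hg hg2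
    refine ⟨fun o => ?_, fun o ho => ?_⟩
    · rw [mem_ctr, ← hTbs]
      exact hg _
    · refine ctr_sq hH.inj hsK (hL.mx i) (hL.ne i) ?_
      rw [← hTbs]
      exact hg2 _ (mem_ctr.1 ho)
  have hWe : ∀ i, ∃ g, g ≠ 1 ∧ Wild T g (ctr s (𝔔 i)) := by
    intro i
    obtain ⟨g, hg1, hg, hg2⟩ := hin i
    exact ⟨g, hg1, hWg i g hg hg2⟩
  have hτW : ∀ i, τ i ≠ 1 ∧ Wild T (τ i) (ctr s (𝔔 i)) := by
    intro i
    obtain ⟨g, hg1, hg, hg2⟩ := hin i
    obtain ⟨hw, hτp, hz⟩ := hL.ty i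
    have h1 : g ∈ Subgroup.zpowers (τ i) := by
      refine hz g hg fun w hw => ?_
      have h2 : (w - 1) * π ∈ 𝔔 i ^ (1 + 1) := by
        have e1 : (w - 1) * π = Tb g π - π := by
          rw [hw]
          ring
        rw [e1]
        exact hg2 _ (hL.pq i).1
      have h3 := cancel_unif (hL.mx i) (hL.ne i) h2 (hL.pq i).1 (hL.pq i).2
      rwa [pow_one] at h3
    refine ⟨fun h => hg1 ?_, ?_⟩
    · rw [h, Subgroup.zpowers_one_eq_bot, Subgroup.mem_bot] at h1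
      exact h1
    · have h2 : Subgroup.zpowers g ≤ wildSub T (ctr s (𝔔 i)) := by
        rw [Subgroup.zpowers_le]
        exact hWg i g hg hg2
      exact h2 (zpowers_prime hw.pp hτp h1 hg1)
  refine ⟨fun i => e (ctr s (𝔔 i)), fun i _ => W (ctr s (𝔔 i)), fun i => hD.e0 _,
    fun d Φ hd hΦ => ?_⟩
  have hrgC : IsRegularRing (CG (OL O (K := K) s) (fun _ : Unit => z) d Φ) :=
    hREGL k O K Unit s hsK m (fun _ => z) hH.z0 hH.rg d Φ hd hΦ.mem hΦ.ne
  -- stability of the chart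
  have hst : ∀ g, ∀ c ∈ CG (OL O (K := K) s) (fun _ : Unit => z) d Φ,
      ρ g c ∈ CG (OL O (K := K) s) (fun _ : Unit => z) d Φ := by
    intro g
    let V : Subalgebra (OL O (K := K) s) K :=
      { carrier := {x | ρ g x ∈ CG (OL O (K := K) s) (fun _ : Unit => z) d Φ}
        mul_mem' := by
          intro a b ha hb
          change ρ g (a * b) ∈ CG (OL O (K := K) s) (fun _ : Unit => z) d Φ
          rw [map_mul]
          exact Subalgebra.mul_mem _ ha hb
        add_mem' := by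
          intro a b ha hb
          change ρ g (a + b) ∈ CG (OL O (K := K) s) (fun _ : Unit => z) d Φ
          rw [map_add]
          exact Subalgebra.add_mem _ ha hb
        algebraMap_mem' := by
          intro r
          change ρ g (algebraMap (OL O (K := K) s) K r) ∈
            CG (OL O (K := K) s) (fun _ : Unit => z) d Φ
          rw [hL.com]
          exact Subalgebra.algebraMap_mem _ _ }
    have hle : CG (OL O (K := K) s) (fun _ : Unit => z) d Φ ≤ V := by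
      unfold CG
      refine iSup_le fun ω => ?_
      unfold AF
      rw [Algebra.adjoin_le_iff]
      rintro y ⟨x, ⟨a, ha, rfl⟩, rfl⟩
      change ρ g ((∏ j, z j ^ a j) / Φ ω) ∈ CG (OL O (K := K) s) (fun _ : Unit => z) d Φ
      rw [map_div₀, map_prod, hΦ.inv]
      have h1 : ∏ j, ρ g (z j ^ a j) ∈ FS (OL O (K := K) s) z d := by
        have h2 : ∀ j, ρ g (z j ^ a j) = (ρ g (z j)) ^ a j := fun j => map_pow _ _ _
        simp only [h2]
        have h3 := fs_prod (O := OL O (K := K) s) (z := z) (x := fun j => ρ g (z j))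
          (fun j => fs_loc s (fs_one (hH.lin g ω j))) a Finset.univ
        rw [ha] at h3
        exact h3
      have h2 := af_fs (F := Φ ω) h1
      exact (le_iSup (fun ω => AF (OL O (K := K) s) z d (Φ ω)) ω) h2
    exact fun c hc => hle hc
  have hftC : Algebra.FiniteType (OL O (K := K) s)
      (CG (OL O (K := K) s) (fun _ : Unit => z) d Φ) := by
    rw [← Subalgebra.fg_iff_finiteType]
    unfold CG AF
    rw [← Algebra.adjoin_iUnion, Subalgebra.fg_def]
    refine ⟨_, Set.finite_iUnion fun ω => ?_, rfl⟩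
    have h1 : {y : K | ∃ x ∈ MN z d, y = x / Φ ω} = (fun x => x / Φ ω) '' MN z d := by
      ext y
      constructor
      · rintro ⟨x, hx, rfl⟩
        exact ⟨x, hx, rfl⟩
      · rintro ⟨x, hx, rfl⟩
        exact ⟨x, hx, rfl⟩
    rw [h1]
    exact (Pool.Agent.Y434.G.MN_finite _ d).image _
  have hb := fun i => hRWB k (OL O (K := K) s) K Unit (𝔔 i) (e (ctr s (𝔔 i))) (hD.e0 _) m
    (fun _ => W (ctr s (𝔔 i))) (fun _ => z) d Φ
  have hzz : ∀ j, z j ≠ 0 := fun j => hH.z0 () j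
  have hP : ∀ i, ∀ a ∈ ctr s (𝔔 i), (⟨algebraMap O K a, mem_OLb s a⟩ : OL O (K := K) s) ∈ 𝔔 i :=
    fun i a ha => mem_ctr.1 ha
  have hft : ∀ i, Algebra.FiniteType k (RW k (𝔔 i) (e (ctr s (𝔔 i)))
      (fun _ : Unit => W (ctr s (𝔔 i))) (fun _ => z) d Φ) :=
    fun i => (hb i).2.2.2.2.2.2 hL.ft hNO
  have hrg : ∀ i, IsRegularRing (RW k (𝔔 i) (e (ctr s (𝔔 i)))
      (fun _ : Unit => W (ctr s (𝔔 i))) (fun _ => z) d Φ) := fun i =>
    RU_reg rfl (hft i) hsK hzz hd (hΦ.ne ()) (hΦ.mem ()) (hP i) (fun b hb => ctr_rep b hb)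
      (hD.rg _ (hM i) (hWe i))
  have hW : WCt k (OL O (K := K) s) K G ρ Tb 𝔔 τ π (CG (OL O (K := K) s) (fun _ : Unit => z) d Φ)
      (fun i => RW k (𝔔 i) (e (ctr s (𝔔 i))) (fun _ : Unit => W (ctr s (𝔔 i)))
        (fun _ => z) d Φ) := by
    refine ⟨hst, hftC, hrgC, fun i => (hb i).1, fun i => (hb i).2.1, fun i => (hb i).2.2.1,
      fun i => (hb i).2.2.2.1, hft, hrg, fun i => (hb i).2.2.2.2.1, ?_, ?_⟩
    · intro g i j hij
      have hij' : ∀ o, o ∈ ctr s (𝔔 i) ↔ T g o ∈ ctr s (𝔔 j) := by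
        intro o
        rw [mem_ctr, mem_ctr, hij, hTbo]
      obtain ⟨he, hlin⟩ := hD.eq _ (hM i) (hWe i) g _ hij'
      refine RU_stab (e := e (ctr s (𝔔 i))) rfl (by rw [he]) hzz hd (hΦ.ne ()) (hΦ.mem ()) (hP j)
        (ρ g) (hΦ.inv g ()) (fun o => Tb g o) (fun o => hL.com g o) (fun b hb => (hij b).1 hb) ?_
      intro i' j'
      have h1 := hlin i' j'
      rwa [he] at h1
    · intro i
      obtain ⟨hne, hwild⟩ := hτW i
      obtain ⟨l', D, hD0, hDl, hdv, hlinD, hfix⟩ := hD.dl _ (hM i) (τ i) hne hwild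
      have hself : ∀ o, o ∈ ctr s (𝔔 i) ↔ T (τ i) o ∈ ctr s (𝔔 i) := by
        intro o
        constructor
        · intro h
          have h1 := Ideal.add_mem _ (hwild.1 o) h
          rwa [sub_add_cancel] at h1
        · intro h
          have h1 := Ideal.sub_mem _ h (hwild.1 o)
          rwa [sub_sub_cancel] at h1
      obtain ⟨-, hlin⟩ := hD.eq _ (hM i) (hWe i) (τ i) _ hself
      have hTbi : ∀ b ∈ 𝔔 i, Tb (τ i) b ∈ 𝔔 i := by
        intro b hb
        have h1 := Ideal.add_mem _ (Ideal.pow_le_self (Nat.succ_ne_zero _)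
          ((hL.ty i).1.dv b)) hb
        rwa [sub_add_cancel] at h1
      have hst' := RU_stab (R := RW k (𝔔 i) (e (ctr s (𝔔 i)))
        (fun _ : Unit => W (ctr s (𝔔 i))) (fun _ => z) d Φ) rfl rfl hzz hd (hΦ.ne ())
        (hΦ.mem ()) (hP i) (ρ (τ i)) (hΦ.inv (τ i) ()) (fun o => Tb (τ i) o)
        (fun o => hL.com (τ i) o) hTbi hlin
      have hdv' : ∀ o, Tb (τ i) o - o ∈ 𝔔 i ^ (l' + 1) := by
        rintro ⟨x, n, y, hxy⟩
        have hsu : (⟨(algebraMap k K s)⁻¹, Pool.Agent.Y177.G.inv_mem_OL s hsK⟩ :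
            OL O (K := K) s) * algebraMap k (OL O (K := K) s) s = 1 := by
          apply Subtype.ext
          exact inv_mul_cancel₀ hsK
        have hx : algebraMap k (OL O (K := K) s) s ^ n * (⟨x, n, y, hxy⟩ : OL O (K := K) s) =
            ⟨algebraMap O K y, mem_OLb s y⟩ := by
          apply Subtype.ext
          exact hxy
        have h1 : algebraMap k (OL O (K := K) s) s ^ n *
            (Tb (τ i) (⟨x, n, y, hxy⟩ : OL O (K := K) s) - ⟨x, n, y, hxy⟩) =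
            ⟨algebraMap O K (T (τ i) y - y), mem_OLb s _⟩ := by
          rw [← hTbs, ← hx, map_mul, map_pow, AlgEquiv.commutes, mul_sub]
        have h2 : Tb (τ i) (⟨x, n, y, hxy⟩ : OL O (K := K) s) - ⟨x, n, y, hxy⟩ =
            (⟨(algebraMap k K s)⁻¹, Pool.Agent.Y177.G.inv_mem_OL s hsK⟩ :
            OL O (K := K) s) ^ n * (algebraMap k (OL O (K := K) s) s ^ n *
            (Tb (τ i) (⟨x, n, y, hxy⟩ : OL O (K := K) s) - ⟨x, n, y, hxy⟩)) := by
          rw [← mul_assoc, ← mul_pow, hsu, one_pow, one_mul]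
        rw [h2, h1]
        exact Ideal.mul_mem_left _ _ (ctr_pow _ (hdv y))
      have hδ := RU_delta (R := RW k (𝔔 i) (e (ctr s (𝔔 i)))
        (fun _ : Unit => W (ctr s (𝔔 i))) (fun _ => z) d Φ) rfl hzz hd (hΦ.ne ())
        (hΦ.mem ()) (hP i) (ρ (τ i)) (hΦ.inv (τ i) ()) (fun o => Tb (τ i) o)
        (fun o => hL.com (τ i) o) hst' hDl hdv' hlin hlinD
      refine ⟨D, hD0, hδ, fun w hw => ?_, ?_⟩
      · refine low_mem R_s (R_epow l' ?_) (by exact_mod_cast hDl)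
        refine cancel_unif (hL.mx i) (hL.ne i) ?_ (hL.pq i).1 (hL.pq i).2
        have e1 : (w - 1) * π = Tb (τ i) π - π := by
          rw [hw]
          ring
        rw [e1]
        exact hdv' π
      · intro Q hQ h1 h2
        exact RU_nd rfl hzz hd (hΦ.ne ()) (hΦ.mem ()) (hP i) (fun b hb => ctr_rep b hb) hsK
          (ρ (τ i)) (hΦ.inv (τ i) ()) (fun o => T (τ i) o) (fun o => hH.com (τ i) o) (hD.e0 _)
          hlin hfix Q hQ h1 h2 hδ
  exact hCH k (OL O (K := K) s) K K₂ G ε hE.eK ρ ρ₂ hE.act Tb N 𝔔 p l τ π hL _ _ hW Y₂ ι₂ hE.fix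

end Pool.Agent.T9h3.P
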