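import Pool.Agent.T9h3.P.All
import Pool.Agent.T9h3.P.Mod
import Pool.Agent.R383.TM.Bridge
import Pool.Agent.T9h3.H.Asm

/-!
# Subvarieties of tori over Dedekind domains: the weights
-/

set_option autoImplicit false
set_option linter.unusedSectionVars false

namespace Pool.Agent.T9h3.P

open Pool.Agent.Y223.G Pool.Agent.R383.TM Pool.Agent.T9h3 Pool.Agent.T9h3.H

section

variable {k O K G Λ : Type} [CommRing k] [IsDomain k] [CommRing O] [IsDomain O]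
  [IsDedekindDomain O] [Field K] [Group G] [Algebra k O] [Algebra O K] [Algebra k K]
  [IsScalarTower k O K] [AddCommGroup Λ] [DistribMulAction G Λ]

/-- The ring homomorphisms. -/
def rg (ρ : G →* (K ≃ₐ[k] K)) (g : G) : K →+* K := ((ρ g).toRingEquiv : K ≃+* K).toRingHom

lemma rg_apply (ρ : G →* (K ≃ₐ[k] K)) (g : G) (x : K) : rg ρ g x = ρ g x := rfl

lemma rg_pow (ρ : G →* (K ≃ₐ[k] K)) (g : G) (n : ℕ) (x : K) :
    rg ρ (g ^ n) x = (sK (rg ρ g) ^ n) x := by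
  induction n with
  | zero => rw [pow_zero, pow_zero, rg_apply, map_one]; rfl
  | succ n ih =>
    rw [pow_succ', pow_succ', Module.End.mul_apply, ← ih, rg_apply, map_mul]
    rfl

/-- The ring homomorphisms of the base. -/
noncomputable def tg (T : G →* (O ≃ₐ[k] O)) (g : G) : O →+* O :=
  ((T g).toRingEquiv : O ≃+* O).toRingHom

lemma tg_apply (T : G →* (O ≃ₐ[k] O)) (g : G) (x : O) : tg T g x = T g x := rfl

/-- `g ≠ 1` is in the wild inertia group of `𝔓`. -/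
def IW (T : G →* (O ≃ₐ[k] O)) (𝔓 : Ideal O) (g : G) : Prop := g ≠ 1 ∧ Wild T g 𝔓

/-- The data. -/
structure TSN (k O K G Λ : Type) [CommRing k] [IsDomain k] [CommRing O] [IsDomain O]
    [IsDedekindDomain O] [Field K] [Group G] [Algebra k O] [Algebra O K] [Algebra k K]
    [IsScalarTower k O K] [AddCommGroup Λ] [DistribMulAction G Λ]
    (ρ : G →* (K ≃ₐ[k] K)) (T : G →* (O ≃ₐ[k] O)) (χ : Λ → K) (Δ : Set Λ) : Prop
    extends GN k O K G ρ T where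
  χ0 : χ 0 = 1
  χa : ∀ x y, χ (x + y) = χ x * χ y
  act : ∀ g x, ρ g (χ x) = χ (g • x)
  fin' : Δ.Finite
  st : ∀ g : G, ∀ x ∈ Δ, g • x ∈ Δ
  ne : Δ.Nonempty
  tf : ∀ n : ℕ, n ≠ 0 → ∀ x : Λ, (n : ℤ) • x = 0 → x = 0
  bs : ∃ (ι : Type) (_ : Fintype ι) (v : Λ) (b : Module.Basis ι ℤ Λ), v ∈ Δ ∧ ∀ i, v + b i ∈ Δ
  cr : CVP (fun v => v ∈ Δ ∧ IsRegularRing (CG0 O χ Δ (χ v))) Δ
  vf : ∀ (𝔓 : Ideal O) (g : G) (l : ℕ), 𝔓.IsMaximal → IW T 𝔓 g →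
      TD0 O K Λ (orderOf g) (rg ρ g) (tg T g) (sA Λ g) χ 𝔓 l →
      CVP (VF χ (rg ρ g) (orderOf g) (tg T g) (sA Λ g) 𝔓 l Δ) Δ

variable {ρ : G →* (K ≃ₐ[k] K)} {T : G →* (O ≃ₐ[k] O)} {χ : Λ → K} {Δ : Set Λ}

lemma TSN.sp (g : G) : sA Λ g ^ orderOf g = 1 := by
  rw [← sA_pow, pow_orderOf_eq_one, sA_one]

lemma IW_ne (hG : GN k O K G ρ T) {𝔓 : Ideal O} {g : G} (hg : IW T 𝔓 g) : 𝔓 ≠ ⊥ := by
  rintro rfl
  apply hg.1
  apply hG.fai
  intro o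
  have := hg.2.1 o
  rw [Ideal.mem_bot, sub_eq_zero] at this
  exact this

/-- The wild inertia groups are cyclic of prime order. -/
lemma GN.cyc [Finite G] (hG : GN k O K G ρ T) {𝔓 : Ideal O} (h𝔓 : 𝔓.IsMaximal)
    {g : G} (hg : IW T 𝔓 g) : (orderOf g).Prime ∧
      ∀ g', IW T 𝔓 g' → ∃ a : ℕ, g' = g ^ a := by
  have hne : 𝔓 ≠ ⊥ := IW_ne hG hg
  obtain ⟨p, τ, hp, hτ, hinr⟩ := hG.inr 𝔓 h𝔓 hne
  have h1 : ∀ g, IW T 𝔓 g → g ∈ Subgroup.zpowers τ := fun g hg => hinr g hg.2.1 hg.2.2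
  have hgp : g ^ p = 1 := by
    obtain ⟨n, hn⟩ := h1 g hg
    have hn' : τ ^ n = g := hn
    rw [← hn', ← zpow_natCast, ← zpow_mul, mul_comm, zpow_mul, zpow_natCast, hτ, one_zpow]
  have ho : orderOf g = p := by
    have := Fact.mk hp
    exact orderOf_eq_prime hgp hg.1
  have hle : Subgroup.zpowers g ≤ Subgroup.zpowers τ := by
    rw [Subgroup.zpowers_le]
    exact h1 g hg
  have heq : Subgroup.zpowers g = Subgroup.zpowers τ := by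
    apply Subgroup.eq_of_le_of_card_ge hle
    rw [Nat.card_zpowers, Nat.card_zpowers, ho]
    exact Nat.le_of_dvd hp.pos (orderOf_dvd_of_pow_eq_one hτ)
  refine ⟨ho ▸ hp, fun g' hg' => ?_⟩
  have h2 := h1 g' hg'
  rw [← heq, ← mem_powers_iff_mem_zpowers] at h2
  obtain ⟨a, ha⟩ := h2
  exact ⟨a, ha.symm⟩

/-- The ramification data. -/
lemma TSN.td [Finite G] (S : TSN k O K G Λ ρ T χ Δ) {𝔓 : Ideal O} (h𝔓 : 𝔓.IsMaximal)
    {g : G} (hg : IW T 𝔓 g) :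
    ∃ l, TD0 O K Λ (orderOf g) (rg ρ g) (tg T g) (sA Λ g) χ 𝔓 l := by
  have hne : 𝔓 ≠ ⊥ := IW_ne S.toGN hg
  obtain ⟨hp, -⟩ := S.toGN.cyc h𝔓 hg
  obtain ⟨l, h1, h2, h3, h4⟩ := ram1E t_RAM1 S.toGN hp
    (pow_orderOf_eq_one g) hg.1 h𝔓 hne hg.2.1
  refine ⟨l, ⟨hp, S.χ0, S.χa, S.act g, fun o => S.com g o, ?_, h𝔓, hne, ?_, h1, h2,
    h3⟩⟩
  · rw [← sA_pow, pow_orderOf_eq_one, sA_one]
  · by_contra hl
    have hl0 : l = 0 := by omega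
    subst hl0
    obtain ⟨π, hπ, h5⟩ := h2
    exact h5 (hg.2.2 π hπ)

/-- The filtration of an element. -/
noncomputable abbrev WGN (ρ : G →* (K ≃ₐ[k] K)) (χ : Λ → K) (Δ : Set Λ)
    (g : G) (n : ℕ) : Submodule ℤ K := WW χ (rg ρ g) (orderOf g) (sA Λ g) Δ n

/-- The filtrations of the elements of the wild inertia group agree. -/
lemma TSN.wg [Finite G] (S : TSN k O K G Λ ρ T χ Δ) {𝔓 : Ideal O} (h𝔓 : 𝔓.IsMaximal)
    {g g' : G} (hg : IW T 𝔓 g) (hg' : IW T 𝔓 g') :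
    orderOf g = orderOf g' ∧ ∀ n u, u ∈ WGN ρ χ Δ g n ↔ u ∈ WGN ρ χ Δ g' n := by
  obtain ⟨hp, h1⟩ := S.toGN.cyc h𝔓 hg
  obtain ⟨hp', h1'⟩ := S.toGN.cyc h𝔓 hg'
  obtain ⟨a, ha⟩ := h1 g' hg'
  obtain ⟨a', ha'⟩ := h1' g hg
  have ho : orderOf g = orderOf g' := by
    have := Fact.mk hp
    symm
    refine orderOf_eq_prime ?_ hg'.1
    rw [ha, ← pow_mul, mul_comm, pow_mul, pow_orderOf_eq_one, one_pow]
  refine ⟨ho, fun k u => ⟨fun hu => ?_, fun hu => ?_⟩⟩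
  · refine WW_power (TSN.sp g') (S.act g') (S.st g') (fun x hx => S.tf _ hp'.ne_zero x hx) a'
      (σ' := rg ρ g) (s' := sA Λ g) ?_ ?_ k ?_
    · conv_lhs => rw [ha']
      rw [sA_pow]
    · intro x
      conv_lhs => rw [ha']
      rw [rg_pow]
    · rw [← ho]; exact hu
  · refine WW_power (TSN.sp g) (S.act g) (S.st g) (fun x hx => S.tf _ hp.ne_zero x hx) a
      (σ' := rg ρ g') (s' := sA Λ g') ?_ ?_ k ?_
    · conv_lhs => rw [ha]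
      rw [sA_pow]
    · intro x
      conv_lhs => rw [ha]
      rw [rg_pow]
    · rw [ho]; exact hu

/-- The depth. -/
def DVN (T : G →* (O ≃ₐ[k] O)) (𝔓 : Ideal O) (g : G) (n : ℕ) : Prop := ∀ o, T g o - o ∈ 𝔓 ^ n

lemma DVN_pow {𝔓 : Ideal O} {g : G} {n : ℕ} (h : DVN T 𝔓 g n) (a : ℕ) :
    DVN T 𝔓 (g ^ a) n := by
  induction a with
  | zero =>
    intro o
    rw [pow_zero, map_one]
    change o - o ∈ _
    rw [sub_self]
    exact Ideal.zero_mem _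
  | succ a ih =>
    intro o
    have h1 : T (g ^ (a + 1)) o - o = (T g (T (g ^ a) o) - T (g ^ a) o) +
        (T (g ^ a) o - o) := by
      rw [pow_succ', map_mul]
      change T g (T (g ^ a) o) - o = _
      ring
    rw [h1]
    exact Ideal.add_mem _ (h _) (ih o)

lemma DVN_iff {𝔓 : Ideal O} {g : G} {p l : ℕ} {σ : K →+* K} {s : Module.End ℤ Λ}
    (h : TD0 O K Λ p σ (tg T g) s χ 𝔓 l) (n : ℕ) : DVN T 𝔓 g n ↔ n ≤ l + 1 := by
  constructor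
  · intro h1
    by_contra hcon
    obtain ⟨π, hπ, h2⟩ := h.un
    exact h2 (Ideal.pow_le_pow_right (by omega) (h1 π))
  · intro h1 o
    exact Ideal.pow_le_pow_right h1 (h.dv o)

/-- The depths of the elements of the wild inertia group agree. -/
lemma GN.dvg [Finite G] (S : GN k O K G ρ T) {𝔓 : Ideal O} (h𝔓 : 𝔓.IsMaximal)
    {g g' : G} (hg : IW T 𝔓 g) (hg' : IW T 𝔓 g') (n : ℕ) : DVN T 𝔓 g n ↔ DVN T 𝔓 g' n := by
  obtain ⟨-, h1⟩ := S.cyc h𝔓 hg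
  obtain ⟨-, h1'⟩ := S.cyc h𝔓 hg'
  obtain ⟨a, ha⟩ := h1 g' hg'
  obtain ⟨a', ha'⟩ := h1' g hg
  constructor
  · intro h
    rw [ha]
    exact DVN_pow h a
  · intro h
    rw [ha']
    exact DVN_pow h a'

lemma GN.leq [Finite G] (S : GN k O K G ρ T) {𝔓 : Ideal O} (h𝔓 : 𝔓.IsMaximal)
    {g g' : G} (hg : IW T 𝔓 g) (hg' : IW T 𝔓 g') {l l' : ℕ}
    (h : TD0 O K Λ (orderOf g) (rg ρ g) (tg T g) (sA Λ g) χ 𝔓 l)
    (h' : TD0 O K Λ (orderOf g') (rg ρ g') (tg T g') (sA Λ g') χ 𝔓 l') : l = l' := by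
  have h1 := (DVN_iff h' (l + 1)).1 ((S.dvg h𝔓 hg hg' _).1 ((DVN_iff h (l + 1)).2 le_rfl))
  have h2 := (DVN_iff h (l' + 1)).1 ((S.dvg h𝔓 hg hg' _).2 ((DVN_iff h' (l' + 1)).2 le_rfl))
  omega

open Classical in
/-- The chosen element of the wild inertia group. -/
noncomputable def gN (T : G →* (O ≃ₐ[k] O)) (𝔓 : Ideal O) : G :=
  if h : ∃ g, IW T 𝔓 g then h.choose else 1

lemma gN_spec {𝔓 : Ideal O} {g : G} (hg : IW T 𝔓 g) : IW T 𝔓 (gN T 𝔓) := by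
  unfold gN
  rw [dif_pos ⟨g, hg⟩]
  exact (⟨g, hg⟩ : ∃ g, IW T 𝔓 g).choose_spec

open Classical in
/-- The chosen depth. -/
noncomputable def lN (ρ : G →* (K ≃ₐ[k] K)) (T : G →* (O ≃ₐ[k] O)) (χ : Λ → K)
    (𝔓 : Ideal O) : ℕ :=
  if h : ∃ l, TD0 O K Λ (orderOf (gN T 𝔓)) (rg ρ (gN T 𝔓)) (tg T (gN T 𝔓))
    (sA Λ (gN T 𝔓)) χ 𝔓 l then h.choose else 0

lemma TSN.l0_spec [Finite G] (S : TSN k O K G Λ ρ T χ Δ) {𝔓 : Ideal O} (h𝔓 : 𝔓.IsMaximal)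
    {g : G} (hg : IW T 𝔓 g) :
    TD0 O K Λ (orderOf (gN T 𝔓)) (rg ρ (gN T 𝔓)) (tg T (gN T 𝔓)) (sA Λ (gN T 𝔓)) χ 𝔓
      (lN ρ T χ 𝔓) := by
  have h := S.td h𝔓 (gN_spec hg)
  unfold lN
  rw [dif_pos h]
  exact h.choose_spec

lemma TSN.l0_spec' [Finite G] (S : TSN k O K G Λ ρ T χ Δ) {𝔓 : Ideal O} (h𝔓 : 𝔓.IsMaximal)
    {g : G} (hg : IW T 𝔓 g) :
    TD0 O K Λ (orderOf g) (rg ρ g) (tg T g) (sA Λ g) χ 𝔓 (lN ρ T χ 𝔓) := by
  obtain ⟨l, hl⟩ := S.td h𝔓 hg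
  rw [S.toGN.leq h𝔓 (gN_spec hg) hg (S.l0_spec h𝔓 hg) hl]
  exact hl

open Classical in
/-- The levels of the coordinates. -/
noncomputable def kN (ρ : G →* (K ≃ₐ[k] K)) (T : G →* (O ≃ₐ[k] O)) (χ : Λ → K) (Δ : Set Λ)
    {m : ℕ} (z : Fin (m + 1) → K) (𝔓 : Ideal O) (i : Fin (m + 1)) : ℕ :=
  Nat.findGreatest (fun n => z i ∈ WGN ρ χ Δ (gN T 𝔓) n) (orderOf (gN T 𝔓) - 1)

/-- The weights of the coordinates. -/
noncomputable def wN (ρ : G →* (K ≃ₐ[k] K)) (T : G →* (O ≃ₐ[k] O)) (χ : Λ → K) (Δ : Set Λ)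
    {m : ℕ} (z : Fin (m + 1) → K) (𝔓 : Ideal O) (i : Fin (m + 1)) : ℕ :=
  kN ρ T χ Δ z 𝔓 i * lN ρ T χ 𝔓

/-- The coordinates. -/
structure ZGN (ρ : G →* (K ≃ₐ[k] K)) (χ : Λ → K) (Δ : Set Λ) {m : ℕ}
    (z : Fin (m + 1) → K) : Prop where
  z0 : ∀ i, z i ≠ 0
  zs : ∀ i, z i ∈ Submodule.span ℤ (χ '' Δ)
  sp : ∀ (g : G) (n : ℕ), n ≤ orderOf g → WGN ρ χ Δ g n ≤
    Submodule.span ℤ {y | ∃ i, z i ∈ WGN ρ χ Δ g n ∧ y = z i}

variable {m : ℕ} {z : Fin (m + 1) → K}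

lemma ZGN.zw (Z : ZGN ρ χ Δ z) (𝔓 : Ideal O) :
    ZW χ (rg ρ (gN T 𝔓)) (orderOf (gN T 𝔓)) (sA Λ (gN T 𝔓)) (lN ρ T χ 𝔓) Δ z (wN ρ T χ Δ z 𝔓)
      (kN ρ T χ Δ z 𝔓) := by
  classical
  refine ⟨Z.z0, fun i => Nat.findGreatest_le _, fun i => ?_, fun i => rfl, fun k hk => ?_⟩
  · unfold kN
    exact Nat.findGreatest_spec (P := fun k => z i ∈ WGN ρ χ Δ (gN T 𝔓) k)
      (Nat.zero_le (orderOf (gN T 𝔓) - 1)) (Z.zs i)
  · refine (Z.sp (gN T 𝔓) k (by omega)).trans (Submodule.span_mono ?_)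
    rintro y ⟨i, hi, rfl⟩
    refine ⟨i, ?_, rfl⟩
    unfold kN
    exact Nat.le_findGreatest hk hi

lemma ZGN.zw' [Finite G] (S : TSN k O K G Λ ρ T χ Δ) (Z : ZGN ρ χ Δ z) {𝔓 : Ideal O}
    (h𝔓 : 𝔓.IsMaximal) {g : G} (hg : IW T 𝔓 g) :
    ZW χ (rg ρ g) (orderOf g) (sA Λ g) (lN ρ T χ 𝔓) Δ z (wN ρ T χ Δ z 𝔓) (kN ρ T χ Δ z 𝔓) := by
  obtain ⟨h1, h2⟩ := S.wg h𝔓 (gN_spec hg) hg
  have h3 := Z.zw (T := T) 𝔓
  have h4 : ∀ p, orderOf (gN T 𝔓) = p →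
      (∀ n u, u ∈ WGN ρ χ Δ (gN T 𝔓) n ↔ u ∈ WW χ (rg ρ g) p (sA Λ g) Δ n) →
      ZW χ (rg ρ g) p (sA Λ g) (lN ρ T χ 𝔓) Δ z (wN ρ T χ Δ z 𝔓) (kN ρ T χ Δ z 𝔓) := by
    rintro p rfl h
    exact h3.change h
  exact h4 _ h1 h2

/-- The ideals are conjugate. -/
lemma cjN_pow {h : G} {𝔓 𝔓' : Ideal O} (hh : ∀ o, o ∈ 𝔓 ↔ T h o ∈ 𝔓') (n : ℕ) (o : O) :
    o ∈ 𝔓 ^ n ↔ T h o ∈ 𝔓' ^ n := by
  have h2 : 𝔓' = 𝔓.map (T h : O ≃+* O) := by
    ext o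
    rw [Ideal.mem_map_of_equiv]
    constructor
    · intro ho
      refine ⟨(T h).symm o, (hh _).2 ?_, ?_⟩
      · rwa [AlgEquiv.apply_symm_apply]
      · exact AlgEquiv.apply_symm_apply _ _
    · rintro ⟨x, hx, rfl⟩
      exact (hh _).1 hx
  have h3 : 𝔓' ^ n = (𝔓 ^ n).map (T h : O ≃+* O) := by rw [h2, Ideal.map_pow]
  rw [h3, Ideal.mem_map_of_equiv]
  constructor
  · intro ho
    exact ⟨o, ho, rfl⟩
  · rintro ⟨x, hx, hxo⟩
    have : x = o := (T h).injective hxo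
    rwa [← this]

lemma TN_conj (h g : G) (o : O) : T (h * g * h⁻¹) o = T h (T g (T h⁻¹ o)) := by
  rw [map_mul, map_mul]
  rfl

lemma TN_inv (h : G) (o : O) : T h (T h⁻¹ o) = o := by
  have h1 : T (h * h⁻¹) o = o := by rw [mul_inv_cancel, map_one]; rfl
  rw [map_mul] at h1
  exact h1

lemma TN_inv' (h : G) (o : O) : T h⁻¹ (T h o) = o := by
  have h1 := TN_inv (T := T) h⁻¹ o
  rwa [inv_inv] at h1

lemma DVN_conj {h g : G} {𝔓 𝔓' : Ideal O} (hh : ∀ o, o ∈ 𝔓 ↔ T h o ∈ 𝔓') {n : ℕ}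
    (hg : DVN T 𝔓 g n) : DVN T 𝔓' (h * g * h⁻¹) n := by
  intro o
  have h1 := (cjN_pow hh n _).1 (hg (T h⁻¹ o))
  rw [map_sub, TN_inv, ← TN_conj] at h1
  exact h1

lemma IW_conj {h g : G} {𝔓 𝔓' : Ideal O} (hh : ∀ o, o ∈ 𝔓 ↔ T h o ∈ 𝔓') (hg : IW T 𝔓 g) :
    IW T 𝔓' (h * g * h⁻¹) := by
  obtain ⟨h1, h2, h3⟩ := hg
  refine ⟨?_, fun o => ?_, fun o ho => ?_⟩
  · intro h4
    apply h1
    have h5 : g = h⁻¹ * (h * g * h⁻¹) * h := by group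
    rw [h5, h4]
    group
  · have h4 := DVN_conj hh (n := 1) (g := g) (fun o => by rw [pow_one]; exact h2 o) o
    rwa [pow_one] at h4
  · have h4 : T h⁻¹ o ∈ 𝔓 := by
      rw [hh, TN_inv]
      exact ho
    have h5 := (cjN_pow hh 2 _).1 (h3 _ h4)
    rw [map_sub, TN_inv, ← TN_conj] at h5
    exact h5

lemma cjN_max {h : G} {𝔓 𝔓' : Ideal O} (hh : ∀ o, o ∈ 𝔓 ↔ T h o ∈ 𝔓') (h𝔓 : 𝔓.IsMaximal) :
    𝔓'.IsMaximal := by
  have h2 : 𝔓' = 𝔓.map (T h : O ≃+* O) := by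
    ext o
    rw [Ideal.mem_map_of_equiv]
    constructor
    · intro ho
      refine ⟨(T h).symm o, (hh _).2 ?_, ?_⟩
      · rwa [AlgEquiv.apply_symm_apply]
      · exact AlgEquiv.apply_symm_apply _ _
    · rintro ⟨x, hx, rfl⟩
      exact (hh _).1 hx
  rw [h2]
  exact Ideal.map_isMaximal_of_equiv (T h : O ≃+* O)

lemma WGN_conj (S : TSN k O K G Λ ρ T χ Δ) (h g : G) (n : ℕ) {u : K} (hu : u ∈ WGN ρ χ Δ g n) :
    ρ h u ∈ WGN ρ χ Δ (h * g * h⁻¹) n := by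
  have ho : orderOf (h * g * h⁻¹) = orderOf g := by
    have := (MulAut.conj h).orderOf_eq g
    rw [MulAut.conj_apply] at this
    exact this
  have h1 := WW_conj (σ := rg ρ g) (σ' := rg ρ (h * g * h⁻¹)) (η := rg ρ h) (s := sA Λ g)
    (s' := sA Λ (h * g * h⁻¹)) (r := sA Λ h) (S.act h) (S.st h) (by
      rw [← sA_mul, ← sA_mul, inv_mul_cancel_right]) (fun x => by
      rw [rg_apply, rg_apply, rg_apply, rg_apply, ← AlgEquiv.mul_apply, ← AlgEquiv.mul_apply,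
        ← map_mul, ← map_mul, inv_mul_cancel_right]) n hu
  unfold WGN
  rw [ho]
  exact h1

/-- **The hypotheses on the weights.** -/
theorem TSN.data [Finite G] (S : TSN k O K G Λ ρ T χ Δ) (Z : ZGN ρ χ Δ z) :
    WD k O K G ρ T z (fun _ => 1) (wN ρ T χ Δ z) := by
  refine ⟨fun _ => Nat.one_pos, ?_, ?_, ?_⟩
  · rintro 𝔓 h𝔓 ⟨g, hg⟩ j
    have hg' : IW T 𝔓 g := hg
    exact WR_reg (ZWreg (Z.zw' S h𝔓 hg') (S.l0_spec' h𝔓 hg') (S.st g) S.fin'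
      (S.vf 𝔓 g _ h𝔓 hg' (S.l0_spec' h𝔓 hg')) j)
  · rintro 𝔓 h𝔓 ⟨g, hg⟩ h 𝔓' hh
    have hg' : IW T 𝔓 g := hg
    refine ⟨rfl, fun i j => ?_⟩
    have h𝔓' := cjN_max hh h𝔓
    have hg0 := gN_spec hg'
    have hg1 := IW_conj hh hg0
    have hg2 := gN_spec hg1
    obtain ⟨ho, hw⟩ := S.wg h𝔓' hg1 hg2
    have ho' : orderOf (h * gN T 𝔓 * h⁻¹) = orderOf (gN T 𝔓) := by
      have := (MulAut.conj h).orderOf_eq (gN T 𝔓)
      rw [MulAut.conj_apply] at this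
      exact this
    have hl : lN ρ T χ 𝔓' = lN ρ T χ 𝔓 := by
      have t1 := S.l0_spec' h𝔓' hg1
      have t2 := S.l0_spec h𝔓 hg'
      have e1 := (DVN_iff t1 (lN ρ T χ 𝔓 + 1)).1 (DVN_conj hh ((DVN_iff t2 _).2 le_rfl))
      have hh' : ∀ o, o ∈ 𝔓' ↔ T h⁻¹ o ∈ 𝔓 := by
        intro o
        rw [hh, TN_inv]
      have e2 := DVN_conj hh' ((DVN_iff t1 (lN ρ T χ 𝔓' + 1)).2 le_rfl)
      have e3 : h⁻¹ * (h * gN T 𝔓 * h⁻¹) * h⁻¹⁻¹ = gN T 𝔓 := by group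
      rw [e3] at e2
      have e4 := (DVN_iff t2 _).1 e2
      omega
    have h1 := (hw _ _).1 (WGN_conj S h _ _ ((Z.zw (T := T) 𝔓).zw i))
    have h2 := (Z.zw (T := T) 𝔓').mem_W (𝔓 := 𝔓') (j := j) (k := kN ρ T χ Δ z 𝔓 i) (by
      rw [← ho, ho']
      exact (Z.zw (T := T) 𝔓).kp i) h1
    rw [hl] at h2
    exact WR_mem h2
  · intro 𝔓 h𝔓 g hg1 hg2
    have hg : IW T 𝔓 g := ⟨hg1, hg2⟩
    have t := S.l0_spec' h𝔓 hg
    refine ⟨lN ρ T χ 𝔓, lN ρ T χ 𝔓, t.l1, by rw [one_mul], t.dv, ?_, ?_⟩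
    · intro i j
      exact WR_mem (ZWd (Z.zw' S h𝔓 hg) t (S.st g) (S.vf 𝔓 g _ h𝔓 hg t) i j)
    · intro j
      exact FIX_of (ρ g) (T g) (fun o => S.com g o)
        (ZWnf (Z.zw' S h𝔓 hg) t (S.st g) (S.vf 𝔓 g _ h𝔓 hg t) j)

/-- **The coordinates.** -/
theorem exists_zN [Finite G] (χ0 : χ 0 = 1) (χa : ∀ x y, χ (x + y) = χ x * χ y)
    (act : ∀ g x, ρ g (χ x) = χ (g • x)) (fin : Δ.Finite)
    (st : ∀ g : G, ∀ x ∈ Δ, g • x ∈ Δ) (ne : Δ.Nonempty) :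
    ∃ (m : ℕ) (z : Fin (m + 1) → K), ZGN ρ χ Δ z := by
  classical
  have _ : Fintype G := Fintype.ofFinite _
  have hfg : ∀ (g : G) (n : ℕ), (WGN ρ χ Δ g n).FG := fun g n => WW_fg fin n
  choose S hS using hfg
  obtain ⟨ZS, hZS⟩ : ∃ ZS : Finset K, ZS = (Finset.univ.biUnion fun g : G =>
    (Finset.range (orderOf g + 1)).biUnion fun k => S g k).filter (· ≠ 0) := ⟨_, rfl⟩
  have memZ : ∀ x, x ∈ ZS ↔ (∃ g k, k ≤ orderOf g ∧ x ∈ S g k) ∧ x ≠ 0 := by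
    intro x
    rw [hZS, Finset.mem_filter, Finset.mem_biUnion]
    constructor
    · rintro ⟨⟨g, -, h⟩, h0⟩
      rw [Finset.mem_biUnion] at h
      obtain ⟨k, hk, h⟩ := h
      rw [Finset.mem_range] at hk
      exact ⟨⟨g, k, by omega, h⟩, h0⟩
    · rintro ⟨⟨g, k, hk, h⟩, h0⟩
      refine ⟨⟨g, Finset.mem_univ _, ?_⟩, h0⟩
      rw [Finset.mem_biUnion]
      exact ⟨k, Finset.mem_range.2 (by omega), h⟩
  have hmem : ∀ g k x, x ∈ S g k → x ∈ WGN ρ χ Δ g k := by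
    intro g k x hx
    rw [← hS g k]
    exact Submodule.subset_span hx
  have hcard : 0 < ZS.card := by
    rw [Finset.card_pos]
    obtain ⟨m, hm⟩ := ne
    by_contra hcon
    rw [Finset.not_nonempty_iff_eq_empty] at hcon
    have h1 : ∀ x ∈ S (1 : G) 0, x = 0 := by
      intro x hx
      by_contra h0
      have h2 := (memZ x).2 ⟨⟨1, 0, Nat.zero_le _, hx⟩, h0⟩
      rw [hcon] at h2
      exact absurd h2 (Finset.notMem_empty _)
    have h2 : χ m ∈ WGN ρ χ Δ (1 : G) 0 := chi_WW hm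
    rw [← hS] at h2
    have h3 : Submodule.span ℤ (S (1 : G) 0 : Set K) ≤ ⊥ := by
      rw [Submodule.span_le]
      intro x hx
      exact h1 x hx
    exact chi_ne χ0 χa m (h3 h2)
  obtain ⟨m, hm⟩ : ∃ m, ZS.card = m + 1 := ⟨_, (Nat.sub_add_cancel hcard).symm⟩
  let e : Fin (m + 1) ≃ ZS := (finCongr hm.symm).trans ZS.equivFin.symm
  have hz : ∀ i, ((e i : ZS) : K) ∈ ZS := fun i => (e i).2
  refine ⟨m, fun i => (e i : K), ⟨fun i => ((memZ _).1 (hz i)).2, fun i => ?_, fun g k hk => ?_⟩⟩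
  · obtain ⟨⟨g, k, hk, h⟩, -⟩ := (memZ _).1 (hz i)
    exact WW_mono (TSN.sp g) (act g) (st g) (Nat.zero_le k) (hmem g k _ h)
  · intro u hu
    have hu' := hu
    rw [← hS g k] at hu'
    refine Submodule.span_le.2 ?_ hu'
    intro x hx
    by_cases h0 : x = 0
    · rw [h0]
      exact Submodule.zero_mem _
    · have h1 : x ∈ ZS := (memZ x).2 ⟨⟨g, k, hk, hx⟩, h0⟩
      refine Submodule.subset_span ⟨e.symm ⟨x, h1⟩, ?_, ?_⟩
      · rw [Equiv.apply_symm_apply]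
        exact hmem g k x hx
      · rw [Equiv.apply_symm_apply]

lemma ZGN.span (Z : ZGN ρ χ Δ z) : Submodule.span ℤ (χ '' Δ) ≤ Submodule.span ℤ (Set.range z) := by
  have h1 := Z.sp 1 0 (Nat.zero_le _)
  refine le_trans h1 (Submodule.span_mono ?_)
  rintro _ ⟨i, -, rfl⟩
  exact ⟨i, rfl⟩

lemma ZGN.span' (Z : ZGN ρ χ Δ z) : Submodule.span ℤ (Set.range z) = Submodule.span ℤ (χ '' Δ) := by
  apply le_antisymm
  · rw [Submodule.span_le]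
    rintro _ ⟨i, rfl⟩
    exact Z.zs i
  · exact Z.span

/-- The coordinates generate the function field. -/
lemma ZGN.gen {M : Type} [Field M] [Algebra M K] (χ0 : χ 0 = 1)
    (χa : ∀ x y, χ (x + y) = χ x * χ y)
    (bs : ∃ (ι : Type) (_ : Fintype ι) (v : Λ) (b : Module.Basis ι ℤ Λ), v ∈ Δ ∧
      ∀ i, v + b i ∈ Δ) (Z : ZGN ρ χ Δ z)
    (hgen : IntermediateField.adjoin M (Set.range χ) = ⊤) :
    IntermediateField.adjoin M (Set.range fun j => z j / z 0) = ⊤ := by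
  rw [eq_top_iff, ← hgen]
  rw [IntermediateField.adjoin_le_iff]
  obtain ⟨L, hL⟩ : ∃ L : IntermediateField M K,
    L = IntermediateField.adjoin M (Set.range fun j => z j / z 0) := ⟨_, rfl⟩
  rw [← hL]
  have h1 : ∀ u ∈ Submodule.span ℤ (Set.range z), u / z 0 ∈ L := by
    intro u hu
    induction hu using Submodule.span_induction with
    | mem x hx =>
      obtain ⟨i, rfl⟩ := hx
      rw [hL]
      exact IntermediateField.subset_adjoin _ _ ⟨i, rfl⟩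
    | zero => rw [zero_div]; exact L.zero_mem
    | add x y _ _ hx hy => rw [add_div]; exact L.add_mem hx hy
    | smul c x _ hx =>
      rw [zsmul_eq_mul, mul_div_assoc]
      exact L.mul_mem (intCast_mem L c) hx
  have h2 : ∀ x ∈ Δ, χ x / z 0 ∈ L := fun x hx =>
    h1 _ (Z.span (Submodule.subset_span ⟨x, hx, rfl⟩))
  obtain ⟨ι, _, v, b, hvm, hvb⟩ := bs
  have hv0 := chi_ne χ0 χa v
  have h3 : ∀ i, χ (b i) ∈ L := by
    intro i
    have h4 : χ (b i) = (χ (v + b i) / z 0) / (χ v / z 0) := by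
      have := Z.z0 0
      rw [χa]
      field_simp
    rw [h4]
    exact L.div_mem (h2 _ (hvb i)) (h2 _ hvm)
  rintro _ ⟨x, rfl⟩
  rw [← b.sum_repr x, chi_sum χ0 χa]
  refine prod_mem fun i _ => ?_
  rw [chi_zsmul χ0 χa]
  exact zpow_mem (h3 i) _

lemma ZGN.lin (S : TSN k O K G Λ ρ T χ Δ) (Z : ZGN ρ χ Δ z) (g : G) (j : Fin (m + 1)) :
    ρ g (z j) ∈ Submodule.span O (Set.range z) := by
  have h1 : ρ g (z j) ∈ Submodule.span ℤ (χ '' Δ) := by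
    have h2 := Z.zs j
    generalize z j = u at h2
    induction h2 using Submodule.span_induction with
    | mem x hx =>
      obtain ⟨m, hm, rfl⟩ := hx
      rw [S.act]
      exact Submodule.subset_span ⟨g • m, S.st g m hm, rfl⟩
    | zero => rw [map_zero]; exact Submodule.zero_mem _
    | add x y _ _ hx hy => rw [map_add]; exact Submodule.add_mem _ hx hy
    | smul c x _ hx =>
      rw [zsmul_eq_mul, map_mul, map_intCast, ← zsmul_eq_mul]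
      exact Submodule.smul_mem _ _ hx
  exact Submodule.span_subset_span ℤ O _ (Z.span h1)

lemma ZGN.hreg (S : TSN k O K G Λ ρ T χ Δ) (Z : ZGN ρ χ Δ z) (j : Fin (m + 1)) :
    IsRegularRing (Algebra.adjoin O (Set.range fun i => z i / z j)) := by
  rw [(Z.zw (T := T) (⊥ : Ideal O)).cg (TSN.sp _) (S.act _) (S.st _) j]
  exact CG0_regP S.χ0 S.χa S.fin' S.cr (Z.z0 j) (Z.zs j)

/-- **The models.** -/
theorem TSN.module [Finite G] [IsNoetherianRing k] (S : TSN k O K G Λ ρ T χ Δ)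
    (Z : ZGN ρ χ Δ z) {M Y : Type} [Field M] [Algebra M K] [Field Y] [Algebra k Y]
    (ι : Y →ₐ[k] K)
    (lo : ∀ o : O, ∃ x : M, algebraMap M K x = algebraMap O K o)
    (lf : ∀ x : M, ∃ a b : O, b ≠ 0 ∧ algebraMap M K x * algebraMap O K b = algebraMap O K a)
    (fixK : ∀ x, (∀ g, ρ g x = x) ↔ ∃ y, ι y = x)
    (hgen : IntermediateField.adjoin M (Set.range χ) = ⊤)
    (M₀ : Submodule k Y) (hM₀ : M₀.FG)
    (hseg : Submodule.span M (ι '' (M₀ : Set Y)) = Submodule.span M (χ '' Δ)) :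
    ∃ M' : Submodule k Y, M'.FG ∧ (∃ f ∈ M', f ≠ 0) ∧
      (∀ f ∈ M', f ≠ 0 → ∀ y : Y, ∃ b ∈ Pool.Agent.H918R2.Quad.chart k M' f,
        ∃ c ∈ Pool.Agent.H918R2.Quad.chart k M' f, c ≠ 0 ∧ y = b / c) ∧
      (∀ f ∈ M', f ≠ 0 → ∀ (q : Ideal (Pool.Agent.H918R2.Quad.chart k M' f)) [q.IsPrime],
        IsRegularLocalRing (Localization.AtPrime q)) ∧
      ∃ n : ℕ, 1 ≤ n ∧ (∀ y ∈ M', y ∈ sat (M₀ ^ n)) ∧
        ∀ y : Y, y ∈ M₀ ^ n → ∃ s : k, s ≠ 0 ∧ s • y ∈ M' := by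
  have hGH : GHN k O M Y K G Unit ι ρ T m (fun _ => z) := by
    refine
    { toGN := S.toGN
      lo := lo
      lf := lf
      fixK := fixK
      z0 := fun _ => Z.z0
      lin := fun g _ j => Z.lin S g j
      gen := ?_
      ld := ?_
      rg := ?_ }
    · rw [← Z.gen S.χ0 S.χa S.bs hgen]
      congr 1
      ext y
      constructor
      · rintro ⟨-, j, h⟩
        exact ⟨j, h.symm⟩
      · rintro ⟨j, h⟩
        exact ⟨(), j, h.symm⟩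
    · intro S' ω hω
      have hS : S' = ∅ := by
        rw [Finset.eq_empty_iff_forall_notMem]
        intro ω' h
        exact hω (by cases ω; cases ω'; exact h)
      subst hS
      have h1 : {y : K | ∃ ω' ∈ (∅ : Finset Unit), ∃ j, y = z j / z 0} = ∅ := by
        ext y
        constructor
        · rintro ⟨ω', h, -⟩
          exact absurd h (Finset.notMem_empty _)
        · intro h
          exact absurd h (Set.notMem_empty _)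
      rw [h1, IntermediateField.adjoin_empty, IntermediateField.bot_toSubalgebra]
      exact Subalgebra.LinearDisjoint.bot_left _
    · intro J
      have h1 : {y : K | ∃ (ω : Unit) (i : Fin (m + 1)), y = z i / z (J ω)} =
          Set.range fun i => z i / z (J ()) := by
        ext y
        constructor
        · rintro ⟨ω, i, h⟩
          exact ⟨i, h.symm⟩
        · rintro ⟨i, h⟩
          exact ⟨(), i, h.symm⟩
      rw [h1]
      exact Z.hreg S (J ())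
  obtain ⟨M', h1, h2, h3, h4, h5⟩ := all_LINWN k O M Y K G Unit ι ρ T m (fun _ => z) hGH (by
    intro Y₂ K₂ _ _ _ _ ι₂ εY ε ρ₂ hext s hs Tb N _ 𝔔 p l τ π hs0 hloc hw
    exact w_CHN all_CHW all_RWB Pool.Agent.Y614.H.RegL.t_REGL k O M Y Y₂ K K₂ G ι ι₂ εY ε ρ ρ₂
      hext T m z hGH (fun _ => 1) (wN ρ T χ Δ z) (S.data Z) s hs Tb N 𝔔 p l τ π hs0 hloc hw)
    M₀ hM₀ True (by
      intro _
      rw [hseg]
      have e1 : (Set.range fun J : Unit → Fin (m + 1) => ∏ ω : Unit, z (J ω)) = Set.range z := by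
        ext y
        constructor
        · rintro ⟨J, h⟩
          refine ⟨J (), ?_⟩
          simpa using h
        · rintro ⟨j, h⟩
          refine ⟨fun _ => j, ?_⟩
          simpa using h
      rw [e1, ← Submodule.span_span_of_tower ℤ M (χ '' Δ), ← Z.span',
        Submodule.span_span_of_tower])
  exact ⟨M', h1, h2, h3, h4, h5 trivial⟩

end

end Pool.Agent.T9h3.P
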