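import Pool.Agent.T9h3.P.Fin
import Pool.Agent.Y223.G.AllP

/-!
# The base: integral closures in Galois extensions
-/

set_option autoImplicit false
set_option linter.unusedSectionVars false

namespace Pool.Agent.T9h3.P

open Pool.Agent.Y223.G Pool.Agent.R383.TM Pool.Agent.T9h3 Pool.Agent.T9h3.H
open Pool.Agent.Y290.G (Ine mem_Ine)

section card

variable {k O G : Type} [CommRing k] [CommRing O] [IsDomain O] [IsDedekindDomain O] [Group G]
  [Finite G] [Algebra k O] {T : G →* (O ≃ₐ[k] O)}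

lemma T_iter (τ : G) (n : ℕ) (x : O) : (T τ)^[n] x = T (τ ^ n) x := by
  induction n with
  | zero => rw [pow_zero, map_one]; rfl
  | succ n ih => rw [Function.iterate_succ_apply', ih, pow_succ', map_mul]; rfl

lemma wildSub_le (𝔓 : Ideal O) : wildSub T 𝔓 ≤ Ine T 𝔓 := fun _ h => h.1

/-- The order of the wild inertia group. -/
theorem wildN_card (fai : ∀ g, (∀ o, T g o = o) → g = 1) (𝔓 : Ideal O) (h𝔓 : 𝔓.IsMaximal)
    (h0 : 𝔓 ≠ ⊥) (hfin : Finite (O ⧸ 𝔓)) {p : ℕ}
    (hp : p.Prime) (hp𝔓 : (p : O) ∈ 𝔓) (hin : ¬ p ^ 2 ∣ Nat.card (Ine T 𝔓)) :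
    Nat.card (wildSub T 𝔓) = 1 ∨ Nat.card (wildSub T 𝔓) = p := by
  have hpos : Nat.card (wildSub T 𝔓) ≠ 0 := Nat.card_pos.ne'
  have h1 : ∀ r : ℕ, r.Prime → r ∣ Nat.card (wildSub T 𝔓) → r = p := by
    intro r hr hrd
    by_contra hne
    have : Fact r.Prime := ⟨hr⟩
    obtain ⟨g, hg⟩ := exists_prime_orderOf_dvd_card' r hrd
    have hr𝔓 : (r : O) ∉ 𝔓 := by
      intro h
      have hcop : Nat.Coprime r p := (Nat.coprime_primes hr hp).2 hne
      have h2 : (1 : O) ∈ 𝔓 := by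
        have h3 : ((Nat.gcd r p : ℤ) : O) = (r : O) * ((Nat.gcdA r p : ℤ) : O) +
            (p : O) * ((Nat.gcdB r p : ℤ) : O) := by
          have := congrArg (Int.cast : ℤ → O) (Nat.gcd_eq_gcd_ab r p)
          push_cast at this ⊢
          exact this
        rw [hcop] at h3
        have h4 : (((1 : ℕ) : ℤ) : O) = 1 := by norm_num
        rw [h4] at h3
        rw [h3]
        exact 𝔓.add_mem (𝔓.mul_mem_right _ h) (𝔓.mul_mem_right _ hp𝔓)
      exact h𝔓.ne_top ((Ideal.eq_top_iff_one 𝔓).2 h2)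
    have h2 : (g : G) ^ r = 1 := by
      have h3 : g ^ r = 1 := by rw [← hg]; exact pow_orderOf_eq_one g
      exact congrArg Subtype.val h3
    have h3 : (g : G) = 1 := by
      apply fai
      refine Pool.Agent.Y223.G.all_TAMC O 𝔓 h𝔓 h0 hfin (T (g : G)).toRingEquiv r ?_ hr𝔓 g.2.1 g.2.2
      intro o
      change (T (g : G))^[r] o = o
      rw [T_iter, h2, map_one]
      rfl
    have h4 : g = 1 := Subtype.ext h3
    rw [h4, orderOf_one] at hg
    exact hr.one_lt.ne hg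
  have h2 : ¬ p ^ 2 ∣ Nat.card (wildSub T 𝔓) := fun h =>
    hin (h.trans (Subgroup.card_dvd_of_le (wildSub_le 𝔓)))
  by_cases h3 : p ∣ Nat.card (wildSub T 𝔓)
  · right
    obtain ⟨c, hc⟩ := h3
    by_cases hc1 : c = 1
    · rw [hc, hc1, mul_one]
    · exfalso
      obtain ⟨r, hr, hrc⟩ := Nat.exists_prime_and_dvd hc1
      have h4 := h1 r hr (hrc.trans ⟨p, by rw [hc, mul_comm]⟩)
      apply h2
      rw [hc, sq]
      rw [h4] at hrc
      exact Nat.mul_dvd_mul_left p hrc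
  · left
    by_contra hc1
    obtain ⟨r, hr, hrc⟩ := Nat.exists_prime_and_dvd hc1
    have h4 := h1 r hr hrc
    rw [h4] at hrc
    exact h3 hrc

/-- The wild inertia group is cyclic. -/
theorem inr_of (fai : ∀ g, (∀ o, T g o = o) → g = 1) (𝔓 : Ideal O) (h𝔓 : 𝔓.IsMaximal)
    (h0 : 𝔓 ≠ ⊥) (hfin : Finite (O ⧸ 𝔓)) {p : ℕ}
    (hp : p.Prime) (hp𝔓 : (p : O) ∈ 𝔓) (hin : ¬ p ^ 2 ∣ Nat.card (Ine T 𝔓)) :
    ∃ (p : ℕ) (τ : G), p.Prime ∧ τ ^ p = 1 ∧
    ∀ g, (∀ o, T g o - o ∈ 𝔓) → (∀ o ∈ 𝔓, T g o - o ∈ 𝔓 ^ 2) → g ∈ Subgroup.zpowers τ := by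
  rcases wildN_card fai 𝔓 h𝔓 h0 hfin hp hp𝔓 hin with h1 | h1
  · refine ⟨p, 1, hp, one_pow _, ?_⟩
    intro g hg hg2
    have h2 : wildSub T 𝔓 = ⊥ := Subgroup.card_eq_one.1 h1
    have h3 : g ∈ wildSub T 𝔓 := ⟨hg, hg2⟩
    rw [h2, Subgroup.mem_bot] at h3
    rw [h3]
    exact Subgroup.one_mem _
  · have hnt : Nontrivial (wildSub T 𝔓) := by
      rw [← Finite.one_lt_card_iff_nontrivial, h1]
      exact hp.one_lt
    obtain ⟨τ, hτ⟩ := exists_ne (1 : wildSub T 𝔓)
    refine ⟨p, τ, hp, ?_, ?_⟩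
    · have h2 : τ ^ Nat.card (wildSub T 𝔓) = 1 := pow_card_eq_one'
      rw [h1] at h2
      exact congrArg Subtype.val h2
    · intro g hg hg2
      have h2 : Nat.card (Subgroup.zpowers τ) = Nat.card (wildSub T 𝔓) := by
        rcases (Nat.dvd_prime hp).1 (h1 ▸ Subgroup.card_subgroup_dvd_card
          (Subgroup.zpowers τ)) with h2 | h2
        · exfalso
          apply hτ
          exact Subgroup.zpowers_eq_bot.1 (Subgroup.card_eq_one.1 h2)
        · rw [h2, h1]
      have h3 : Subgroup.zpowers τ = ⊤ := Subgroup.eq_top_of_card_eq _ h2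
      have h4 : (⟨g, hg, hg2⟩ : wildSub T 𝔓) ∈ Subgroup.zpowers τ := by rw [h3]; trivial
      obtain ⟨n, hn⟩ := h4
      exact ⟨n, congrArg Subtype.val hn⟩

end card

section base

variable (k O E M : Type) {K : Type} [CommRing k] [IsDomain k] [IsDedekindDomain k] [Field E]
  [Algebra k E] [IsFractionRing k E] [Field M] [Algebra E M] [FiniteDimensional E M]
  [IsGalois E M] [CommRing O] [IsDomain O] [IsDedekindDomain O] [Algebra k O] [Algebra O M]
  [Algebra k M] [IsScalarTower k O M] [IsScalarTower k E M] [IsIntegralClosure O k M] [Field K]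
  [Algebra M K] [Algebra E K] [IsScalarTower E M K] [Algebra k K] [IsScalarTower k E K]
  [Algebra O K] [IsScalarTower O M K] [IsScalarTower k O K]

/-- The action of the Galois group. -/
noncomputable def Tk : (M ≃ₐ[E] M) →* (O ≃ₐ[k] O) := (galRestrict k E M O).toMonoidHom

lemma Tk_coe (g : M ≃ₐ[E] M) (o : O) : algebraMap O M (Tk k O E M g o) = g (algebraMap O M o) :=
  algebraMap_galRestrict_apply k g o

/-- Restriction of scalars. -/
noncomputable def Rk {E K : Type} (k : Type) [CommRing k] [Field E] [Algebra k E] [Field K]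
    [Algebra E K] [Algebra k K] [IsScalarTower k E K] {G : Type} [Group G]
    (ρ : G →* (K ≃ₐ[E] K)) : G →* (K ≃ₐ[k] K) where
  toFun g := (ρ g).restrictScalars k
  map_one' := by
    rw [map_one]
    rfl
  map_mul' g h := by
    rw [map_mul]
    rfl

lemma Rk_apply {E K : Type} (k : Type) [CommRing k] [Field E] [Algebra k E] [Field K]
    [Algebra E K] [Algebra k K] [IsScalarTower k E K] {G : Type} [Group G]
    (ρ : G →* (K ≃ₐ[E] K)) (g : G) (x : K) : Rk k ρ g x = ρ g x := rfl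

/-- **The base.** -/
theorem gn_of (ρ : (M ≃ₐ[E] M) →* (K ≃ₐ[E] K))
    (hρ : ∀ g x, ρ g (algebraMap M K x) = algebraMap M K (g x))
    (resf : ∀ 𝔓 : Ideal O, 𝔓.IsMaximal → 𝔓 ≠ ⊥ → Finite (O ⧸ 𝔓)) {p : ℕ} (hp : p.Prime)
    (hp0 : (p : O) = 0)
    (hin : ∀ 𝔓 : Ideal O, 𝔓.IsMaximal → 𝔓 ≠ ⊥ → ¬ p ^ 2 ∣ Nat.card (Ine (Tk k O E M) 𝔓)) :
    GN k O K (M ≃ₐ[E] M) (Rk k ρ) (Tk k O E M) := by
  have hOM : Function.Injective (algebraMap O M) := IsIntegralClosure.algebraMap_injective O k M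
  have hkE : Function.Injective (algebraMap k E) := IsFractionRing.injective k E
  have fai : ∀ g, (∀ o, Tk k O E M g o = o) → g = 1 := by
    intro g hg
    have h1 : Tk k O E M g = Tk k O E M 1 := by
      rw [map_one]
      ext o
      exact hg o
    exact (galRestrict k E M O).injective h1
  refine
  { fin := IsIntegralClosure.finite k E M O
    inj := ?_
    injk := ?_
    com := ?_
    fai := fai
    fix := ?_
    resf := resf
    inr := fun 𝔓 h𝔓 h0 => inr_of fai 𝔓 h𝔓 h0 (resf 𝔓 h𝔓 h0) hp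
      (by rw [hp0]; exact 𝔓.zero_mem) (hin 𝔓 h𝔓 h0) }
  · rw [IsScalarTower.algebraMap_eq O M K]
    exact (algebraMap M K).injective.comp hOM
  · rw [IsScalarTower.algebraMap_eq k E K]
    exact (algebraMap E K).injective.comp hkE
  · intro g o
    rw [Rk_apply, IsScalarTower.algebraMap_apply O M K, hρ, ← Tk_coe k O E M,
      ← IsScalarTower.algebraMap_apply]
  · intro o ho
    have h1 : algebraMap O M o ∈ (⊥ : IntermediateField E M) := by
      rw [IsGalois.mem_bot_iff_fixed]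
      intro g
      rw [← Tk_coe k O E M, ho]
    obtain ⟨e, he⟩ := IntermediateField.mem_bot.1 h1
    have hint : IsIntegral k e := by
      have h1 : IsIntegral k (algebraMap E M e) := by
        rw [he]
        exact IsIntegralClosure.isIntegral k M o |>.map (IsScalarTower.toAlgHom k O M)
      exact (isIntegral_algHom_iff (IsScalarTower.toAlgHom k E M) (algebraMap E M).injective).1 h1
    obtain ⟨c, hc⟩ := (IsIntegrallyClosed.isIntegral_iff (R := k) (K := E)).1 hint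
    refine ⟨c, ?_⟩
    apply hOM
    rw [← IsScalarTower.algebraMap_apply, IsScalarTower.algebraMap_apply k E M, hc, he]

end base

end Pool.Agent.T9h3.P
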