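import Pool.Agent.T9h3.P.Bas
import Mathlib.LinearAlgebra.LinearIndependent.Lemmas

/-!
# Galois descent
-/

set_option autoImplicit false
set_option linter.unusedSectionVars false

namespace Pool.Agent.T9h3.P

section

variable {E M F K Λ : Type} [Field E] [Field M] [Field F] [Field K] [Algebra E M]
  [FiniteDimensional E M] [Algebra M K] [Algebra E K] [IsScalarTower E M K]
  [AddCommGroup Λ] [DistribMulAction (M ≃ₐ[E] M) Λ] {χ : Λ → K} {Δ : Set Λ}

/-- Independence of the automorphisms. -/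
lemma aut_indep (c : (M ≃ₐ[E] M) → M)
    (h : ∀ a : M, ∑ g : M ≃ₐ[E] M, g a * c g = 0) (g : M ≃ₐ[E] M) : c g = 0 := by
  have h1 := linearIndependent_monoidHom M M
  have hinj : Function.Injective (fun g : M ≃ₐ[E] M => ((g : M →+* M) : M →* M)) := by
    intro g g' hg
    ext x
    exact congrFun (congrArg DFunLike.coe hg) x
  have h2 := h1.comp _ hinj
  rw [Fintype.linearIndependent_iff] at h2
  apply h2 c
  funext a
  rw [Finset.sum_apply]
  simp only [Pi.smul_apply, Pi.zero_apply, smul_eq_mul]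
  rw [← h a]
  refine Finset.sum_congr rfl fun g _ => ?_
  rw [mul_comm]
  rfl

/-- **Galois descent of the span of the characters.** -/
theorem exists_desc (ρ : (M ≃ₐ[E] M) →* (K ≃ₐ[E] K))
    (hρ : ∀ g x, ρ g (algebraMap M K x) = algebraMap M K (g x))
    (act : ∀ g x, ρ g (χ x) = χ (g • x)) (ι : F → K) (hι : Function.Injective ι)
    (fix : ∀ y, (∀ g, ρ g y = y) ↔ ∃ z : F, ι z = y) (fin : Δ.Finite)
    (st : ∀ g : M ≃ₐ[E] M, ∀ x ∈ Δ, g • x ∈ Δ) :
    ∃ S : Set F, S.Finite ∧ Submodule.span M (ι '' S) = Submodule.span M (χ '' Δ) := by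
  classical
  obtain ⟨V, hV⟩ : ∃ V, V = Submodule.span M (χ '' Δ) := ⟨_, rfl⟩
  have hVfg : V.FG := by
    rw [hV]
    exact Submodule.fg_span (fin.image χ)
  have h1 : Submodule.span M (ι '' {w | ι w ∈ V}) = V := by
    apply le_antisymm
    · rw [Submodule.span_le]
      rintro _ ⟨w, hw, rfl⟩
      exact hw
    · conv_lhs => rw [hV]
      rw [Submodule.span_le]
      rintro _ ⟨x, hx, rfl⟩
      by_contra hcon
      obtain ⟨f, hf1, hf2⟩ := Submodule.exists_le_ker_of_notMem hcon
      apply hf1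
      have h2 := aut_indep (E := E) (fun g => f (χ (g • x))) (fun a => ?_) 1
      · rw [one_smul] at h2
        exact h2
      · have h3 : ∃ w : F, ι w = ∑ g : M ≃ₐ[E] M, algebraMap M K (g a) * χ (g • x) := by
          rw [← fix]
          intro g'
          rw [map_sum]
          simp only [map_mul, hρ, act]
          refine Fintype.sum_equiv (Equiv.mulLeft g') _ _ fun g => ?_
          rw [Equiv.coe_mulLeft, smul_smul, AlgEquiv.mul_apply]
        obtain ⟨w, hw⟩ := h3
        have h4 : ι w ∈ V := by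
          rw [hw, hV]
          refine Submodule.sum_mem _ fun g _ => ?_
          rw [← Algebra.smul_def]
          exact Submodule.smul_mem _ _ (Submodule.subset_span ⟨_, st g x hx, rfl⟩)
        have h5 : f (ι w) = 0 := hf2 (Submodule.subset_span ⟨w, h4, rfl⟩)
        rw [hw, map_sum] at h5
        rw [← h5]
        refine Finset.sum_congr rfl fun g _ => ?_
        rw [← Algebra.smul_def, map_smul, smul_eq_mul]
  obtain ⟨S', hS'⟩ := (Submodule.fg_span_iff_fg_span_finset_subset (R := M)
    (ι '' {w | ι w ∈ V})).1 (by rw [h1]; exact hVfg)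
  obtain ⟨hS1, hS2⟩ := hS'
  rw [h1] at hS2
  have h2 : ι '' (ι ⁻¹' (S' : Set K)) = S' := by
    rw [Set.image_preimage_eq_iff]
    intro x hx
    obtain ⟨w, -, hw⟩ := hS1 hx
    exact ⟨w, hw⟩
  refine ⟨ι ⁻¹' (S' : Set K), S'.finite_toSet.preimage hι.injOn, ?_⟩
  rw [h2, ← hS2, hV]

end

end Pool.Agent.T9h3.P
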