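import Pool.Agent.T9h3.P.Cht
import Pool.Agent.T9h3.P.Dsc

/-!
# Subvarieties of tori over the charts of the projective line
-/

set_option autoImplicit false
set_option linter.unusedSectionVars false

namespace Pool.Agent.T9h3.P

open Polynomial Pool.Agent.Y223.G Pool.Agent.R383.TM Pool.Agent.T9h3 Pool.Agent.T9h3.H
open Pool.Agent.Y290.G (Ine mem_Ine)

/-- The order of the wild elements. -/
lemma ord_eq {k O K G : Type} [CommRing k] [IsDomain k] [CommRing O] [IsDomain O]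
    [IsDedekindDomain O] [Field K] [Group G] [Finite G] [Algebra k O] [Algebra O K] [Algebra k K]
    [IsScalarTower k O K] {ρ : G →* (K ≃ₐ[k] K)} {T : G →* (O ≃ₐ[k] O)} (hG : GN k O K G ρ T)
    {p : ℕ} (hp : p.Prime) (hp0 : (p : O) = 0) {𝔓 : Ideal O} (h𝔓 : 𝔓.IsMaximal) {g : G}
    (hg : IW T 𝔓 g) : orderOf g = p := by
  obtain ⟨h1, h2⟩ := wildN hG h𝔓 hg
  by_contra hne
  have hcop : Nat.Coprime (orderOf g) p := (Nat.coprime_primes h1 hp).2 hne
  have h3 : (1 : O) ∈ 𝔓 := by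
    have h4 : ((Nat.gcd (orderOf g) p : ℤ) : O) =
        (orderOf g : O) * ((Nat.gcdA (orderOf g) p : ℤ) : O) +
        (p : O) * ((Nat.gcdB (orderOf g) p : ℤ) : O) := by
      have := congrArg (Int.cast : ℤ → O) (Nat.gcd_eq_gcd_ab (orderOf g) p)
      push_cast at this ⊢
      exact this
    rw [hcop] at h4
    have h5 : (((1 : ℕ) : ℤ) : O) = 1 := by norm_num
    rw [h5, hp0, zero_mul, add_zero] at h4
    rw [h4]
    exact 𝔓.mul_mem_right _ h2
  exact h𝔓.ne_top ((Ideal.eq_top_iff_one 𝔓).2 h3)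

/-- The good modules over a chart. -/
def GCH {κ E F : Type} [Field κ] [Field E] [Field F] [Algebra κ E] [Algebra E F] [Algebra κ F]
    [IsScalarTower κ E F] (s : E) (W : Submodule E F) : Prop :=
  ∃ n : ℕ, 1 ≤ n ∧ ∀ m : ℕ, 1 ≤ m → ∃ N : Submodule κ F, CHT s N (W ^ (n * m)) ∧
    RCH (N : Set F) ∧ QCH (N : Set F) ∧ ∃ x ∈ N, x ≠ 0

/-- **The gluing.** -/
theorem hasModule_of_GCH {κ E F : Type} [Field κ] [Field E] [Field F] [Algebra κ E] [Algebra E F]
    [Algebra κ F] [IsScalarTower κ E F] {t : E} (ht : t ≠ 0) {W : Submodule E F}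
    (h0 : GCH (κ := κ) t W) (h1 : GCH (κ := κ) t⁻¹ W) :
    Pool.Agent.H918R2.Quad.HasModule κ F := by
  obtain ⟨n₀, hn₀, h0⟩ := h0
  obtain ⟨n₁, hn₁, h1⟩ := h1
  obtain ⟨N₀, hc0, hr0, hq0, hne⟩ := h0 n₁ hn₁
  obtain ⟨N₁, hc1, hr1, -, -⟩ := h1 n₀ hn₀
  rw [mul_comm] at hc1
  exact hasModule_of_GL1 (GL1_of ht hc0 hc1) hne hr0 hq0 hr1

section

variable {κ A k O E M F K Λ : Type} [Field κ] [CommRing A] [IsDomain A] [CommRing k] [IsDomain k]
  [IsDedekindDomain k] [Field E] [Field M] [Field F] [Field K] [CommRing O] [IsDomain O]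
  [IsDedekindDomain O]
  [Algebra κ E] [Algebra E F] [Algebra κ F] [IsScalarTower κ E F]
  [Algebra A k] [Algebra k E] [Algebra k F] [IsScalarTower k E F]
  [Algebra A F] [IsScalarTower A k F] [IsFractionRing k E] [Module.Finite A k] [Algebra κ k]
  [IsScalarTower κ k F]
  [Algebra E M] [FiniteDimensional E M] [IsGalois E M] [Algebra k O] [Algebra O M]
  [Algebra k M] [IsScalarTower k O M] [IsScalarTower k E M] [IsIntegralClosure O k M]
  [Algebra M K] [Algebra E K] [IsScalarTower E M K] [Algebra k K] [IsScalarTower k E K]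
  [Algebra O K] [IsScalarTower O M K] [IsScalarTower k O K] [Algebra F K] [IsScalarTower E F K]
  [IsScalarTower k F K]
  [AddCommGroup Λ] [Module.Free ℤ Λ] [Module.Finite ℤ Λ] [DistribMulAction (M ≃ₐ[E] M) Λ]
  {χ : Λ → K} {Δ : Set Λ} {c : ℕ} {f : Fin c → AA O Λ}

/-- **The charts.** -/
theorem gch_of {s : E} (hs : ∃ a : A, algebraMap A F a = algebraMap E F s)
    (hA : ∀ a : A, ∃ P : κ[X], algebraMap A F a = aeval (algebraMap E F s) P)
    (hinj : Function.Injective (algebraMap A F))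
    (ρ : (M ≃ₐ[E] M) →* (K ≃ₐ[E] K))
    (hρ : ∀ g x, ρ g (algebraMap M K x) = algebraMap M K (g x))
    (resf : ∀ 𝔓 : Ideal O, 𝔓.IsMaximal → 𝔓 ≠ ⊥ → Finite (O ⧸ 𝔓)) {p : ℕ} (hp : p.Prime)
    (hp0 : (p : O) = 0)
    (hin : ∀ 𝔓 : Ideal O, 𝔓.IsMaximal → 𝔓 ≠ ⊥ → ¬ p ^ 2 ∣ Nat.card (Ine (Tk k O E M) 𝔓))
    (χ0 : χ 0 = 1) (χa : ∀ x y, χ (x + y) = χ x * χ y) (act : ∀ g x, ρ g (χ x) = χ (g • x))
    (hk : ∀ P : AddMonoidAlgebra M Λ, (P.coeff.sum fun x a => algebraMap M K a * χ x) = 0 ↔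
      P ∈ Ideal.span (Set.range fun r => AddMonoidAlgebra.mapRingHom Λ (algebraMap O M) (f r)))
    (hgen : IntermediateField.adjoin M (Set.range χ) = ⊤)
    (fix : ∀ y, (∀ g, ρ g y = y) ↔ ∃ z : F, algebraMap F K z = y)
    (hRG : RG f)
    (hW : ∀ (𝔓 : Ideal O) (g : M ≃ₐ[E] M), 𝔓.IsMaximal → orderOf g = p →
      (∀ o, Tk k O E M g o - o ∈ 𝔓) → WD (sA Λ g) 𝔓 f)
    {Θ : Set Λ} (hΘ : DF f Θ) (fin : Δ.Finite) (ne : Δ.Nonempty)
    (st : ∀ g : M ≃ₐ[E] M, ∀ x ∈ Δ, g • x ∈ Δ)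
    (h : ∀ g : M ≃ₐ[E] M, CVP (SVR (orderOf g) (sA Λ g) Θ Δ) Δ)
    {S : Set F} (hSf : S.Finite)
    (hS : Submodule.span M (algebraMap F K '' S) = Submodule.span M (χ '' Δ)) :
    GCH (κ := κ) s (Submodule.span E S) := by
  have hfr : IsFractionRing O M := IsIntegralClosure.isFractionRing_of_finite_extension k E M O
  have hG := gn_of k O E M ρ hρ resf hp hp0 hin
  obtain ⟨φ, hφ⟩ := exists_ev (K := K) O χ0 χa
  have hH := HK_of (M := M) hφ χ0 χa hk
  have hT : TSN k O K (M ≃ₐ[E] M) Λ (Rk k ρ) (Tk k O E M) χ Δ :=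
    tsn_of hG χ0 χa act hφ hH hRG (fun 𝔓 g h𝔓 hg => hW 𝔓 g h𝔓 (ord_eq hG hp hp0 h𝔓 hg) hg.2.1)
      hΘ fin ne st h
  obtain ⟨m, z, Z⟩ := exists_zN (ρ := Rk k ρ) χ0 χa act fin st ne
  obtain ⟨M', h1, h2, h3, h4, n, hn, h5, h6⟩ := hT.module Z (M := M) (Y := F)
    (IsScalarTower.toAlgHom k F K) (fun o => ⟨algebraMap O M o, by
      rw [← IsScalarTower.algebraMap_apply]⟩) (fun x => by
      obtain ⟨a, b, hb, rfl⟩ := IsFractionRing.div_surjective (A := O) x
      have hb0 : b ≠ 0 := nonZeroDivisors.ne_zero hb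
      have hb1 : algebraMap O M b ≠ 0 := fun h => hb0 (IsFractionRing.injective O M (by
        rw [h, map_zero]))
      refine ⟨a, b, hb0, ?_⟩
      rw [IsScalarTower.algebraMap_apply O M K b, IsScalarTower.algebraMap_apply O M K a, ← map_mul,
        div_mul_cancel₀ _ hb1]) fix hgen (Submodule.span k S) (Submodule.fg_span hSf) (by
      rw [← hS]
      apply le_antisymm
      · rw [Submodule.span_le]
        rintro _ ⟨y, hy, rfl⟩
        have hy' : y ∈ Submodule.span k S := hy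
        clear hy
        change algebraMap F K y ∈ Submodule.span M (algebraMap F K '' S)
        induction hy' using Submodule.span_induction with
        | mem y hy => exact Submodule.subset_span ⟨y, hy, rfl⟩
        | zero => rw [map_zero]; exact Submodule.zero_mem _
        | add x y _ _ hx hy => rw [map_add]; exact Submodule.add_mem _ hx hy
        | smul a x _ hx =>
          have e1 : algebraMap F K (a • x) = algebraMap k M a • algebraMap F K x := by
            rw [Algebra.smul_def, map_mul, ← IsScalarTower.algebraMap_apply, Algebra.smul_def,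
              IsScalarTower.algebraMap_apply k E K, IsScalarTower.algebraMap_apply k E M,
              ← IsScalarTower.algebraMap_apply E M K]
          rw [e1]
          exact Submodule.smul_mem _ _ hx
      · apply Submodule.span_mono
        rintro _ ⟨y, hy, rfl⟩
        exact ⟨y, Submodule.subset_span hy, rfl⟩)
  refine ⟨n, hn, fun m hm => ⟨(M' ^ m).restrictScalars κ, ?_, ?_, ?_, ?_⟩⟩
  · have e1 : SPN M' (Submodule.span E S ^ n) :=
      SPN.sat ((SPN.span (k := k) S).pow n) h5 h6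
    rw [pow_mul]
    exact cht_of (A := A) hs hA hinj (h1.pow m) (e1.pow m)
  · exact RCH_pow hm ((RCH_iff M').2 h4)
  · exact QCH_pow hm h2 ((QCH_iff M').2 h3)
  · obtain ⟨f, hf, hf0⟩ := h2
    exact ⟨f ^ m, Submodule.pow_mem_pow _ hf m, pow_ne_zero _ hf0⟩

end

end Pool.Agent.T9h3.P
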