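import Pool.Agent.T9h3.P.Spn

/-!
# Charts over the projective line from modules over the base
-/

set_option autoImplicit false
set_option linter.unusedSectionVars false

namespace Pool.Agent.T9h3.P

open Polynomial Pool.Agent.Y223.G

variable {κ A k E F : Type} [Field κ] [CommRing A] [IsDomain A] [CommRing k] [IsDomain k]
  [Field E] [Field F] [Algebra κ E] [Algebra E F] [Algebra κ F]
  [IsScalarTower κ E F] [Algebra A k] [Algebra k E] [Algebra k F] [IsScalarTower k E F]
  [Algebra A F] [IsScalarTower A k F] [IsFractionRing k E] [Module.Finite A k] [Algebra κ k]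
  [IsScalarTower κ k F]

/-- Charts. -/
theorem cht_of {s : E} (hs : ∃ a : A, algebraMap A F a = algebraMap E F s)
    (hA : ∀ a : A, ∃ P : κ[X], algebraMap A F a = aeval (algebraMap E F s) P)
    (hinj : Function.Injective (algebraMap A F)) {N : Submodule k F} {W : Submodule E F}
    (hN : N.FG) (h : SPN N W) : CHT s (N.restrictScalars κ) W := by
  classical
  have hAk : Function.Injective (algebraMap A k) := by
    rw [IsScalarTower.algebraMap_eq A k F, RingHom.coe_comp] at hinj
    exact hinj.of_comp
  have hNA : (N.restrictScalars A).FG := by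
    have h1 : Module.Finite k N := Module.Finite.iff_fg.2 hN
    have h2 : Module.Finite A N := Module.Finite.trans k N
    exact Module.Finite.iff_fg.1 (show Module.Finite A (N.restrictScalars A) from h2)
  refine ⟨fun x hx => ?_, ?_, h.sub, fun x hx => ?_⟩
  · obtain ⟨a, ha⟩ := hs
    rw [← ha, IsScalarTower.algebraMap_apply A k F, ← Algebra.smul_def]
    exact N.smul_mem _ hx
  · obtain ⟨S, hS⟩ := hNA
    refine ⟨S, fun x hx => ?_, ?_⟩
    · have h1 : x ∈ N.restrictScalars A := by
        rw [← hS]
        exact Submodule.subset_span hx
      exact h1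
    · intro x hx
      have h1 : x ∈ Submodule.span A (S : Set F) := by
        rw [hS]
        exact hx
      clear hx
      induction h1 using Submodule.span_induction with
      | mem x hx => exact Submodule.subset_span ⟨0, x, hx, by rw [pow_zero, one_mul]⟩
      | zero => exact Submodule.zero_mem _
      | add x y _ _ hx hy => exact Submodule.add_mem _ hx hy
      | smul a x _ hx =>
        obtain ⟨P, hP⟩ := hA a
        rw [Algebra.smul_def, hP]
        refine poly_mem (fun y hy => ?_) P hx
        induction hy using Submodule.span_induction with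
        | mem y hy =>
          obtain ⟨i, z, hz, rfl⟩ := hy
          exact Submodule.subset_span ⟨i + 1, z, hz, by ring⟩
        | zero => rw [mul_zero]; exact Submodule.zero_mem _
        | add x y _ _ hx hy => rw [mul_add]; exact Submodule.add_mem _ hx hy
        | smul c y _ hy => rw [mul_smul_comm]; exact Submodule.smul_mem _ _ hy
  · obtain ⟨d, hd, hdx⟩ := h.den x hx
    have hint : IsIntegral A d := IsIntegral.of_finite A d
    obtain ⟨a, ha, e, he⟩ := hint.isAlgebraic.exists_nonzero_dvd (mem_nonZeroDivisors_of_ne_zero hd)
    obtain ⟨P, hP⟩ := hA a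
    refine ⟨P, ?_, ?_⟩
    · rintro rfl
      rw [map_zero] at hP
      exact ha (hinj (by rw [hP, map_zero]))
    · rw [← hP, IsScalarTower.algebraMap_apply A k F, ← Algebra.smul_def, he, mul_comm d e,
        mul_smul]
      exact N.smul_mem _ hdx

end Pool.Agent.T9h3.P
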