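import Pool.Agent.T9h3.P.Asm
import Pool.Agent.T9h3.H.Fin
import Pool.Agent.T9h3.H.End

/-!
# Complete intersections in tori over Dedekind domains: the data
-/

set_option autoImplicit false
set_option linter.unusedSectionVars false

namespace Pool.Agent.T9h3.P

open Pool.Agent.Y223.G Pool.Agent.R383.TM Pool.Agent.T9h3 Pool.Agent.T9h3.H

/-- The differences of the exponents. -/
theorem exists_DFN {O Λ : Type} [CommRing O] [AddCommGroup Λ] {c : ℕ} (F : Fin c → AA O Λ) :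
    ∃ Θ : Finset Λ, DF F (Θ : Set Λ) := by
  classical
  refine ⟨Finset.univ.biUnion fun r => ((F r).coeff.support ×ˢ (F r).coeff.support).image
    fun x : Λ × Λ => x.1 - x.2, fun r x hx y hy => ?_⟩
  rw [Finset.mem_coe, Finset.mem_biUnion]
  exact ⟨r, Finset.mem_univ _, Finset.mem_image.2 ⟨(x, y), Finset.mem_product.2 ⟨hx, hy⟩, rfl⟩⟩

lemma DF_mono {O Λ : Type} [CommRing O] [AddCommGroup Λ] {c : ℕ} {F : Fin c → AA O Λ}
    {Θ Θ' : Set Λ} (h : DF F Θ) (hΘ : Θ ⊆ Θ') : DF F Θ' :=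
  fun r x hx y hy => hΘ (h r x hx y hy)

/-- The polytope. -/
theorem exists_polyN (G Λ : Type) [Group G] [Finite G] [AddCommGroup Λ] [DistribMulAction G Λ]
    [Module.Free ℤ Λ] [Module.Finite ℤ Λ] (Θ : Finset Λ) :
    ∃ Δ : Set Λ, Δ.Finite ∧ Δ.Nonempty ∧ (∀ g : G, ∀ x ∈ Δ, g • x ∈ Δ) ∧
      ∀ g : G, CVP (SVR (orderOf g) (sA Λ g) (Θ : Set Λ) Δ) Δ := by
  obtain ⟨Δ, fin, ne, st, cv⟩ := exists_smoothP G Λ Θ
  obtain ⟨k, hk, h⟩ := exists_richP (Θ : Set Λ) fin cv (fun g : G => orderOf g)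
    (fun g => sA Λ g)
  refine ⟨MS Δ k, MS_fin fin k, ?_, fun g => MS_st (s := sA Λ g) (st g) k, h⟩
  obtain ⟨v, hv⟩ := ne
  exact ⟨_, MS_nsmul hv k⟩

section

variable {k O K G Λ : Type} [CommRing k] [IsDomain k] [CommRing O] [IsDomain O]
  [IsDedekindDomain O] [Field K] [Group G] [Finite G] [Algebra k O] [Algebra O K] [Algebra k K]
  [IsScalarTower k O K] [AddCommGroup Λ] [DistribMulAction G Λ] [Module.Free ℤ Λ]
  [Module.Finite ℤ Λ] {ρ : G →* (K ≃ₐ[k] K)} {T : G →* (O ≃ₐ[k] O)} {χ : Λ → K}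
  {Δ : Set Λ} {φ : AA O Λ →ₐ[O] K} {c : ℕ} {F : Fin c → AA O Λ}

/-- The evaluation. -/
lemma EV_ofN (com : ∀ g o, ρ g (algebraMap O K o) = algebraMap O K (T g o))
    (act : ∀ g x, ρ g (χ x) = χ (g • x)) (hφ : ∀ x, φ (cx O x) = χ x) (g : G) :
    EV φ χ (rg ρ g) (tg T g) (sA Λ g) := by
  refine ⟨hφ, fun f => ?_⟩
  induction f using AA_ind with
  | h0 => rw [map_zero, map_zero, map_zero, map_zero]
  | hadd f g hf hg => rw [map_add, map_add, map_add, map_add, hf, hg]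
  | hs o x =>
    rw [map_mul, map_mul, map_mul, sg_C, sg_cx, map_mul, AlgHom.commutes, AlgHom.commutes, hφ, hφ,
      rg_apply, rg_apply, act]
    congr 1
    exact com g o

/-- **The data of a nondegenerate complete intersection.** -/
theorem tsn_of (hG : GN k O K G ρ T) (χ0 : χ 0 = 1) (χa : ∀ x y, χ (x + y) = χ x * χ y)
    (act : ∀ g x, ρ g (χ x) = χ (g • x)) (hφ : ∀ x, φ (cx O x) = χ x) (H : HK φ F)
    (hRG : RG F) (hW : ∀ (𝔓 : Ideal O) (g : G), 𝔓.IsMaximal → IW T 𝔓 g → WD (sA Λ g) 𝔓 F)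
    {Θ : Set Λ} (hΘ : DF F Θ) (fin : Δ.Finite) (ne : Δ.Nonempty)
    (st : ∀ g : G, ∀ x ∈ Δ, g • x ∈ Δ)
    (h : ∀ g : G, CVP (SVR (orderOf g) (sA Λ g) Θ Δ) Δ) : TSN k O K G Λ ρ T χ Δ := by
  classical
  have hF0 : ∀ r, F r ≠ 0 := by
    intro r hr
    have hQ : (RingHom.ker φ.toRingHom).IsPrime := RingHom.ker_isPrime φ.toRingHom
    have h1 := hRG 0 (RingHom.ker φ.toRingHom) hQ (fun r => by
      rw [ini_zero, RingHom.mem_ker]
      exact H.z r) (fun r' => if r' = r then 1 else 0) (by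
      have h2 : ∑ r', (if r' = r then (1 : AA O Λ) else 0) * ini 0 (F r') = 0 := by
        refine Finset.sum_eq_zero fun r' _ => ?_
        split_ifs with h
        · rw [ini_zero, h, hr, mul_zero]
        · rw [zero_mul]
      rw [h2]
      exact Ideal.zero_mem _) r
    rw [if_pos rfl] at h1
    exact hQ.ne_top ((Ideal.eq_top_iff_one _).2 h1)
  -- the charts are regular
  have hC : ∀ {ι : Type} [Fintype ι] (v : Λ) (b : Module.Basis ι ℤ Λ), CD Δ v b →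
      (∀ φ ∈ Θ, CMP b φ) → IsRegularRing (CG0 O χ Δ (χ v)) := by
    intro ι _ v b hc hb
    obtain ⟨u, hu⟩ := exists_MN hΘ hF0 hb
    have hinj : Function.Injective (eA (O := O) b) := by
      obtain ⟨𝕂, _, _, φ0, χ0', σ0, e0, h0⟩ := exists_amb (O := O) (Λ := Λ) b
        (t := RingHom.id _) Function.injective_id (s := 1) Function.injective_id
      have h1 : LinearIndependent O (φ0.toLinearMap ∘ (cx O : Λ → AA O Λ)) :=
        cx_lin.map' φ0.toLinearMap (LinearMap.ker_eq_bot.2 h0)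
      have h2 : (φ0.toLinearMap ∘ (cx O : Λ → AA O Λ)) = χ0' := by
        funext x
        exact e0.c x
      rw [h2] at h1
      have h3 := ev_inj e0.χ0 e0.χa h1 b
      intro f g hfg
      apply h3
      rw [ev_eA e0.c, ev_eA e0.c, hfg]
    exact CG0_regH hφ χ0 χa hinj H hc hu hRG
  refine
  { toGN := hG
    χ0 := χ0
    χa := χa
    act := act
    fin' := fin
    st := st
    ne := ne
    tf := ?_
    bs := ?_
    cr := ?_
    vf := ?_ }
  · intro n hn x hx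
    rcases smul_eq_zero.1 hx with h1 | h1
    · exact absurd (by exact_mod_cast h1) hn
    · exact h1
  · obtain ⟨v, hv⟩ := ne
    obtain ⟨S, hS0, hS, -⟩ := h 1 _ hv
    obtain ⟨v', hv'⟩ := Multiset.exists_mem_of_ne_zero hS0
    obtain ⟨ι, hι, b, hc, -, -⟩ := hS v' hv'
    exact ⟨ι, hι, v', b, hc.vm, hc.nb⟩
  · intro m hm
    obtain ⟨S, h1, h2, h3⟩ := h 1 m hm
    refine ⟨S, h1, fun v hv => ?_, h3⟩
    obtain ⟨ι, hι, b, hc, -, hb⟩ := h2 v hv
    exact ⟨hc.vm, hC v b hc hb⟩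
  · intro 𝔓 g l h𝔓 hg t m hm
    obtain ⟨S, h1, h2, h3⟩ := h g m hm
    refine ⟨S, h1, fun v hv => ?_, h3⟩
    obtain ⟨ι, hι, b, hc, hR, hb⟩ := h2 v hv
    obtain ⟨u, hu⟩ := exists_MN hΘ hF0 hb
    have hti : Function.Injective (tg T g) := (T g).injective
    obtain ⟨𝕂, _, _, φ0, χ0', σ0, e0, h0⟩ := exists_amb (O := O) (Λ := Λ) b hti
      (pow_inj t.pp.ne_zero t.sp)
    exact VF_H e0 h0 (t.amb e0 h0) (EV_ofN hG.com act hφ g) H hc (st g) fin hR hu (hW 𝔓 g h𝔓 hg)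
      (hC v b hc hb)

/-- The elements of the wild inertia groups have the order of the residue characteristic. -/
theorem wildN (hG : GN k O K G ρ T) {𝔓 : Ideal O} (h𝔓 : 𝔓.IsMaximal)
    {g : G} (hg : IW T 𝔓 g) : (orderOf g).Prime ∧ ((orderOf g : ℕ) : O) ∈ 𝔓 := by
  obtain ⟨hp, -⟩ := hG.cyc h𝔓 hg
  refine ⟨hp, ?_⟩
  obtain ⟨l, h1, h2, h3, h4⟩ := ram1E t_RAM1 hG hp
    (pow_orderOf_eq_one g) hg.1 h𝔓 (IW_ne hG hg) hg.2.1
  have hl : l ≠ 0 := by
    intro hl0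
    subst hl0
    obtain ⟨π, hπ, h5⟩ := h2
    exact h5 (hg.2.2 π hπ)
  refine Ideal.pow_le_self ?_ h3
  have := hp.two_le
  exact Nat.mul_ne_zero (by omega) hl

end

end Pool.Agent.T9h3.P
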