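import Pool.Agent.T9h3.P.Cha
import Mathlib.FieldTheory.IntermediateField.Adjoin.Algebra
import Mathlib.RingTheory.Jacobson.Ring

/-!
# The rings of functions on the affine charts
-/

set_option autoImplicit false
set_option linter.unusedSectionVars false

namespace Pool.Agent.T9h3.P

open Polynomial Pool.Agent.Y223.G Pool.Agent.R383.TM Pool.Agent.T9h3 Pool.Agent.T9h3.H
open Pool.Agent.Y290.G (Ine mem_Ine)
open scoped IntermediateField IntermediateField.algebraAdjoinAdjoin

section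

variable {κ E : Type} [Field κ] [Field E] [Algebra κ E] (s : E)

lemma adj_poly (a : Algebra.adjoin κ {s}) : ∃ P : κ[X], (a : E) = aeval s P := by
  obtain ⟨x, hx⟩ := a
  rw [Algebra.adjoin_singleton_eq_range_aeval] at hx
  obtain ⟨P, hP⟩ := hx
  exact ⟨P, hP.symm⟩

lemma adj_pid : IsPrincipalIdealRing (Algebra.adjoin κ {s}) := by
  obtain ⟨s', hs'⟩ : ∃ s' : Algebra.adjoin κ {s}, (s' : E) = s :=
    ⟨⟨s, Algebra.self_mem_adjoin_singleton κ s⟩, rfl⟩
  have h1 : Function.Surjective (aeval s' : κ[X] →ₐ[κ] Algebra.adjoin κ {s}) := by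
    intro a
    obtain ⟨P, hP⟩ := adj_poly s a
    refine ⟨P, Subtype.ext ?_⟩
    have h2 := aeval_algHom_apply (Algebra.adjoin κ {s}).val s' P
    have h3 : (Algebra.adjoin κ {s}).val s' = s := hs'
    rw [h3] at h2
    rw [hP, h2]
    rfl
  exact IsPrincipalIdealRing.of_surjective (aeval s' : κ[X] →ₐ[κ] Algebra.adjoin κ {s}).toRingHom h1

instance adj_ded : IsDedekindDomain (Algebra.adjoin κ {s}) := by
  have := adj_pid (κ := κ) s
  infer_instance

end

section

variable {κ E M : Type} [Field κ] [Field E] [Field M] [Algebra κ E] [Algebra E M] (s : E)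
  [FiniteDimensional κ⟮s⟯ E] [Algebra.IsSeparable κ⟮s⟯ E] [FiniteDimensional E M] [IsGalois E M]

lemma k_ded : IsDedekindDomain (integralClosure (Algebra.adjoin κ {s}) E) :=
  integralClosure.isDedekindDomain (Algebra.adjoin κ {s}) κ⟮s⟯ E

lemma k_fin : Module.Finite (Algebra.adjoin κ {s}) (integralClosure (Algebra.adjoin κ {s}) E) :=
  IsIntegralClosure.finite (Algebra.adjoin κ {s}) κ⟮s⟯ E _

lemma k_frac : IsFractionRing (integralClosure (Algebra.adjoin κ {s}) E) E :=
  IsIntegralClosure.isFractionRing_of_finite_extension (Algebra.adjoin κ {s}) κ⟮s⟯ E _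

lemma fd_M : FiniteDimensional κ⟮s⟯ M := FiniteDimensional.trans κ⟮s⟯ E M

lemma sep_M : Algebra.IsSeparable κ⟮s⟯ M := Algebra.IsSeparable.trans κ⟮s⟯ E M

lemma O_ded : IsDedekindDomain (integralClosure (Algebra.adjoin κ {s}) M) := by
  have := fd_M (κ := κ) (M := M) s
  have := sep_M (κ := κ) (M := M) s
  exact integralClosure.isDedekindDomain (Algebra.adjoin κ {s}) κ⟮s⟯ M

lemma O_fin : Module.Finite (Algebra.adjoin κ {s}) (integralClosure (Algebra.adjoin κ {s}) M) := by
  have := fd_M (κ := κ) (M := M) s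
  have := sep_M (κ := κ) (M := M) s
  exact IsIntegralClosure.finite (Algebra.adjoin κ {s}) κ⟮s⟯ M _

/-- The map between the integral closures. -/
noncomputable instance algkO : Algebra (integralClosure (Algebra.adjoin κ {s}) E)
    (integralClosure (Algebra.adjoin κ {s}) M) :=
  ((IsScalarTower.toAlgHom (Algebra.adjoin κ {s}) E M).mapIntegralClosure).toRingHom.toAlgebra

instance : IsScalarTower (integralClosure (Algebra.adjoin κ {s}) E)
    (integralClosure (Algebra.adjoin κ {s}) M) M := IsScalarTower.of_algebraMap_eq fun _ => rfl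

instance : IsScalarTower (Algebra.adjoin κ {s}) (integralClosure (Algebra.adjoin κ {s}) E)
    (integralClosure (Algebra.adjoin κ {s}) M) := by
  refine IsScalarTower.of_algebraMap_eq fun x => ?_
  apply Subtype.ext
  rfl

instance O_ic : IsIntegralClosure (integralClosure (Algebra.adjoin κ {s}) M)
    (integralClosure (Algebra.adjoin κ {s}) E) M := by
  refine ⟨Subtype.val_injective, fun {x} => ⟨fun hx => ?_, ?_⟩⟩
  · have h1 : IsIntegral (Algebra.adjoin κ {s}) x :=
      isIntegral_trans (A := integralClosure (Algebra.adjoin κ {s}) E) x hx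
    exact ⟨⟨x, h1⟩, rfl⟩
  · rintro ⟨y, rfl⟩
    exact IsIntegral.tower_top (R := Algebra.adjoin κ {s}) y.2

lemma O_res [Finite κ] (𝔓 : Ideal (integralClosure (Algebra.adjoin κ {s}) M)) (h : 𝔓.IsMaximal) :
    Finite ((integralClosure (Algebra.adjoin κ {s}) M) ⧸ 𝔓) := by
  have := O_fin (κ := κ) (M := M) s
  have h1 : Algebra.FiniteType κ (Algebra.adjoin κ {s}) := by
    rw [← Subalgebra.fg_iff_finiteType]
    exact ⟨{s}, by simp⟩
  let _ : Algebra κ (integralClosure (Algebra.adjoin κ {s}) M) :=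
    ((algebraMap (Algebra.adjoin κ {s}) (integralClosure (Algebra.adjoin κ {s}) M)).comp
      (algebraMap κ (Algebra.adjoin κ {s}))).toAlgebra
  have _ : IsScalarTower κ (Algebra.adjoin κ {s}) (integralClosure (Algebra.adjoin κ {s}) M) :=
    IsScalarTower.of_algebraMap_eq fun _ => rfl
  have h2 : Algebra.FiniteType κ (integralClosure (Algebra.adjoin κ {s}) M) :=
    Algebra.FiniteType.trans h1 inferInstance
  have h3 : Algebra.FiniteType κ ((integralClosure (Algebra.adjoin κ {s}) M) ⧸ 𝔓) :=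
    Algebra.FiniteType.of_surjective (Ideal.Quotient.mkₐ κ 𝔓) (Ideal.Quotient.mkₐ_surjective κ 𝔓)
  let _ := Ideal.Quotient.field 𝔓
  have h4 := finite_of_finite_type_of_isJacobsonRing κ
    ((integralClosure (Algebra.adjoin κ {s}) M) ⧸ 𝔓)
  exact Module.finite_of_finite κ

/-- **The charts.** -/
theorem gch_fld [Finite κ] {p : ℕ} [CharP κ p] {F K Λ : Type} [Field F] [Field K] [Algebra κ F]
    [Algebra E F] [IsScalarTower κ E F] [Algebra M K] [Algebra E K] [IsScalarTower E M K]
    [Algebra F K] [IsScalarTower E F K] [AddCommGroup Λ] [Module.Free ℤ Λ] [Module.Finite ℤ Λ]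
    [DistribMulAction (M ≃ₐ[E] M) Λ] {χ : Λ → K} {Δ : Set Λ} {c : ℕ}
    {f : Fin c → AA (integralClosure (Algebra.adjoin κ {s}) M) Λ}
    (ρ : (M ≃ₐ[E] M) →* (K ≃ₐ[E] K))
    (hρ : ∀ g x, ρ g (algebraMap M K x) = algebraMap M K (g x))
    (hin : ∀ 𝔓 : Ideal (integralClosure (Algebra.adjoin κ {s}) M), 𝔓.IsMaximal →
      ¬ p ^ 2 ∣ Nat.card {g : M ≃ₐ[E] M | ∀ o : integralClosure (Algebra.adjoin κ {s}) M,
        ∃ e ∈ 𝔓, (e : M) = g o - o})
    (χ0 : χ 0 = 1) (χa : ∀ x y, χ (x + y) = χ x * χ y) (act : ∀ g x, ρ g (χ x) = χ (g • x))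
    (hk : ∀ P : AddMonoidAlgebra M Λ, (P.coeff.sum fun x a => algebraMap M K a * χ x) = 0 ↔
      P ∈ Ideal.span (Set.range fun r => AddMonoidAlgebra.mapRingHom Λ
        (algebraMap (integralClosure (Algebra.adjoin κ {s}) M) M) (f r)))
    (hgen : IntermediateField.adjoin M (Set.range χ) = ⊤)
    (fix : ∀ y, (∀ g, ρ g y = y) ↔ ∃ z : F, algebraMap F K z = y)
    (hRG : RG f)
    (hW : ∀ (𝔓 : Ideal (integralClosure (Algebra.adjoin κ {s}) M)) (g : M ≃ₐ[E] M),
      𝔓.IsMaximal → orderOf g = p → (∀ o : integralClosure (Algebra.adjoin κ {s}) M,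
        ∃ e ∈ 𝔓, (e : M) = g o - o) → WD (sA Λ g) 𝔓 f)
    {Θ : Set Λ} (hΘ : DF f Θ) (fin : Δ.Finite) (ne : Δ.Nonempty)
    (st : ∀ g : M ≃ₐ[E] M, ∀ x ∈ Δ, g • x ∈ Δ)
    (h : ∀ g : M ≃ₐ[E] M, CVP (SVR (orderOf g) (sA Λ g) Θ Δ) Δ)
    {S : Set F} (hSf : S.Finite)
    (hS : Submodule.span M (algebraMap F K '' S) = Submodule.span M (χ '' Δ)) :
    GCH (κ := κ) s (Submodule.span E S) := by
  have i1 := k_ded (κ := κ) s
  have i2 := k_fin (κ := κ) s
  have i3 := k_frac (κ := κ) s
  have i4 := O_ded (κ := κ) (M := M) s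
  have i5 : IsScalarTower (integralClosure (Algebra.adjoin κ {s}) E)
      (integralClosure (Algebra.adjoin κ {s}) M) K := IsScalarTower.of_algebraMap_eq fun x =>
    IsScalarTower.algebraMap_apply E M K x
  have i6 : IsScalarTower (integralClosure (Algebra.adjoin κ {s}) E) F K :=
    IsScalarTower.of_algebraMap_eq fun x => IsScalarTower.algebraMap_apply E F K x
  have hp : p.Prime := by
    have := CharP.char_ne_zero_of_finite κ p
    exact (CharP.char_is_prime_or_zero κ p).resolve_right this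
  have hp0 : (p : integralClosure (Algebra.adjoin κ {s}) M) = 0 := by
    apply Subtype.ext
    have h1 : ((p : κ)) = 0 := CharP.cast_eq_zero κ p
    have h2 : ((p : E)) = 0 := by
      rw [← map_natCast (algebraMap κ E), h1, map_zero]
    have h3 : ((p : M)) = 0 := by
      rw [← map_natCast (algebraMap E M), h2, map_zero]
    exact h3
  have hT : ∀ (𝔓 : Ideal (integralClosure (Algebra.adjoin κ {s}) M)) (g : M ≃ₐ[E] M),
      (∀ o, Tk (integralClosure (Algebra.adjoin κ {s}) E) (integralClosure (Algebra.adjoin κ {s}) M)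
        E M g o - o ∈ 𝔓) ↔ ∀ o : integralClosure (Algebra.adjoin κ {s}) M,
        ∃ e ∈ 𝔓, (e : M) = g o - o := by
    intro 𝔓 g
    have h1 : ∀ o : integralClosure (Algebra.adjoin κ {s}) M,
        ((Tk (integralClosure (Algebra.adjoin κ {s}) E) (integralClosure (Algebra.adjoin κ {s}) M)
        E M g o - o : integralClosure (Algebra.adjoin κ {s}) M) : M) = g o - o := by
      intro o
      have h2 := Tk_coe (integralClosure (Algebra.adjoin κ {s}) E)
        (integralClosure (Algebra.adjoin κ {s}) M) E M g o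
      rw [AddSubgroupClass.coe_sub]
      congr 1
    constructor
    · intro hg o
      exact ⟨_, hg o, h1 o⟩
    · intro hg o
      obtain ⟨e, he, heo⟩ := hg o
      have h2 : e = Tk (integralClosure (Algebra.adjoin κ {s}) E)
          (integralClosure (Algebra.adjoin κ {s}) M) E M g o - o := by
        apply Subtype.ext
        rw [heo, h1]
      rw [← h2]
      exact he
  refine gch_of (A := Algebra.adjoin κ {s}) (k := integralClosure (Algebra.adjoin κ {s}) E)
    (O := integralClosure (Algebra.adjoin κ {s}) M) ?_ ?_ ?_ ρ hρ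
    (fun 𝔓 h𝔓 _ => O_res s 𝔓 h𝔓) hp hp0 ?_ χ0 χa act hk hgen fix hRG (fun 𝔓 g h𝔓 ho hg =>
      hW 𝔓 g h𝔓 ho ((hT 𝔓 g).1 hg)) hΘ fin ne st h hSf hS
  · exact ⟨⟨s, Algebra.self_mem_adjoin_singleton κ s⟩, rfl⟩
  · intro a
    obtain ⟨P, hP⟩ := adj_poly s a
    refine ⟨P, ?_⟩
    change algebraMap E F (a : E) = _
    rw [hP, ← aeval_algebraMap_apply]
  · intro a b hab
    apply Subtype.ext
    exact (algebraMap E F).injective hab
  · intro 𝔓 h𝔓 _ hd
    apply hin 𝔓 h𝔓
    have h1 : ((Ine (Tk (integralClosure (Algebra.adjoin κ {s}) E)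
        (integralClosure (Algebra.adjoin κ {s}) M) E M) 𝔓 : Subgroup (M ≃ₐ[E] M)) :
          Set (M ≃ₐ[E] M)) = {g : M ≃ₐ[E] M | ∀ o : integralClosure (Algebra.adjoin κ {s}) M,
        ∃ e ∈ 𝔓, (e : M) = g o - o} := by
      ext g
      exact hT 𝔓 g
    rw [← h1]
    exact hd

end

end Pool.Agent.T9h3.P
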