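import Pool.Agent.T9h3.P.Lcl
import Pool.Agent.H918R2.Quad.HasModule

/-!
# Gluing over the projective line
-/

set_option autoImplicit false
set_option linter.unusedSectionVars false

namespace Pool.Agent.T9h3.P

open scoped Pointwise

open Pool.Agent.H918R2.Quad Polynomial

variable {κ F : Type} [Field κ] [Field F] [Algebra κ F]

lemma poly_mem {s : F} {N : Submodule κ F} (h : ∀ x ∈ N, s * x ∈ N) (q : κ[X]) {x : F}
    (hx : x ∈ N) : aeval s q * x ∈ N := by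
  have hp : ∀ (i : ℕ), s ^ i * x ∈ N := by
    intro i
    induction i with
    | zero => rwa [pow_zero, one_mul]
    | succ i ih => rw [pow_succ', mul_assoc]; exact h _ ih
  rw [aeval_eq_sum_range, Finset.sum_mul]
  refine Submodule.sum_mem _ fun i _ => ?_
  rw [smul_mul_assoc]
  exact N.smul_mem _ (hp i)

lemma poly_sub {s : F} {B : Subring F} (hs : s ∈ B) (hκ : ∀ c : κ, algebraMap κ F c ∈ B)
    (q : κ[X]) : aeval s q ∈ B := by
  rw [aeval_eq_sum_range]
  refine Subring.sum_mem _ fun i _ => ?_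
  rw [Algebra.smul_def]
  exact B.mul_mem (hκ _) (B.pow_mem hs i)

/-- Local membership at infinity. -/
def NL (t : F) (N : Submodule κ F) (h : ∀ x ∈ N, t⁻¹ * x ∈ N) : Submodule κ F where
  carrier := {x | ∃ q : κ[X], q.coeff 0 ≠ 0 ∧ aeval t⁻¹ q * x ∈ N}
  add_mem' := by
    rintro x y ⟨q, hq, hx⟩ ⟨r, hr, hy⟩
    refine ⟨q * r, ?_, ?_⟩
    · rw [mul_coeff_zero]
      exact mul_ne_zero hq hr
    · have h1 := N.add_mem (poly_mem h r hx) (poly_mem h q hy)
      have h2 : aeval t⁻¹ (q * r) * (x + y) =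
          aeval t⁻¹ r * (aeval t⁻¹ q * x) + aeval t⁻¹ q * (aeval t⁻¹ r * y) := by
        rw [map_mul]
        ring
      rw [h2]
      exact h1
  zero_mem' := ⟨1, by simp, by simp⟩
  smul_mem' := by
    rintro c x ⟨q, hq, hx⟩
    refine ⟨q, hq, ?_⟩
    rw [Algebra.smul_def, mul_left_comm, ← Algebra.smul_def]
    exact N.smul_mem c hx

/-- Units at infinity. -/
lemma unit_inf {𝒪 : Subring F} (hloc : IsLoc 𝒪) (hκ : ∀ c : κ, algebraMap κ F c ∈ 𝒪) {s : F}
    (hs : s ∈ 𝒪) (hsU : ¬ U 𝒪 s) (q : κ[X]) (hq : q.coeff 0 ≠ 0) : U 𝒪 (aeval s q) := by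
  have h1 : aeval s q = s * aeval s q.divX + algebraMap κ F (q.coeff 0) := by
    conv_lhs => rw [← divX_mul_X_add q]
    rw [map_add, map_mul, aeval_X, aeval_C, mul_comm]
  have hU : U 𝒪 (algebraMap κ F (q.coeff 0)) := by
    refine ⟨?_, hκ _, ?_⟩
    · rw [Ne, map_eq_zero]
      exact hq
    · rw [← map_inv₀]
      exact hκ _
  have hr : aeval s q.divX ∈ 𝒪 := poly_sub hs hκ _
  have h2 : algebraMap κ F (q.coeff 0) = aeval s q + -(s * aeval s q.divX) := by
    rw [h1]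
    ring
  rw [h2] at hU
  rcases hloc _ _ (poly_sub hs hκ _) (𝒪.neg_mem (𝒪.mul_mem hs hr)) hU with h3 | h3
  · exact h3
  · exfalso
    have h4 : -(s * aeval s q.divX) = s * (-aeval s q.divX) := by ring
    rw [h4] at h3
    exact hsU (h3.of_mul_left hs (𝒪.neg_mem hr))

/-- The data of the gluing. -/
structure GL1 (t : F) (N₀ N₁ : Submodule κ F) : Prop where
  t0 : t ≠ 0
  s0 : ∀ x ∈ N₀, t * x ∈ N₀
  s1 : ∀ x ∈ N₁, t⁻¹ * x ∈ N₁
  g0 : ∃ S : Finset F, (∀ x ∈ S, x ∈ N₀) ∧ N₀ ≤ Submodule.span κ {y | ∃ i : ℕ, ∃ s ∈ S, y = t ^ i * s}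
  g1 : ∃ S : Finset F, (∀ x ∈ S, x ∈ N₁) ∧
    N₁ ≤ Submodule.span κ {y | ∃ i : ℕ, ∃ s ∈ S, y = t⁻¹ ^ i * s}
  e0 : ∀ x ∈ N₀, ∃ (j : ℕ) (q : κ[X]), q.coeff 0 ≠ 0 ∧ t⁻¹ ^ j * (aeval t⁻¹ q * x) ∈ N₁
  e1 : ∀ x ∈ N₁, ∃ (j : ℕ) (q : κ[X]), q.coeff 0 ≠ 0 ∧ t ^ j * (aeval t⁻¹ q * x) ∈ N₀

lemma pow_st {s : F} {N : Submodule κ F} (h : ∀ x ∈ N, s * x ∈ N) (i : ℕ) {x : F}
    (hx : x ∈ N) : s ^ i * x ∈ N := by
  induction i with
  | zero => rwa [pow_zero, one_mul]
  | succ i ih => rw [pow_succ', mul_assoc]; exact h _ ih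

lemma aux_one {t g f s u v : F} (m i : ℕ) (ht : t ≠ 0) (hg : g ≠ 0) (hf : f ≠ 0) (hu : u ≠ 0)
    (hv : v ≠ 0) : t⁻¹ ^ i * s / (v * (t⁻¹ ^ m * g)) =
      t⁻¹ ^ i * (((t * (t ^ m * (u * s))) / f) * (t * g / f)⁻¹ * u⁻¹ * v⁻¹) := by
  simp only [inv_pow]
  field_simp

lemma aux_two {a g w u v : F} (ha : a ≠ 0) (hg : g ≠ 0) (hu : u ≠ 0) (hv : v ≠ 0) :
    w / g = (u * (a * w) / (v * (a * g))) * (v / u) := by
  field_simp

/-- **Gluing.** -/
theorem hasModule_of_GL1 {t : F} {N₀ N₁ : Submodule κ F} (h : GL1 t N₀ N₁)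
    (hne : ∃ x ∈ N₀, x ≠ 0) (hR0 : RCH (N₀ : Set F)) (hQ0 : QCH (N₀ : Set F))
    (hR1 : RCH (N₁ : Set F)) : HasModule κ F := by
  classical
  obtain ⟨t0, s0, s1, ⟨S₀, hS₀, hg0⟩, ⟨S₁, hS₁, hg1⟩, e0, e1⟩ := h
  choose! j0 q0 hq0 hj0 using e0
  choose! j1 q1 hq1 hj1 using e1
  obtain ⟨m, hm⟩ : ∃ m, m = ∑ s ∈ S₀, j0 s + ∑ s ∈ S₁, j1 s := ⟨_, rfl⟩
  have hm0 : ∀ s ∈ S₀, j0 s ≤ m := fun s hs =>
    (Finset.single_le_sum (f := j0) (fun _ _ => Nat.zero_le _) hs).trans (by omega)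
  have hm1 : ∀ s ∈ S₁, j1 s ≤ m := fun s hs =>
    (Finset.single_le_sum (f := j1) (fun _ _ => Nat.zero_le _) hs).trans (by omega)
  have htt : ∀ (i : ℕ) (x : F), t⁻¹ ^ i * (t ^ i * x) = x := by
    intro i x
    rw [← mul_assoc, ← mul_pow, inv_mul_cancel₀ t0, one_pow, one_mul]
  obtain ⟨G, hG⟩ : ∃ G : Finset F, G = S₀ ∪ S₁.image fun s => t ^ m * (aeval t⁻¹ (q1 s) * s) :=
    ⟨_, rfl⟩
  have hGS0 : ∀ s ∈ S₀, s ∈ G := fun s hs => by
    rw [hG]
    exact Finset.mem_union_left _ hs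
  have hGS1 : ∀ s ∈ S₁, t ^ m * (aeval t⁻¹ (q1 s) * s) ∈ G := fun s hs => by
    rw [hG]
    exact Finset.mem_union_right _ (Finset.mem_image_of_mem _ hs)
  have hGN0 : ∀ g ∈ G, g ∈ N₀ := by
    intro g hg
    rw [hG, Finset.mem_union, Finset.mem_image] at hg
    rcases hg with hg | ⟨s, hs, rfl⟩
    · exact hS₀ g hg
    · obtain ⟨d, hd⟩ := Nat.exists_eq_add_of_le' (hm1 s hs)
      rw [hd, pow_add, mul_assoc]
      exact pow_st s0 d (hj1 s (hS₁ s hs))
  have hGN1 : ∀ g ∈ G, t⁻¹ ^ m * g ∈ NL t N₁ s1 := by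
    intro g hg
    rw [hG, Finset.mem_union, Finset.mem_image] at hg
    rcases hg with hg | ⟨s, hs, rfl⟩
    · obtain ⟨d, hd⟩ := Nat.exists_eq_add_of_le' (hm0 g hg)
      refine ⟨q0 g, hq0 g (hS₀ g hg), ?_⟩
      rw [hd, pow_add]
      have e2 : aeval t⁻¹ (q0 g) * (t⁻¹ ^ d * t⁻¹ ^ j0 g * g) =
          t⁻¹ ^ d * (t⁻¹ ^ j0 g * (aeval t⁻¹ (q0 g) * g)) := by ring
      rw [e2]
      exact pow_st s1 d (hj0 g (hS₀ g hg))
    · rw [htt]
      refine ⟨1, by simp, ?_⟩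
      rw [map_one, one_mul]
      exact poly_mem s1 _ (hS₁ s hs)
  obtain ⟨W, hW⟩ : ∃ W : Submodule κ F, W = Submodule.span κ (G : Set F) := ⟨_, rfl⟩
  have hWG : ∀ g ∈ G, g ∈ W := fun g hg => by rw [hW]; exact Submodule.subset_span hg
  have hWN0 : W ≤ N₀ := by
    rw [hW, Submodule.span_le]
    exact hGN0
  have hWN1 : ∀ w ∈ W, t⁻¹ ^ m * w ∈ NL t N₁ s1 := by
    intro w hw
    rw [hW] at hw
    induction hw using Submodule.span_induction with
    | mem x hx => exact hGN1 x hx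
    | zero => rw [mul_zero]; exact Submodule.zero_mem _
    | add x y _ _ hx hy => rw [mul_add]; exact Submodule.add_mem _ hx hy
    | smul c x _ hx =>
      rw [Algebra.smul_def, mul_left_comm, ← Algebra.smul_def]
      exact Submodule.smul_mem _ c hx
  obtain ⟨GM, hGM⟩ : ∃ GM : Finset F, GM = G ∪ G.image fun g => t * g := ⟨_, rfl⟩
  obtain ⟨M, hM⟩ : ∃ M : Submodule κ F, M = Submodule.span κ (GM : Set F) := ⟨_, rfl⟩
  have hMG : ∀ g ∈ G, g ∈ M ∧ t * g ∈ M := by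
    intro g hg
    rw [hM, hGM]
    exact ⟨Submodule.subset_span (Finset.mem_union_left _ hg),
      Submodule.subset_span (Finset.mem_union_right _ (Finset.mem_image_of_mem _ hg))⟩
  have hMW : ∀ x ∈ M, ∃ w₁ ∈ W, ∃ w₂ ∈ W, x = w₁ + t * w₂ := by
    intro x hx
    rw [hM] at hx
    induction hx using Submodule.span_induction with
    | mem x hx =>
      rw [hGM, Finset.coe_union, Set.mem_union] at hx
      rcases hx with hx | hx
      · exact ⟨x, hWG x hx, 0, W.zero_mem, by ring⟩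
      · rw [Finset.mem_coe, Finset.mem_image] at hx
        obtain ⟨g, hg, rfl⟩ := hx
        exact ⟨0, W.zero_mem, g, hWG g hg, by ring⟩
    | zero => exact ⟨0, W.zero_mem, 0, W.zero_mem, by ring⟩
    | add x y _ _ hx hy =>
      obtain ⟨a, ha, b, hb, rfl⟩ := hx
      obtain ⟨a', ha', b', hb', rfl⟩ := hy
      exact ⟨a + a', W.add_mem ha ha', b + b', W.add_mem hb hb', by ring⟩
    | smul c x _ hx =>
      obtain ⟨a, ha, b, hb, rfl⟩ := hx
      refine ⟨c • a, W.smul_mem c ha, c • b, W.smul_mem c hb, ?_⟩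
      rw [smul_add, Algebra.smul_def, Algebra.smul_def, Algebra.smul_def]
      ring
  have hMN0 : M ≤ N₀ := by
    intro x hx
    obtain ⟨w₁, h1, w₂, h2, rfl⟩ := hMW x hx
    exact N₀.add_mem (hWN0 h1) (s0 _ (hWN0 h2))
  have hGne : ∃ g ∈ G, g ≠ 0 := by
    by_contra hcon
    push Not at hcon
    obtain ⟨x, hx, hx0⟩ := hne
    apply hx0
    have h1 : N₀ ≤ ⊥ := by
      refine hg0.trans ?_
      rw [Submodule.span_le]
      rintro _ ⟨i, s, hs, rfl⟩
      rw [SetLike.mem_coe, Submodule.mem_bot, hcon s (hGS0 s hs), mul_zero]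
    exact (Submodule.mem_bot κ).1 (h1 hx)
  refine ⟨M, ?_, ?_, (QCH_iff M).1 ?_, (RCH_iff M).1 ?_⟩
  · rw [hM]
    exact ⟨GM, rfl⟩
  · obtain ⟨g, hg, hg0⟩ := hGne
    exact ⟨g, (hMG g hg).1, hg0⟩
  · -- the fraction field
    apply QCH_of
    intro f hf hf0
    obtain ⟨g, hg, hgne⟩ := hGne
    refine ⟨CC (N₀ : Set F) g, hQ0 g (hGN0 g hg) hgne, FR_CC fun x hx => ?_⟩
    have hx' := hg0 hx
    have ht : FR (CC (M : Set F) f) t := by
      have h1 : t = (t * g / f) / (g / f) := by field_simp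
      rw [h1]
      exact (FR.of_mem (CC_mem f (hMG g hg).2)).div (FR.of_mem (CC_mem f (hMG g hg).1))
    clear hx
    induction hx' using Submodule.span_induction with
    | mem x hx =>
      obtain ⟨i, s, hs, rfl⟩ := hx
      have hti : FR (CC (M : Set F) f) (t ^ i) := by
        induction i with
        | zero => rw [pow_zero]; exact FR.of_mem (Subring.one_mem _)
        | succ i ih => rw [pow_succ]; exact ih.mul ht
      have h1 : t ^ i * s / g = t ^ i * ((s / f) / (g / f)) := by field_simp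
      rw [h1]
      exact hti.mul ((FR.of_mem (CC_mem f (hMG s (hGS0 s hs)).1)).div
        (FR.of_mem (CC_mem f (hMG g hg).1)))
    | zero => rw [zero_div]; exact FR.of_mem (Subring.zero_mem _)
    | add x y _ _ hx hy => rw [add_div]; exact hx.add hy
    | smul c x _ hx =>
      rw [Algebra.smul_def, mul_div_assoc]
      exact (FR.of_mem (k_mem_CC hf hf0 c)).mul hx
  · -- regularity
    apply RCH_of
    intro f hf hf0 𝒪 hloc hle
    have hκ : ∀ c : κ, algebraMap κ F c ∈ 𝒪 := fun c => hle (k_mem_CC hf hf0 c)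
    have hMf : ∀ x ∈ M, x / f ∈ 𝒪 := fun x hx => hle (CC_mem f hx)
    -- the first chart
    have case1 : ∀ g ∈ G, U 𝒪 (g / f) →
        ∃ B : Subring F, B ≤ 𝒪 ∧ (∀ m ∈ (M : Set F), FU 𝒪 B (m / f)) ∧ RSB B := by
      intro g hg hU
      have hgne : g ≠ 0 := by
        rintro rfl
        apply hU.1
        rw [zero_div]
      have ht : t ∈ 𝒪 := by
        have h1 : t = (t * g / f) * (g / f)⁻¹ := by field_simp
        rw [h1]
        exact 𝒪.mul_mem (hMf _ (hMG g hg).2) hU.2.2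
      refine ⟨CC (N₀ : Set F) g, ?_, ?_, hR0 g (hGN0 g hg) hgne⟩
      · unfold CC
        rw [Subring.closure_le]
        rintro _ ⟨x, hx, rfl⟩
        have hx' := hg0 hx
        clear hx
        change x / g ∈ 𝒪
        induction hx' using Submodule.span_induction with
        | mem x hx =>
          obtain ⟨i, s, hs, rfl⟩ := hx
          have h1 : t ^ i * s / g = t ^ i * ((s / f) * (g / f)⁻¹) := by field_simp
          rw [h1]
          exact 𝒪.mul_mem (𝒪.pow_mem ht i) (𝒪.mul_mem (hMf _ (hMG s (hGS0 s hs)).1) hU.2.2)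
        | zero => rw [zero_div]; exact 𝒪.zero_mem
        | add x y _ _ hx hy => rw [add_div]; exact 𝒪.add_mem hx hy
        | smul c x _ hx =>
          rw [Algebra.smul_def, mul_div_assoc]
          exact 𝒪.mul_mem (hκ c) hx
      · intro x hx
        have e1 : x / f = (x / g) / (f / g) := by field_simp
        rw [e1]
        refine (FU.of_mem (CC_mem g (hMN0 hx))).div (FU.of_mem (CC_mem g (hMN0 hf))) ?_
        have := hU.inv
        rwa [inv_div] at this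
    -- the second chart
    have case2 : ∀ g ∈ G, U 𝒪 (t * g / f) → ¬ U 𝒪 (g / f) →
        ∃ B : Subring F, B ≤ 𝒪 ∧ (∀ m ∈ (M : Set F), FU 𝒪 B (m / f)) ∧ RSB B := by
      intro g hg hU hnU
      have hgne : g ≠ 0 := by
        rintro rfl
        apply hU.1
        rw [mul_zero, zero_div]
      have ht : t⁻¹ ∈ 𝒪 := by
        have h1 : t⁻¹ = (g / f) * (t * g / f)⁻¹ := by field_simp
        rw [h1]
        exact 𝒪.mul_mem (hMf _ (hMG g hg).1) hU.2.2
      have htU : ¬ U 𝒪 t⁻¹ := by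
        intro h1
        apply hnU
        have h2 : g / f = t⁻¹ * (t * g / f) := by field_simp
        rw [h2]
        exact h1.mul hU
      have hun : ∀ q : κ[X], q.coeff 0 ≠ 0 → U 𝒪 (aeval t⁻¹ q) := fun q hq =>
        unit_inf hloc hκ ht htU q hq
      obtain ⟨r, hr, hrg⟩ := hGN1 g hg
      obtain ⟨g₂, hg₂⟩ : ∃ g₂, g₂ = aeval t⁻¹ r * (t⁻¹ ^ m * g) := ⟨_, rfl⟩
      rw [← hg₂] at hrg
      have hr0 := (hun r hr).1
      have htm : t⁻¹ ^ m ≠ 0 := pow_ne_zero _ (inv_ne_zero t0)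
      have hg₂0 : g₂ ≠ 0 := by
        rw [hg₂]
        exact mul_ne_zero hr0 (mul_ne_zero htm hgne)
      have hκB : ∀ c : κ, algebraMap κ F c ∈ CC (N₁ : Set F) g₂ := fun c => k_mem_CC hrg hg₂0 c
      have htB : t⁻¹ ∈ CC (N₁ : Set F) g₂ := by
        have h1 : t⁻¹ = t⁻¹ * g₂ / g₂ := by field_simp
        rw [h1]
        exact CC_mem g₂ (s1 _ hrg)
      have hWU : ∀ w ∈ W, FU 𝒪 (CC (N₁ : Set F) g₂) (w / g) := by
        intro w hw
        obtain ⟨q, hq, hqw⟩ := hWN1 w hw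
        have hq0 := (hun q hq).1
        have e1 : w / g = (aeval t⁻¹ q * (t⁻¹ ^ m * w) / g₂) * (aeval t⁻¹ r / aeval t⁻¹ q) := by
          rw [hg₂]
          exact aux_two htm hgne hq0 hr0
        rw [e1]
        exact (FU.of_mem (CC_mem g₂ hqw)).mul ((FU.of_mem (poly_sub htB hκB r)).div
          (FU.of_mem (poly_sub htB hκB q)) (hun q hq))
      have hMU : ∀ x ∈ M, FU 𝒪 (CC (N₁ : Set F) g₂) (x / (t * g)) := by
        intro x hx
        obtain ⟨w₁, h1, w₂, h2, rfl⟩ := hMW x hx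
        have e1 : (w₁ + t * w₂) / (t * g) = t⁻¹ * (w₁ / g) + w₂ / g := by field_simp
        rw [e1]
        exact ((FU.of_mem htB).mul (hWU w₁ h1)).add (hWU w₂ h2)
      refine ⟨CC (N₁ : Set F) g₂, ?_, ?_, hR1 g₂ hrg hg₂0⟩
      · unfold CC
        rw [Subring.closure_le]
        rintro _ ⟨x, hx, rfl⟩
        have hx' := hg1 hx
        clear hx
        change x / g₂ ∈ 𝒪
        induction hx' using Submodule.span_induction with
        | mem x hx =>
          obtain ⟨i, s, hs, rfl⟩ := hx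
          have hus := hun (q1 s) (hq1 s (hS₁ s hs))
          have hus0 := hus.1
          have h1 : t⁻¹ ^ i * s / g₂ = t⁻¹ ^ i * (((t * (t ^ m * (aeval t⁻¹ (q1 s) * s))) / f) *
              (t * g / f)⁻¹ * (aeval t⁻¹ (q1 s))⁻¹ * (aeval t⁻¹ r)⁻¹) := by
            rw [hg₂]
            exact aux_one m i t0 hgne hf0 hus0 hr0
          rw [h1]
          exact 𝒪.mul_mem (𝒪.pow_mem ht i) (𝒪.mul_mem (𝒪.mul_mem (𝒪.mul_mem
            (hMf _ (hMG _ (hGS1 s hs)).2) hU.2.2) hus.2.2) (hun r hr).2.2)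
        | zero => rw [zero_div]; exact 𝒪.zero_mem
        | add x y _ _ hx hy => rw [add_div]; exact 𝒪.add_mem hx hy
        | smul c x _ hx =>
          rw [Algebra.smul_def, mul_div_assoc]
          exact 𝒪.mul_mem (hκ c) hx
      · intro x hx
        have e1 : x / f = (x / (t * g)) / (f / (t * g)) := by field_simp
        rw [e1]
        refine (hMU x hx).div (hMU f hf) ?_
        have := hU.inv
        rwa [inv_div] at this
    -- the end
    have hf' : f ∈ Submodule.span κ (GM : Set F) := by rw [← hM]; exact hf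
    obtain ⟨g', hg', hU⟩ := exists_U_gen hloc hκ (GM : Set F) f hf0 (fun g hg => by
      apply hMf
      rw [hM]
      exact Submodule.subset_span hg) hf'
    rw [hGM, Finset.coe_union, Set.mem_union, Finset.mem_coe, Finset.mem_coe,
      Finset.mem_image] at hg'
    rcases hg' with hg | ⟨g, hg, rfl⟩
    · exact case1 g' hg hU
    · by_cases h1 : U 𝒪 (g / f)
      · exact case1 g hg h1
      · exact case2 g hg hU h1

end Pool.Agent.T9h3.P
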