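import Pool.Agent.H473R2.Quad.Poly
import Pool.Agent.TH188.ARC.A5

/-!
# Charts of modules and local subrings
-/

set_option autoImplicit false
set_option linter.unusedSectionVars false

namespace Pool.Agent.T9h3.P

open scoped Pointwise

open Pool.Agent.H918R2.Quad
open Pool.Agent.H473R2.Quad (reg_of_loc)

variable {F : Type} [Field F]

/-- Fractions with the denominator a unit of `𝒪`. -/
def FU (𝒪 B : Subring F) (x : F) : Prop := ∃ b ∈ B, ∃ u ∈ B, U 𝒪 u ∧ x = b / u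

lemma FU.of_mem {𝒪 B : Subring F} {x : F} (hx : x ∈ B) : FU 𝒪 B x :=
  ⟨x, hx, 1, B.one_mem, U_one, by rw [div_one]⟩

lemma FU.add {𝒪 B : Subring F} {x y : F} (hx : FU 𝒪 B x) (hy : FU 𝒪 B y) : FU 𝒪 B (x + y) := by
  obtain ⟨b, hb, u, hu, hU, rfl⟩ := hx
  obtain ⟨b', hb', u', hu', hU', rfl⟩ := hy
  have := hU.1
  have := hU'.1
  refine ⟨b * u' + b' * u, B.add_mem (B.mul_mem hb hu') (B.mul_mem hb' hu), u * u',
    B.mul_mem hu hu', hU.mul hU', ?_⟩
  field_simp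

lemma FU.mul {𝒪 B : Subring F} {x y : F} (hx : FU 𝒪 B x) (hy : FU 𝒪 B y) : FU 𝒪 B (x * y) := by
  obtain ⟨b, hb, u, hu, hU, rfl⟩ := hx
  obtain ⟨b', hb', u', hu', hU', rfl⟩ := hy
  refine ⟨b * b', B.mul_mem hb hb', u * u', B.mul_mem hu hu', hU.mul hU', ?_⟩
  rw [div_mul_div_comm]

lemma FU.neg {𝒪 B : Subring F} {x : F} (hx : FU 𝒪 B x) : FU 𝒪 B (-x) := by
  have h1 : -x = (-1) * x := by ring
  rw [h1]
  exact (FU.of_mem (B.neg_mem B.one_mem)).mul hx

lemma FU.inv {𝒪 B : Subring F} {x : F} (hx : FU 𝒪 B x) (hU : U 𝒪 x) :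
    FU 𝒪 B x⁻¹ := by
  obtain ⟨b, hb, u, hu, hUu, rfl⟩ := hx
  have hu0 := hUu.1
  have h1 : U 𝒪 b := by
    have h2 : b = b / u * u := by field_simp
    rw [h2]
    exact hU.mul hUu
  exact ⟨u, hu, b, hb, h1, by rw [inv_div]⟩

lemma FU.div {𝒪 B : Subring F} {x y : F} (hx : FU 𝒪 B x) (hy : FU 𝒪 B y) (hU : U 𝒪 y) :
    FU 𝒪 B (x / y) := by
  rw [div_eq_mul_inv]
  exact hx.mul (hy.inv hU)

/-- All localizations at prime ideals are regular. -/
def RSB (B : Subring F) : Prop :=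
  ∀ (q : Ideal B) (_ : q.IsPrime), IsRegularLocalRing (Localization.AtPrime q)

lemma reg_of_FU {𝒪 B : Subring F} (hloc : IsLoc 𝒪) (hB : B ≤ 𝒪) (h : ∀ x ∈ 𝒪, FU 𝒪 B x)
    (hreg : RSB B) : IsRegularLocalRing 𝒪 := by
  have he : ∀ b : B, B.subtype b ∈ 𝒪 := fun b => hB b.2
  have hp : (primeOf hloc B.subtype he).IsPrime := inferInstance
  have hq' : ∀ w, w ∉ primeOf hloc B.subtype he ↔ U 𝒪 (w : F) := by
    intro w
    change ¬ (¬ U 𝒪 (B.subtype w)) ↔ _
    rw [not_not]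
    rfl
  refine reg_of_loc B.subtype Subtype.val_injective (primeOf hloc B.subtype he) 𝒪 ?_
    (hreg _ hp)
  intro x
  constructor
  · intro hx
    obtain ⟨b, hb, u, hu, hU, rfl⟩ := h x hx
    exact ⟨⟨b, hb⟩, ⟨u, hu⟩, (hq' _).2 hU, rfl⟩
  · rintro ⟨a, b, hb, rfl⟩
    have := (hq' b).1 hb
    rw [div_eq_mul_inv]
    exact 𝒪.mul_mem (he a) this.2.2

/-- The chart. -/
def CC (S : Set F) (f : F) : Subring F := Subring.closure {y | ∃ m ∈ S, y = m / f}

lemma CC_mem {S : Set F} {m : F} (f : F) (hm : m ∈ S) : m / f ∈ CC S f :=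
  Subring.subset_closure ⟨m, hm, rfl⟩

/-- The charts are regular. -/
def RCH (S : Set F) : Prop := ∀ f ∈ S, f ≠ 0 → RSB (CC S f)

/-- The charts have the fraction field `F`. -/
def QCH (S : Set F) : Prop :=
  ∀ f ∈ S, f ≠ 0 → ∀ y : F, ∃ b ∈ CC S f, ∃ c ∈ CC S f, c ≠ 0 ∧ y = b / c

lemma chart_CC {k : Type} [CommRing k] [Algebra k F] (N : Submodule k F) {f : F} (hf : f ∈ N)
    (hf0 : f ≠ 0) : (chart k N f).toSubring = CC (N : Set F) f := by
  apply le_antisymm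
  · intro x hx
    change x ∈ chart k N f at hx
    induction hx using Algebra.adjoin_induction with
    | mem x hx =>
      obtain ⟨m, hm, rfl⟩ := hx
      exact CC_mem f hm
    | algebraMap r =>
      have h1 : algebraMap k F r = (r • f) / f := by
        rw [Algebra.smul_def, mul_div_assoc, div_self hf0, mul_one]
      rw [h1]
      exact CC_mem f (N.smul_mem r hf)
    | add x y _ _ hx hy => exact Subring.add_mem _ hx hy
    | mul x y _ _ hx hy => exact Subring.mul_mem _ hx hy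
  · unfold CC
    rw [Subring.closure_le]
    rintro _ ⟨m, hm, rfl⟩
    exact Algebra.subset_adjoin ⟨m, hm, rfl⟩

lemma RCH_iff {k : Type} [CommRing k] [Algebra k F] (N : Submodule k F) :
    RCH (N : Set F) ↔ ∀ f ∈ N, f ≠ 0 → ∀ (q : Ideal (chart k N f)) [q.IsPrime],
      IsRegularLocalRing (Localization.AtPrime q) := by
  constructor
  · intro h f hf hf0 q hq
    have h1 := h f hf hf0
    rw [← chart_CC N hf hf0] at h1
    exact h1 q hq
  · intro h f hf hf0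
    rw [← chart_CC N hf hf0]
    exact fun q hq => h f hf hf0 q

lemma QCH_iff {k : Type} [CommRing k] [Algebra k F] (N : Submodule k F) :
    QCH (N : Set F) ↔ ∀ f ∈ N, f ≠ 0 → ∀ y : F, ∃ b ∈ chart k N f, ∃ c ∈ chart k N f,
      c ≠ 0 ∧ y = b / c := by
  constructor
  · intro h f hf hf0 y
    have h1 := h f hf hf0 y
    rw [← chart_CC N hf hf0] at h1
    exact h1
  · intro h f hf hf0
    rw [← chart_CC N hf hf0]
    exact fun y => h f hf hf0 y

/-- **Regularity of charts from regular charts.** -/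
theorem RCH_of {S : Set F} (h : ∀ f ∈ S, f ≠ 0 → ∀ 𝒪 : Subring F, IsLoc 𝒪 → CC S f ≤ 𝒪 →
    ∃ B : Subring F, B ≤ 𝒪 ∧ (∀ m ∈ S, FU 𝒪 B (m / f)) ∧ RSB B) : RCH S := by
  intro f hf hf0 q hq
  obtain ⟨𝒪, hloc, hmemO, hU, hreg⟩ := exists_loc (CC S f).subtype Subtype.val_injective q
  have hA : CC S f ≤ 𝒪 := by
    intro a ha
    rw [hmemO]
    refine ⟨⟨a, ha⟩, 1, (Ideal.ne_top_iff_one q).1 hq.ne_top, ?_⟩
    rw [map_one, div_one]
    rfl
  obtain ⟨B, hB, hm, hr⟩ := h f hf hf0 𝒪 hloc hA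
  apply hreg
  have h1 : ∀ a ∈ CC S f, FU 𝒪 B a := by
    intro a ha
    unfold CC at ha
    induction ha using Subring.closure_induction with
    | mem x hx =>
      obtain ⟨m, hm', rfl⟩ := hx
      exact hm m hm'
    | zero => exact FU.of_mem B.zero_mem
    | one => exact FU.of_mem B.one_mem
    | add x y _ _ hx hy => exact hx.add hy
    | neg x _ hx => exact hx.neg
    | mul x y _ _ hx hy => exact hx.mul hy
  refine reg_of_FU hloc hB (fun x hx => ?_) hr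
  obtain ⟨a, b, hb, rfl⟩ := (hmemO x).1 hx
  exact (h1 _ a.2).div (h1 _ b.2) ((hU b).2 hb)

/-- Fractions. -/
def FR (B : Subring F) (x : F) : Prop := ∃ b ∈ B, ∃ c ∈ B, c ≠ 0 ∧ x = b / c

lemma FR.of_mem {B : Subring F} {x : F} (hx : x ∈ B) : FR B x :=
  ⟨x, hx, 1, B.one_mem, one_ne_zero, by rw [div_one]⟩

lemma FR.add {B : Subring F} {x y : F} (hx : FR B x) (hy : FR B y) : FR B (x + y) := by
  obtain ⟨b, hb, u, hu, hU, rfl⟩ := hx
  obtain ⟨b', hb', u', hu', hU', rfl⟩ := hy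
  refine ⟨b * u' + b' * u, B.add_mem (B.mul_mem hb hu') (B.mul_mem hb' hu), u * u',
    B.mul_mem hu hu', mul_ne_zero hU hU', ?_⟩
  field_simp

lemma FR.mul {B : Subring F} {x y : F} (hx : FR B x) (hy : FR B y) : FR B (x * y) := by
  obtain ⟨b, hb, u, hu, hU, rfl⟩ := hx
  obtain ⟨b', hb', u', hu', hU', rfl⟩ := hy
  refine ⟨b * b', B.mul_mem hb hb', u * u', B.mul_mem hu hu', mul_ne_zero hU hU', ?_⟩
  rw [div_mul_div_comm]

lemma FR.neg {B : Subring F} {x : F} (hx : FR B x) : FR B (-x) := by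
  have h1 : -x = (-1) * x := by ring
  rw [h1]
  exact (FR.of_mem (B.neg_mem B.one_mem)).mul hx

lemma FR.inv {B : Subring F} {x : F} (hx : FR B x) : FR B x⁻¹ := by
  obtain ⟨b, hb, c, hc, hc0, rfl⟩ := hx
  by_cases hb0 : b = 0
  · rw [hb0, zero_div, inv_zero]
    exact FR.of_mem B.zero_mem
  · exact ⟨c, hc, b, hb, hb0, by rw [inv_div]⟩

lemma FR.div {B : Subring F} {x y : F} (hx : FR B x) (hy : FR B y) : FR B (x / y) := by
  rw [div_eq_mul_inv]
  exact hx.mul hy.inv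

lemma FR_CC {S : Set F} {f : F} {B : Subring F} (h : ∀ m ∈ S, FR B (m / f)) :
    ∀ x ∈ CC S f, FR B x := by
  intro a ha
  unfold CC at ha
  induction ha using Subring.closure_induction with
  | mem x hx =>
    obtain ⟨m, hm', rfl⟩ := hx
    exact h m hm'
  | zero => exact FR.of_mem B.zero_mem
  | one => exact FR.of_mem B.one_mem
  | add x y _ _ hx hy => exact hx.add hy
  | neg x _ hx => exact hx.neg
  | mul x y _ _ hx hy => exact hx.mul hy

/-- The fraction field. -/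
theorem QCH_of {S : Set F} (h : ∀ f ∈ S, f ≠ 0 → ∃ B : Subring F,
    (∀ y, ∃ b ∈ B, ∃ c ∈ B, c ≠ 0 ∧ y = b / c) ∧ ∀ b ∈ B, FR (CC S f) b) : QCH S := by
  intro f hf hf0 y
  obtain ⟨B, hB, h1⟩ := h f hf hf0
  obtain ⟨b, hb, c, hc, hc0, rfl⟩ := hB y
  exact (h1 b hb).div (h1 c hc)

section pow

variable {k : Type} [CommRing k] [Algebra k F] {N : Submodule k F}

lemma k_mem_CC {f : F} (hf : f ∈ N) (hf0 : f ≠ 0) (r : k) : algebraMap k F r ∈ CC (N : Set F) f := by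
  have h1 : algebraMap k F r = (r • f) / f := by
    rw [Algebra.smul_def, mul_div_assoc, div_self hf0, mul_one]
  rw [h1]
  exact CC_mem f (N.smul_mem r hf)

lemma pow_CC {g : F} (hg : g ∈ N) (hg0 : g ≠ 0) (n : ℕ) (m : F) (hm : m ∈ N ^ n) :
    m / g ^ n ∈ CC (N : Set F) g := by
  rw [← chart_CC N hg hg0]
  exact Pool.Agent.TH188.ARC.pow_div_mem hg0 n m hm

lemma U_prod {𝒪 : Subring F} {ι : Type} (s : Finset ι) (x : ι → F) (hx : ∀ i ∈ s, x i ∈ 𝒪)
    (h : U 𝒪 (∏ i ∈ s, x i)) {i : ι} (hi : i ∈ s) : U 𝒪 (x i) := by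
  classical
  rw [← Finset.mul_prod_erase s x hi] at h
  exact h.of_mul_left (hx i hi) (Subring.prod_mem _ fun j hj => hx j (Finset.mem_of_mem_erase hj))

/-- An element whose power is a unit multiple of `f`. -/
lemma exists_pow_U {𝒪 : Subring F} (hloc : IsLoc 𝒪) {n : ℕ} (hn : 1 ≤ n) {f : F}
    (hf : f ∈ N ^ n) (hf0 : f ≠ 0) (h : CC ((N ^ n : Submodule k F) : Set F) f ≤ 𝒪) :
    ∃ g ∈ N, g ≠ 0 ∧ U 𝒪 (g ^ n / f) := by
  have hk : ∀ r : k, algebraMap k F r ∈ 𝒪 := fun r => h (k_mem_CC hf hf0 r)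
  have hpow : (N ^ n : Submodule k F) = Submodule.span k ((N : Set F) ^ n) :=
    Submodule.pow_eq_span_pow_set N n
  have hf' : f ∈ Submodule.span k ((N : Set F) ^ n) := by rw [← hpow]; exact hf
  obtain ⟨g, hg, hU⟩ := exists_U_gen hloc hk ((N : Set F) ^ n) f hf0 (fun g hg => by
    apply h
    apply CC_mem
    rw [hpow]
    exact Submodule.subset_span hg) hf'
  rw [Set.mem_pow_iff_prod] at hg
  obtain ⟨x, hx, rfl⟩ := hg
  have h2 : U 𝒪 (∏ i, x i ^ n / f) := by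
    have e1 : (∏ i, x i ^ n / f) = ((∏ i, x i) / f) ^ n := by
      rw [Finset.prod_div_distrib, Finset.prod_pow, div_pow, Finset.prod_const, Finset.card_univ,
        Fintype.card_fin]
    rw [e1]
    exact hU.pow n
  have h3 := U_prod Finset.univ _ (fun i _ => by
    apply h
    apply CC_mem
    exact Submodule.pow_mem_pow _ (hx i) n) h2 (Finset.mem_univ (⟨0, hn⟩ : Fin n))
  refine ⟨x ⟨0, hn⟩, hx _, ?_, h3⟩
  rintro h0
  apply h3.1
  rw [h0, zero_pow (by omega), zero_div]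

/-- **The charts of the powers are regular.** -/
theorem RCH_pow {n : ℕ} (hn : 1 ≤ n) (h : RCH (N : Set F)) :
    RCH ((N ^ n : Submodule k F) : Set F) := by
  apply RCH_of
  intro f hf hf0 𝒪 hloc hle
  obtain ⟨g, hg, hg0, hU⟩ := exists_pow_U hloc hn hf hf0 hle
  have hgn : g ^ n ≠ 0 := pow_ne_zero _ hg0
  refine ⟨CC (N : Set F) g, ?_, ?_, h g hg hg0⟩
  · unfold CC
    rw [Subring.closure_le]
    rintro _ ⟨m, hm, rfl⟩
    obtain ⟨n', rfl⟩ : ∃ n', n = n' + 1 := ⟨n - 1, by omega⟩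
    have e1 : m / g = (m * g ^ n' / f) * (g ^ (n' + 1) / f)⁻¹ := by
      rw [pow_succ]
      field_simp
    rw [e1]
    refine 𝒪.mul_mem (hle (CC_mem f ?_)) hU.2.2
    change m * g ^ n' ∈ N ^ (n' + 1)
    rw [pow_succ']
    exact Submodule.mul_mem_mul hm (Submodule.pow_mem_pow _ hg n')
  · intro m hm
    have e1 : m / f = (m / g ^ n) / (f / g ^ n) := by field_simp
    rw [e1]
    refine (FU.of_mem (pow_CC hg hg0 n m hm)).div (FU.of_mem (pow_CC hg hg0 n f hf)) ?_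
    have := hU.inv
    rwa [inv_div] at this

theorem QCH_pow {n : ℕ} (hn : 1 ≤ n) (hN : ∃ g ∈ N, g ≠ 0) (h : QCH (N : Set F)) :
    QCH ((N ^ n : Submodule k F) : Set F) := by
  apply QCH_of
  intro f hf hf0
  obtain ⟨g, hg, hg0⟩ := hN
  refine ⟨CC (N : Set F) g, h g hg hg0, FR_CC fun m hm => ?_⟩
  obtain ⟨n', rfl⟩ : ∃ n', n = n' + 1 := ⟨n - 1, by omega⟩
  have e1 : m / g = (m * g ^ n' / f) / (g ^ (n' + 1) / f) := by
    rw [pow_succ]
    field_simp
  rw [e1]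
  refine (FR.of_mem (CC_mem f ?_)).div (FR.of_mem (CC_mem f ?_))
  · change m * g ^ n' ∈ N ^ (n' + 1)
    rw [pow_succ']
    exact Submodule.mul_mem_mul hm (Submodule.pow_mem_pow _ hg n')
  · exact Submodule.pow_mem_pow _ hg (n' + 1)

end pow

end Pool.Agent.T9h3.P
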