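import Pool.Agent.T9h3.P.Fld
import Pool.Agent.H918R2.Quad.Final

/-!
# Subvarieties of tori over global function fields
-/

set_option autoImplicit false
set_option linter.unusedSectionVars false

namespace Pool.Agent.T9h3.P

open Polynomial Pool.Agent.Y223.G Pool.Agent.R383.TM Pool.Agent.T9h3 Pool.Agent.T9h3.H
open scoped IntermediateField IntermediateField.algebraAdjoinAdjoin

/-- The nondegenerate equations over a chart. -/
structure NEQ {κ E M K Λ : Type} [Field κ] [Field E] [Field M] [Algebra κ E] [Algebra E M]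
    [Field K] [Algebra M K] [Algebra E K] [AddCommGroup Λ] [DistribMulAction (M ≃ₐ[E] M) Λ] (s : E)
    (p : ℕ) (ρ : (M ≃ₐ[E] M) →* (K ≃ₐ[E] K)) (χ : Λ → K) {c : ℕ}
    (f : Fin c → AA (integralClosure (Algebra.adjoin κ {s}) M) Λ) : Prop where
  hin : ∀ 𝔓 : Ideal (integralClosure (Algebra.adjoin κ {s}) M), 𝔓.IsMaximal →
      ¬ p ^ 2 ∣ Nat.card {g : M ≃ₐ[E] M | ∀ o : integralClosure (Algebra.adjoin κ {s}) M,
        ∃ e ∈ 𝔓, (e : M) = g o - o}
  χ0 : χ 0 = 1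
  χa : ∀ x y, χ (x + y) = χ x * χ y
  act : ∀ g x, ρ g (χ x) = χ (g • x)
  hk : ∀ P : AddMonoidAlgebra M Λ, (P.coeff.sum fun x a => algebraMap M K a * χ x) = 0 ↔
      P ∈ Ideal.span (Set.range fun r => AddMonoidAlgebra.mapRingHom Λ
        (algebraMap (integralClosure (Algebra.adjoin κ {s}) M) M) (f r))
  hgen : IntermediateField.adjoin M (Set.range χ) = ⊤
  hRG : RG f
  hW : ∀ (𝔓 : Ideal (integralClosure (Algebra.adjoin κ {s}) M)) (g : M ≃ₐ[E] M),
      𝔓.IsMaximal → orderOf g = p → (∀ o : integralClosure (Algebra.adjoin κ {s}) M,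
        ∃ e ∈ 𝔓, (e : M) = g o - o) → WD (sA Λ g) 𝔓 f

/-- **Models over the projective line.** -/
theorem prj_hasModule {κ E M F K Λ : Type} [Field κ] [Finite κ] [Field E] [Field M] [Algebra κ E]
    [Algebra E M] {t : E} (ht : t ≠ 0)
    [FiniteDimensional κ⟮t⟯ E] [Algebra.IsSeparable κ⟮t⟯ E] [FiniteDimensional E M] [IsGalois E M]
    {p : ℕ} [CharP κ p] [Field F] [Field K] [Algebra κ F]
    [Algebra E F] [IsScalarTower κ E F] [Algebra M K] [Algebra E K] [IsScalarTower E M K]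
    [Algebra F K] [IsScalarTower E F K] [AddCommGroup Λ] [Module.Free ℤ Λ] [Module.Finite ℤ Λ]
    [DistribMulAction (M ≃ₐ[E] M) Λ] {χ₀ χ₁ : Λ → K}
    (ρ : (M ≃ₐ[E] M) →* (K ≃ₐ[E] K))
    (hρ : ∀ g x, ρ g (algebraMap M K x) = algebraMap M K (g x))
    (fix : ∀ y, (∀ g, ρ g y = y) ↔ ∃ z : F, algebraMap F K z = y)
    {c₀ c₁ : ℕ} {f₀ : Fin c₀ → AA (integralClosure (Algebra.adjoin κ {t}) M) Λ}
    {f₁ : Fin c₁ → AA (integralClosure (Algebra.adjoin κ {t⁻¹}) M) Λ}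
    (h0 : NEQ t p ρ χ₀ f₀) (h1 : NEQ t⁻¹ p ρ χ₁ f₁) (a : Λ → M)
    (ha : ∀ x, χ₁ x = algebraMap M K (a x) * χ₀ x) :
    Pool.Agent.H918R2.Quad.HasModule κ F := by
  classical
  have hKt : κ⟮t⁻¹⟯ = κ⟮t⟯ := by
    apply le_antisymm
    · rw [IntermediateField.adjoin_simple_le_iff]
      exact inv_mem (IntermediateField.mem_adjoin_simple_self κ t)
    · rw [IntermediateField.adjoin_simple_le_iff]
      have h2 := inv_mem (IntermediateField.mem_adjoin_simple_self κ t⁻¹)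
      rwa [inv_inv] at h2
  have i1 : FiniteDimensional κ⟮t⁻¹⟯ E := by
    rw [hKt]
    infer_instance
  have i2 : Algebra.IsSeparable κ⟮t⁻¹⟯ E := by
    rw [hKt]
    infer_instance
  obtain ⟨Θ₀, hΘ₀⟩ := exists_DFN f₀
  obtain ⟨Θ₁, hΘ₁⟩ := exists_DFN f₁
  obtain ⟨Δ, fin, ne, st, hΔ⟩ := exists_polyN (M ≃ₐ[E] M) Λ (Θ₀ ∪ Θ₁)
  have ha0 : ∀ x, a x ≠ 0 := by
    intro x hx
    have h2 := chi_ne h1.χ0 h1.χa x
    rw [ha, hx, map_zero, zero_mul] at h2
    exact h2 rfl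
  obtain ⟨S, hSf, hS⟩ := exists_desc ρ hρ h0.act (algebraMap F K) (algebraMap F K).injective fix
    fin st
  have hS' : Submodule.span M (algebraMap F K '' S) = Submodule.span M (χ₁ '' Δ) := by
    rw [hS]
    apply le_antisymm
    · rw [Submodule.span_le]
      rintro _ ⟨x, hx, rfl⟩
      have h2 : χ₀ x = (a x)⁻¹ • χ₁ x := by
        rw [ha, Algebra.smul_def, map_inv₀]
        have := (map_ne_zero (algebraMap M K)).2 (ha0 x)
        field_simp
      rw [h2]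
      exact Submodule.smul_mem _ _ (Submodule.subset_span ⟨x, hx, rfl⟩)
    · rw [Submodule.span_le]
      rintro _ ⟨x, hx, rfl⟩
      rw [ha, ← Algebra.smul_def]
      exact Submodule.smul_mem _ _ (Submodule.subset_span ⟨x, hx, rfl⟩)
  refine hasModule_of_GCH ht (W := Submodule.span E S) ?_ ?_
  · exact gch_fld (p := p) t ρ hρ h0.hin h0.χ0 h0.χa h0.act h0.hk h0.hgen fix h0.hRG h0.hW
      (DF_mono hΘ₀ (by rw [Finset.coe_union]; exact Set.subset_union_left)) fin ne st hΔ hSf hS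
  · exact gch_fld (p := p) t⁻¹ ρ hρ h1.hin h1.χ0 h1.χa h1.act h1.hk h1.hgen fix h1.hRG h1.hW
      (DF_mono hΘ₁ (by rw [Finset.coe_union]; exact Set.subset_union_right)) fin ne st hΔ hSf hS'

end Pool.Agent.T9h3.P
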