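import Pool.Agent.T9h3.P.Stm

/-!
# Ramification at a prime of a cyclic extension of prime degree
-/

set_option autoImplicit false
set_option linter.overlappingInstances false
set_option linter.unusedSectionVars false

namespace Pool.Agent.T9h3.P

open Pool.Agent.Y223.G

section ram

variable {k O K : Type} [CommRing k] [IsDomain k] [CommRing O] [IsDomain O]
  [IsDedekindDomain O] [Field K] [Algebra k O] [Algebra O K] [Algebra k K] [IsScalarTower k O K]
  {p : ℕ} {τ : K ≃ₐ[k] K} {t : O ≃ₐ[k] O}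

lemma iter_alg (g : GSetN k O K p τ t) (i : ℕ) (o : O) :
    algebraMap O K (t^[i] o) = τ^[i] (algebraMap O K o) := by
  induction i with
  | zero => rfl
  | succ i ih => rw [Function.iterate_succ_apply', Function.iterate_succ_apply', ← g.com, ih]

lemma t_ord (g : GSetN k O K p τ t) (o : O) : t^[p] o = o :=
  g.inj (by rw [iter_alg g, g.ord])

/-- The residue field of the fixed ring is the residue field. -/
lemma res_surj (g : GSetN k O K p τ t) {𝔓 : Ideal O} (hmax : 𝔓.IsMaximal) (hbot : 𝔓 ≠ ⊥)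
    (hδ : ∀ o, t o - o ∈ 𝔓) (o : O) : ∃ c : k, o - algebraMap k O c ∈ 𝔓 := by
  classical
  have hfin : Finite (O ⧸ 𝔓) := g.resf 𝔓 hmax hbot
  let _ : Field (O ⧸ 𝔓) := Ideal.Quotient.field 𝔓
  have _ : Fintype (O ⧸ 𝔓) := Fintype.ofFinite _
  have hmk : ∀ x, Ideal.Quotient.mk 𝔓 (t x) = Ideal.Quotient.mk 𝔓 x :=
    fun x => Ideal.Quotient.eq.2 (hδ x)
  have hit : ∀ i, Ideal.Quotient.mk 𝔓 (t^[i] o) = Ideal.Quotient.mk 𝔓 o := by
    intro i
    induction i with
    | zero => rfl
    | succ i ih => rw [Function.iterate_succ_apply', hmk, ih]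
  suffices hkey : ∃ c : k, Ideal.Quotient.mk 𝔓 (algebraMap k O c) = Ideal.Quotient.mk 𝔓 o by
    obtain ⟨c, hc⟩ := hkey
    exact ⟨c, Ideal.Quotient.eq.1 hc.symm⟩
  have hpp := g.pp
  by_cases hp : ((p : ℕ) : O ⧸ 𝔓) = 0
  · -- the norm
    have hfix : t (∏ i ∈ Finset.range p, t^[i] o) = ∏ i ∈ Finset.range p, t^[i] o := by
      rw [map_prod]
      have h1 := Finset.prod_range_succ' (fun i => t^[i] o) p
      have h2 := Finset.prod_range_succ (fun i => t^[i] o) p
      rw [t_ord g] at h2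
      rw [h2, Function.iterate_zero_apply] at h1
      by_cases ho : o = 0
      · rw [ho]
        have h3 : ∀ i, t^[i] (0 : O) = 0 := by
          intro i
          induction i with
          | zero => rfl
          | succ i ih => rw [Function.iterate_succ_apply', ih, map_zero]
        simp only [h3, map_zero]
      · have h4 := mul_right_cancel₀ ho h1
        rw [h4]
        refine Finset.prod_congr rfl fun i _ => ?_
        rw [Function.iterate_succ_apply']
    obtain ⟨c, hc⟩ := g.fix _ hfix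
    have h1 : Ideal.Quotient.mk 𝔓 (algebraMap k O c) = Ideal.Quotient.mk 𝔓 o ^ p := by
      rw [hc, map_prod, Finset.prod_congr rfl fun i _ => hit i, Finset.prod_const,
        Finset.card_range]
    have hchar : CharP (O ⧸ 𝔓) p := (CharP.charP_iff_prime_eq_zero hpp).2 hp
    obtain ⟨f, -, hf⟩ := FiniteField.card (O ⧸ 𝔓) p
    have h2 := FiniteField.pow_card (Ideal.Quotient.mk 𝔓 o)
    obtain ⟨f', hf'⟩ : ∃ f' : ℕ, (f : ℕ) = f' + 1 := ⟨f - 1, by have := f.pos; omega⟩
    rw [hf, hf', pow_succ, mul_comm, pow_mul, ← h1] at h2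
    exact ⟨c ^ p ^ f', by rw [map_pow, map_pow, h2]⟩
  · -- the trace
    have hfix : t (∑ i ∈ Finset.range p, t^[i] o) = ∑ i ∈ Finset.range p, t^[i] o := by
      rw [map_sum]
      have h1 := Finset.sum_range_succ' (fun i => t^[i] o) p
      have h2 := Finset.sum_range_succ (fun i => t^[i] o) p
      rw [t_ord g] at h2
      rw [h2, Function.iterate_zero_apply] at h1
      have h4 := add_right_cancel h1
      rw [h4]
      refine Finset.sum_congr rfl fun i _ => ?_
      rw [Function.iterate_succ_apply']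
    obtain ⟨c, hc⟩ := g.fix _ hfix
    have h1 : Ideal.Quotient.mk 𝔓 (algebraMap k O c) = p * Ideal.Quotient.mk 𝔓 o := by
      rw [hc, map_sum, Finset.sum_congr rfl fun i _ => hit i, Finset.sum_const,
        Finset.card_range, nsmul_eq_mul]
    have h2 := FiniteField.pow_card_sub_one_eq_one ((p : ℕ) : O ⧸ 𝔓) hp
    have h3 : 1 < Fintype.card (O ⧸ 𝔓) := Fintype.one_lt_card
    refine ⟨p ^ (Fintype.card (O ⧸ 𝔓) - 2) * c, ?_⟩
    rw [map_mul, map_mul, map_pow, map_pow, map_natCast, map_natCast, h1, ← mul_assoc, ← pow_succ,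
      show Fintype.card (O ⧸ 𝔓) - 2 + 1 = Fintype.card (O ⧸ 𝔓) - 1 by omega, h2, one_mul]

/-- the map `t - 1` -/
noncomputable def Dt (t : O ≃ₐ[k] O) : Module.End k O := t.toLinearMap - 1

lemma Dt_apply (x : O) : Dt t x = t x - x := rfl

lemma Dt_mul (x y : O) : Dt t (x * y) = Dt t x * t y + x * Dt t y := by
  rw [Dt_apply, Dt_apply, Dt_apply, map_mul]
  ring

/-- the binomial formula -/
lemma Dt_binom (g : GSetN k O K p τ t) (x : O) :
    ∑ m ∈ Finset.range p, (p.choose (m + 1) : O) * (Dt t ^ (m + 1)) x = 0 := by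
  have h1 : (Dt t + 1) ^ p = 1 := by
    have e : Dt t + 1 = t.toLinearMap := by
      rw [Dt, sub_add_cancel]
    rw [e]
    ext x
    rw [Module.End.pow_apply]
    exact t_ord g x
  rw [(Commute.one_right (Dt t)).add_pow] at h1
  have h2 := congrArg (fun F : Module.End k O => F x) h1
  simp only [one_pow, mul_one, LinearMap.sum_apply, Module.End.one_apply] at h2
  rw [Finset.sum_range_succ'] at h2
  have h3 : ∀ m, (Dt t ^ m * (p.choose m : Module.End k O)) x = (p.choose m : O) * (Dt t ^ m) x := by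
    intro m
    rw [← (Nat.cast_commute (p.choose m) (Dt t ^ m)).eq, ← nsmul_eq_mul, LinearMap.smul_apply,
      nsmul_eq_mul]
  simp only [h3, pow_zero, Nat.choose_zero_right, Nat.cast_one, one_mul,
    Module.End.one_apply] at h2
  have h4 : ∑ m ∈ Finset.range p, (p.choose (m + 1) : O) * (Dt t ^ (m + 1)) x + x = 0 + x := by
    rw [zero_add]
    exact h2
  exact add_right_cancel h4

lemma t_pow_mem {𝔓 : Ideal O} (hδ : ∀ o, t o - o ∈ 𝔓) {x : O} (hx : x ∈ 𝔓) : t x ∈ 𝔓 := by
  have h1 := 𝔓.add_mem (hδ x) hx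
  rwa [sub_add_cancel] at h1

lemma Dt_mem_pow {𝔓 : Ideal O} (hδ : ∀ o, t o - o ∈ 𝔓) {l : ℕ}
    (hl : ∀ o, t o - o ∈ 𝔓 ^ (l + 1)) : ∀ (m : ℕ) (x : O), x ∈ 𝔓 ^ m → Dt t x ∈ 𝔓 ^ (m + l) := by
  intro m
  induction m with
  | zero =>
    intro x _
    rw [zero_add]
    exact Ideal.pow_le_pow_right (Nat.le_succ l) (hl x)
  | succ m ih =>
    intro x hx
    rw [pow_succ] at hx
    refine Submodule.mul_induction_on hx ?_ ?_
    · intro a ha b hb
      rw [Dt_mul]
      refine Ideal.add_mem _ ?_ ?_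
      · have h1 := Ideal.mul_mem_mul (ih a ha) (t_pow_mem hδ hb)
        rw [← pow_succ, show m + l + 1 = m + 1 + l by omega] at h1
        exact h1
      · have h1 := Ideal.mul_mem_mul ha (hl b)
        rw [← pow_add, show m + (l + 1) = m + 1 + l by omega] at h1
        exact h1
    · intro a b ha hb
      rw [map_add]
      exact Ideal.add_mem _ ha hb

lemma Dt_iter_mem {𝔓 : Ideal O} (hδ : ∀ o, t o - o ∈ 𝔓) {l : ℕ}
    (hl : ∀ o, t o - o ∈ 𝔓 ^ (l + 1)) {x : O} (hx : x ∈ 𝔓) (i : ℕ) :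
    (Dt t ^ i) x ∈ 𝔓 ^ (1 + i * l) := by
  induction i with
  | zero => simpa using hx
  | succ i ih =>
    rw [pow_succ', Module.End.mul_apply]
    have h1 := Dt_mem_pow hδ hl _ _ ih
    rwa [show 1 + i * l + l = 1 + (i + 1) * l by ring] at h1

end ram

/-- **The ramification at a prime.** -/
theorem t_RAM1 : S_RAM1N := by
  classical
  intro k O K _ _ _ _ _ _ _ _ _ _ p τ t g 𝔓 hmax hbot hδ
  have hprime : 𝔓.IsPrime := hmax.isPrime
  have hPr : Prime 𝔓 := Ideal.prime_of_isPrime hbot hprime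
  have hpp := g.pp
  -- the number `l`
  have hex : ∃ n, ∃ o, t o - o ∉ 𝔓 ^ n := by
    obtain ⟨o, ho⟩ := g.nt
    by_contra hcon
    push Not at hcon
    have h1 : t o - o ∈ (⨅ n : ℕ, 𝔓 ^ n : Ideal O) := by
      rw [Submodule.mem_iInf]
      exact fun n => hcon n o
    rw [Ideal.iInf_pow_eq_bot_of_isDomain 𝔓 hmax.ne_top, Ideal.mem_bot] at h1
    exact ho (sub_eq_zero.1 h1)
  obtain ⟨o, ho⟩ := Nat.find_spec hex
  have hmin : ∀ m < Nat.find hex, ∀ o, t o - o ∈ 𝔓 ^ m := fun m hm o => by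
    by_contra hcon
    exact Nat.find_min hex hm ⟨o, hcon⟩
  set n := Nat.find hex with hn
  have hn2 : 2 ≤ n := by
    by_contra hcon
    have h1 : n = 0 ∨ n = 1 := by omega
    rcases h1 with h1 | h1
    · rw [h1, pow_zero, Ideal.one_eq_top] at ho
      exact ho trivial
    · rw [h1, pow_one] at ho
      exact ho (hδ o)
  obtain ⟨l, hl⟩ := Nat.exists_eq_add_of_le' hn2
  rw [hl] at ho
  have hl1 : ∀ o, t o - o ∈ 𝔓 ^ (l + 1) := hmin (l + 1) (by omega)
  obtain ⟨c, hc⟩ := res_surj g hmax hbot hδ o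
  set π := o - algebraMap k O c with hπ
  have hDπ : Dt t π = t o - o := by
    rw [Dt_apply, hπ, map_sub, t.commutes]
    ring
  have hDπ2 : Dt t π ∉ 𝔓 ^ (l + 2) := by
    rw [hDπ]
    exact ho
  refine ⟨l, hl1, ⟨π, hc, hDπ2⟩, ?_, ?_⟩
  · -- the different
    rcases Nat.eq_zero_or_pos l with hl0 | hl0
    · rw [hl0, mul_zero, pow_zero, Ideal.one_eq_top]
      trivial
    by_contra hcon
    have hex2 : ∃ m, (p : O) ∉ 𝔓 ^ m := ⟨_, hcon⟩
    have h1 := Nat.find_spec hex2
    have h2 : ∀ m < Nat.find hex2, (p : O) ∈ 𝔓 ^ m := fun m hm => by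
      by_contra hcon'
      exact Nat.find_min hex2 hm hcon'
    have h3 : Nat.find hex2 ≤ (p - 1) * l := Nat.find_le hcon
    set r := Nat.find hex2 with hr
    have hr1 : 1 ≤ r := by
      by_contra hcon'
      have h4 : r = 0 := by omega
      rw [h4, pow_zero, Ideal.one_eq_top] at h1
      exact h1 trivial
    obtain ⟨s, hs⟩ := Nat.exists_eq_add_of_le' hr1
    rw [hs] at h1
    have hps : (p : O) ∈ 𝔓 ^ s := h2 s (by omega)
    -- the exact valuation of `p δ π`
    have hDπ1 : Dt t π ∈ 𝔓 ^ (l + 1) := hl1 π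
    have h5 : (p : O) * Dt t π ∉ 𝔓 ^ (s + (l + 1) + 1) := by
      intro h6
      rw [← Ideal.dvd_span_singleton, ← Ideal.span_singleton_mul_span_singleton] at h6
      rcases succ_dvd_or_succ_dvd_of_succ_sum_dvd_mul hPr (Ideal.dvd_span_singleton.2 hps)
        (Ideal.dvd_span_singleton.2 hDπ1) h6 with h7 | h7
      · exact h1 (Ideal.dvd_span_singleton.1 h7)
      · exact hDπ2 (Ideal.dvd_span_singleton.1 h7)
    apply h5
    -- all the other terms are smaller
    obtain ⟨q, hq⟩ : ∃ q, p = q + 1 + 1 := ⟨p - 2, by have := hpp.two_le; omega⟩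
    have h6 := Dt_binom g π
    have h7 : ∑ m ∈ Finset.range p, (p.choose (m + 1) : O) * (Dt t ^ (m + 1)) π =
        ∑ m ∈ Finset.range q, (p.choose (m + 1 + 1) : O) * (Dt t ^ (m + 1 + 1)) π +
          (p : O) * Dt t π + (Dt t ^ p) π := by
      have e1 : Finset.range p = Finset.range (q + 1 + 1) := by rw [hq]
      rw [e1, Finset.sum_range_succ, Finset.sum_range_succ']
      have e2 : p.choose (q + 1 + 1) = 1 := by rw [← hq, Nat.choose_self]
      rw [e2, ← hq, zero_add, Nat.choose_one_right, pow_one, Nat.cast_one, one_mul]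
    rw [h7] at h6
    have h8 : (p : O) * Dt t π =
        -(∑ m ∈ Finset.range q, (p.choose (m + 1 + 1) : O) * (Dt t ^ (m + 1 + 1)) π +
          (Dt t ^ p) π) := by
      linear_combination h6
    rw [h8]
    refine Ideal.neg_mem_iff _ |>.2 (Ideal.add_mem _ (Ideal.sum_mem _ fun m hm => ?_) ?_)
    · rw [Finset.mem_range] at hm
      obtain ⟨d, hd⟩ := hpp.dvd_choose_self (k := m + 1 + 1) (by omega) (by omega)
      rw [hd, Nat.cast_mul]
      have h9 := Ideal.mul_mem_mul hps (Dt_iter_mem hδ hl1 hc (m + 1 + 1))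
      rw [← pow_add] at h9
      have h10 : s + (l + 1) + 1 ≤ s + (1 + (m + 1 + 1) * l) := by
        have : 2 * l ≤ (m + 1 + 1) * l := Nat.mul_le_mul_right l (by omega)
        omega
      have h11 := Ideal.pow_le_pow_right (I := 𝔓) h10 h9
      have e3 : (p : O) * (d : O) * (Dt t ^ (m + 1 + 1)) π =
          (d : O) * ((p : O) * (Dt t ^ (m + 1 + 1)) π) := by ring
      rw [e3]
      exact Ideal.mul_mem_left _ _ h11
    · have h9 := Dt_iter_mem hδ hl1 hc p
      refine Ideal.pow_le_pow_right ?_ h9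
      have h10 : p * l = (p - 1) * l + l := by
        rw [Nat.sub_mul, one_mul, Nat.sub_add_cancel]
        exact Nat.le_mul_of_pos_left l hpp.pos
      omega
  · -- tame ramification
    intro hl0 hp
    subst hl0
    have hl1' : ∀ o, t o - o ∈ 𝔓 ^ (0 + 1) := hl1
    have hπ2 : π ∉ 𝔓 ^ 2 := by
      intro h1
      have h2 := Dt_mem_pow hδ hl1' 2 π h1
      exact hDπ2 h2
    have hstep : ∀ x ∈ 𝔓, x ∉ 𝔓 ^ 2 → Dt t x ∉ 𝔓 ^ 2 := by
      intro x hx hx2 hcon
      have hc' : π ∈ 𝔓 ^ 1 := by rw [pow_one]; exact hc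
      have hx' : x ∈ 𝔓 ^ 1 := by rw [pow_one]; exact hx
      obtain ⟨a, e, he, hae⟩ := Ideal.exists_mul_add_mem_pow_succ hbot π x hc' hπ2 hx'
      have ha : a ∉ 𝔓 := by
        intro ha
        apply hx2
        rw [← hae]
        refine Ideal.add_mem _ ?_ he
        rw [sq]
        exact Ideal.mul_mem_mul hc ha
      have h1 : Dt t x = Dt t π * t a + π * Dt t a + Dt t e := by
        rw [← hae, map_add, Dt_mul]
      have h2 : Dt t e ∈ 𝔓 ^ 2 := Dt_mem_pow hδ hl1' 2 e he
      have h3 : π * Dt t a ∈ 𝔓 ^ 2 := by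
        rw [sq]
        exact Ideal.mul_mem_mul hc (hδ a)
      have h4 : Dt t π * t a ∈ 𝔓 ^ 2 := by
        have h5 : Dt t π * t a = Dt t x - π * Dt t a - Dt t e := by
          rw [h1]
          ring
        rw [h5]
        exact Ideal.sub_mem _ (Ideal.sub_mem _ hcon h3) h2
      have hta : t a ∉ 𝔓 := by
        intro h5
        apply ha
        have h6 := 𝔓.sub_mem h5 (hδ a)
        rwa [sub_sub_cancel] at h6
      rw [mul_comm] at h4
      rcases Ideal.IsPrime.mul_mem_pow 𝔓 h4 with h5 | h5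
      · exact hta h5
      · exact hDπ2 h5
    have hiter : ∀ i, (Dt t ^ i) π ∈ 𝔓 ∧ (Dt t ^ i) π ∉ 𝔓 ^ 2 := by
      intro i
      induction i with
      | zero => exact ⟨hc, hπ2⟩
      | succ i ih =>
        rw [pow_succ', Module.End.mul_apply]
        exact ⟨hδ _, hstep _ ih.1 ih.2⟩
    obtain ⟨q, hq⟩ : ∃ q, p = q + 1 := ⟨p - 1, by have := hpp.two_le; omega⟩
    have h6 := Dt_binom g π
    have h7 : ∑ m ∈ Finset.range p, (p.choose (m + 1) : O) * (Dt t ^ (m + 1)) π =
        ∑ m ∈ Finset.range q, (p.choose (m + 1) : O) * (Dt t ^ (m + 1)) π + (Dt t ^ p) π := by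
      have e1 : Finset.range p = Finset.range (q + 1) := by rw [hq]
      rw [e1, Finset.sum_range_succ]
      have e2 : p.choose (q + 1) = 1 := by rw [← hq, Nat.choose_self]
      rw [e2, ← hq, Nat.cast_one, one_mul]
    rw [h7] at h6
    have h8 : (Dt t ^ p) π =
        -∑ m ∈ Finset.range q, (p.choose (m + 1) : O) * (Dt t ^ (m + 1)) π := by
      linear_combination h6
    apply (hiter p).2
    rw [h8]
    refine Ideal.neg_mem_iff _ |>.2 (Ideal.sum_mem _ fun m hm => ?_)
    rw [Finset.mem_range] at hm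
    obtain ⟨d, hd⟩ := hpp.dvd_choose_self (k := m + 1) (by omega) (by omega)
    rw [hd, Nat.cast_mul]
    have e3 : (p : O) * (d : O) * (Dt t ^ (m + 1)) π =
        (d : O) * ((p : O) * (Dt t ^ (m + 1)) π) := by ring
    rw [e3, sq]
    exact Ideal.mul_mem_left _ _ (Ideal.mul_mem_mul hp (hiter (m + 1)).1)

end Pool.Agent.T9h3.P
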