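import Pool.Agent.T9h3.P.Glu
import Pool.Agent.Y223.G.Defs

/-!
# Spans over the fraction field and charts over the projective line
-/

set_option autoImplicit false
set_option linter.unusedSectionVars false

namespace Pool.Agent.T9h3.P

open Polynomial Pool.Agent.Y223.G

section span

variable {k E F : Type} [CommRing k] [IsDomain k] [Field E] [Field F] [Algebra k E]
  [Algebra E F] [Algebra k F] [IsScalarTower k E F] [IsFractionRing k E]

/-- `W` is the span of `N` over the fraction field. -/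
structure SPN (N : Submodule k F) (W : Submodule E F) : Prop where
  sub : ∀ x ∈ N, x ∈ W
  den : ∀ x ∈ W, ∃ s : k, s ≠ 0 ∧ s • x ∈ N

lemma SPN.span (S : Set F) : SPN (Submodule.span k S) (Submodule.span E S) := by
  refine ⟨fun x hx => Submodule.span_subset_span k E S hx, fun x hx => ?_⟩
  induction hx using Submodule.span_induction with
  | mem x hx => exact ⟨1, one_ne_zero, by rw [one_smul]; exact Submodule.subset_span hx⟩
  | zero => exact ⟨1, one_ne_zero, by rw [smul_zero]; exact Submodule.zero_mem _⟩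
  | add x y _ _ hx hy =>
    obtain ⟨a, ha, hax⟩ := hx
    obtain ⟨b, hb, hby⟩ := hy
    refine ⟨a * b, mul_ne_zero ha hb, ?_⟩
    rw [smul_add]
    refine Submodule.add_mem _ ?_ ?_
    · rw [mul_comm, mul_smul]
      exact Submodule.smul_mem _ _ hax
    · rw [mul_smul]
      exact Submodule.smul_mem _ _ hby
  | smul c x _ hx =>
    obtain ⟨a, ha, hax⟩ := hx
    obtain ⟨n, d, hd, rfl⟩ := IsFractionRing.div_surjective (A := k) c
    have hd0 := nonZeroDivisors.ne_zero hd
    refine ⟨a * d, mul_ne_zero ha hd0, ?_⟩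
    have hdE : algebraMap k E d ≠ 0 := by
      rw [Ne, FaithfulSMul.algebraMap_eq_zero_iff]
      exact hd0
    have h1 : (a * d) • ((algebraMap k E n / algebraMap k E d) • x) = n • (a • x) := by
      rw [← algebraMap_smul E (a * d), ← algebraMap_smul E n, ← algebraMap_smul E a, smul_smul,
        smul_smul]
      congr 1
      rw [map_mul]
      field_simp
    rw [h1]
    exact Submodule.smul_mem _ _ hax

lemma SPN.mul {N N' : Submodule k F} {W W' : Submodule E F} (h : SPN N W) (h' : SPN N' W') :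
    SPN (N * N') (W * W') := by
  refine ⟨fun x hx => ?_, fun x hx => ?_⟩
  · induction hx using Submodule.mul_induction_on' with
    | mem_mul_mem m hm n hn => exact Submodule.mul_mem_mul (h.sub m hm) (h'.sub n hn)
    | add x _ y _ hx hy => exact Submodule.add_mem _ hx hy
  · induction hx using Submodule.mul_induction_on' with
    | mem_mul_mem m hm n hn =>
      obtain ⟨a, ha, ham⟩ := h.den m hm
      obtain ⟨b, hb, hbn⟩ := h'.den n hn
      refine ⟨a * b, mul_ne_zero ha hb, ?_⟩
      have h1 : (a * b) • (m * n) = (a • m) * (b • n) := by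
        rw [smul_mul_smul_comm]
      rw [h1]
      exact Submodule.mul_mem_mul ham hbn
    | add x _ y _ hx hy =>
      obtain ⟨a, ha, hax⟩ := hx
      obtain ⟨b, hb, hby⟩ := hy
      refine ⟨a * b, mul_ne_zero ha hb, ?_⟩
      rw [smul_add]
      refine Submodule.add_mem _ ?_ ?_
      · rw [mul_comm a b, mul_smul]
        exact Submodule.smul_mem _ _ hax
      · rw [mul_smul]
        exact Submodule.smul_mem _ _ hby

lemma SPN.one : SPN (1 : Submodule k F) (1 : Submodule E F) := by
  have h := SPN.span (k := k) (E := E) ({1} : Set F)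
  rw [← Submodule.one_eq_span, ← Submodule.one_eq_span] at h
  exact h

lemma SPN.pow {N : Submodule k F} {W : Submodule E F} (h : SPN N W) (n : ℕ) :
    SPN (N ^ n) (W ^ n) := by
  induction n with
  | zero => rw [pow_zero, pow_zero]; exact SPN.one
  | succ n ih => rw [pow_succ, pow_succ]; exact ih.mul h

lemma SPN.sat {N N' : Submodule k F} {W : Submodule E F} (h : SPN N W)
    (h1 : ∀ y ∈ N', y ∈ sat N) (h2 : ∀ y : F, y ∈ N → ∃ s : k, s ≠ 0 ∧ s • y ∈ N') :
    SPN N' W := by
  refine ⟨fun x hx => ?_, fun x hx => ?_⟩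
  · obtain ⟨s, hs, hsx⟩ := h1 x hx
    have h3 := h.sub _ hsx
    have hsE : algebraMap k E s ≠ 0 := by
      rw [Ne, FaithfulSMul.algebraMap_eq_zero_iff]
      exact hs
    rw [← algebraMap_smul E s] at h3
    exact (Submodule.smul_mem_iff _ hsE).1 h3
  · obtain ⟨a, ha, hax⟩ := h.den x hx
    obtain ⟨b, hb, hbx⟩ := h2 _ hax
    exact ⟨b * a, mul_ne_zero hb ha, by rw [mul_smul]; exact hbx⟩

end span

section chart

variable {κ E F : Type} [Field κ] [Field E] [Field F] [Algebra κ E] [Algebra E F] [Algebra κ F]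
  [IsScalarTower κ E F]

/-- A chart over the affine line. -/
structure CHT (s : E) (N : Submodule κ F) (W : Submodule E F) : Prop where
  st : ∀ x ∈ N, algebraMap E F s * x ∈ N
  gen : ∃ S : Finset F, (∀ x ∈ S, x ∈ N) ∧
    N ≤ Submodule.span κ {y | ∃ i : ℕ, ∃ x ∈ S, y = algebraMap E F s ^ i * x}
  sub : ∀ x ∈ N, x ∈ W
  den : ∀ x ∈ W, ∃ P : κ[X], P ≠ 0 ∧ aeval (algebraMap E F s) P * x ∈ N

lemma exists_X_pow {P : κ[X]} (hP : P ≠ 0) : ∃ (j : ℕ) (q : κ[X]), q.coeff 0 ≠ 0 ∧
    P = X ^ j * q := by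
  obtain ⟨q, hq, h⟩ := (finiteMultiplicity_X_sub_C (0 : κ) hP).exists_eq_pow_mul_and_not_dvd
  rw [C_0, sub_zero] at hq h
  exact ⟨_, q, fun h0 => h (X_dvd_iff.2 h0), hq⟩

lemma reverse_eval {T : F} (hT : T ≠ 0) (P : κ[X]) :
    T ^ P.natDegree * aeval T⁻¹ P.reverse = aeval T P := by
  have _ := invertibleOfNonzero hT
  have h := eval₂_reverse_mul_pow (algebraMap κ F) T P
  rw [invOf_eq_inv, mul_comm] at h
  exact h

/-- The gluing data. -/
theorem GL1_of {t : E} (ht : t ≠ 0) {N₀ N₁ : Submodule κ F} {W : Submodule E F}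
    (h0 : CHT t N₀ W) (h1 : CHT t⁻¹ N₁ W) : GL1 (algebraMap E F t) N₀ N₁ := by
  have htF : algebraMap E F t ≠ 0 := by rwa [Ne, map_eq_zero]
  have hst0 := h0.st
  have hst1 := h1.st
  have hg1 := h1.gen
  have hd1 := h1.den
  simp only [map_inv₀] at hst1 hg1 hd1
  obtain ⟨T, hT⟩ : ∃ T, T = algebraMap E F t := ⟨_, rfl⟩
  have hd0 := h0.den
  have hg0 := h0.gen
  rw [← hT] at hst0 hst1 hg0 hg1 hd0 hd1 htF ⊢
  refine ⟨htF, hst0, hst1, hg0, hg1, fun x hx => ?_, fun x hx => ?_⟩
  · obtain ⟨P, hP, hPx⟩ := hd1 x (h0.sub x hx)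
    obtain ⟨j, q, hq, rfl⟩ := exists_X_pow hP
    refine ⟨j, q, hq, ?_⟩
    rw [map_mul, map_pow, aeval_X, mul_assoc] at hPx
    exact hPx
  · obtain ⟨P, hP, hPx⟩ := hd0 x (h1.sub x hx)
    refine ⟨P.natDegree, P.reverse, ?_, ?_⟩
    · rw [coeff_zero_reverse]
      exact leadingCoeff_ne_zero.2 hP
    · rw [← mul_assoc, reverse_eval htF]
      exact hPx

end chart

end Pool.Agent.T9h3.P
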